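import Pool.Agent.H.MP_1611f1_gt.G.MT
import Pool.Agent.H.MP_1611f1_gt.G.Glue

/-!
Dehn fillings of mapping tori.
-/

namespace Pool.Agent.H.MP_1611f1_gt.G2

open Topology Set Filter

section

variable {S : Type*} [TopologicalSpace S] {J : Type*} {E : Surf S J} {phi : S ≃ₜ S}
  {al be ga de : J → ℤ} {Y : Type*} [TopologicalSpace Y] (Fi : Filling E phi al be ga de Y)

theorem fd_pow (hphi : ∀ j z, phi (E.collar j z) = E.collar j z) (k : ℤ) (j : J)
    (z : AddCircle (1 : ℝ) × Ioo (1 : ℝ) 2) : (phi ^ k) (E.collar j z) = E.collar j z := by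
  have h1 : ∀ n : ℕ, (phi ^ n) (E.collar j z) = E.collar j z := by
    intro n
    induction n with
    | zero => rfl
    | succ n ih =>
      rw [pow_succ]
      show (phi ^ n) (phi (E.collar j z)) = _
      rw [hphi, ih]
  rcases k with n | n
  · exact h1 n
  · rw [Int.negSucc_eq]
    have h2 := h1 (n + 1)
    have h3 : (phi ^ (-((n : ℤ) + 1))) ((phi ^ (n + 1)) (E.collar j z)) = E.collar j z := by
      show ((phi ^ (-((n : ℤ) + 1))) * (phi ^ (n + 1))) (E.collar j z) = _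
      have : (phi ^ (-((n : ℤ) + 1))) * (phi ^ (n + 1)) = 1 := by
        rw [← zpow_natCast, ← zpow_add]
        push_cast
        rw [neg_add_cancel, zpow_zero]
      rw [this]
      rfl
    rw [h2] at h3
    exact h3

/-- the toral collar -/
noncomputable def fdTor (j : J) (w : AddCircle (1 : ℝ) × Ioo (1 : ℝ) 2 × AddCircle (1 : ℝ)) : Y :=
  Fi.q j (polar w.2.1 (al j • w.1 + be j • w.2.2), ga j • w.1 + de j • w.2.2)

theorem fd_tor (j : J) (θ : AddCircle (1 : ℝ)) (r : Ioo (1 : ℝ) 2) (t : ℝ) :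
    fdTor Fi j (θ, r, (t : AddCircle (1 : ℝ))) = Fi.p (E.collar j (θ, r), t) := by
  rw [Fi.glue, fdTor]
  simp only
  have h : ∀ n : ℤ, n • (t : AddCircle (1 : ℝ)) = ((n * t : ℝ) : AddCircle (1 : ℝ)) := by
    intro n
    rw [← AddCircle.coe_zsmul, zsmul_eq_mul]
  rw [h, h]

theorem fd_surj (w : AddCircle (1 : ℝ) × Ioo (1 : ℝ) 2 × AddCircle (1 : ℝ)) :
    ∃ t : ℝ, w = (w.1, w.2.1, (t : AddCircle (1 : ℝ))) := by
  obtain ⟨t, ht⟩ := QuotientAddGroup.mk_surjective w.2.2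
  refine ⟨t, ?_⟩
  ext1
  · rfl
  · ext1
    · rfl
    · exact ht.symm

theorem fd_inj (hphi : ∀ j z, phi (E.collar j z) = E.collar j z) (i j : J)
    (w w' : AddCircle (1 : ℝ) × Ioo (1 : ℝ) 2 × AddCircle (1 : ℝ))
    (h : fdTor Fi i w = fdTor Fi j w') : i = j ∧ w = w' := by
  obtain ⟨t, ht⟩ := fd_surj w
  obtain ⟨t', ht'⟩ := fd_surj w'
  rw [ht, ht', fd_tor, fd_tor, Fi.p_eq] at h
  obtain ⟨k, hk, hx⟩ := h
  rw [fd_pow hphi] at hx
  have hij := E.disj _ _ _ _ hx
  subst hij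
  have h1 := (E.emb i).injective hx
  refine ⟨rfl, ?_⟩
  rw [ht, ht']
  have h2 : (t' : AddCircle (1 : ℝ)) = (t : AddCircle (1 : ℝ)) := by
    rw [hk, AddCircle.coe_add]
    have : ((k : ℝ) : AddCircle (1 : ℝ)) = 0 := by
      rw [AddCircle.coe_eq_zero_iff]
      exact ⟨k, by simp⟩
    rw [this, add_zero]
  have h3 : w.1 = w'.1 := (Prod.mk.inj h1).1
  have h4 : w.2.1 = w'.2.1 := (Prod.mk.inj h1).2
  rw [h2, h3, h4]

theorem fd_cont (j : J) : Continuous (fdTor Fi j) := by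
  refine (Fi.q_emb j).continuous.comp ?_
  refine Continuous.prodMk ?_ ?_
  · refine Continuous.subtype_mk ?_ _
    fun_prop
  · fun_prop

theorem fd_open (j : J) : IsOpenMap (fdTor Fi j) := by
  intro U hU
  let π : (AddCircle (1 : ℝ) × Ioo (1 : ℝ) 2) × ℝ →
      AddCircle (1 : ℝ) × Ioo (1 : ℝ) 2 × AddCircle (1 : ℝ) :=
    fun z => (z.1.1, z.1.2, (z.2 : AddCircle (1 : ℝ)))
  have hπ : Continuous π := by
    refine Continuous.prodMk (by fun_prop) (Continuous.prodMk (by fun_prop) ?_)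
    exact (AddCircle.continuous_mk' 1).comp continuous_snd
  have hπs : Function.Surjective π := by
    intro w
    obtain ⟨t, ht⟩ := fd_surj w
    exact ⟨((w.1, w.2.1), t), ht.symm⟩
  have e : fdTor Fi j '' U = (fun z : (AddCircle (1 : ℝ) × Ioo (1 : ℝ) 2) × ℝ =>
      Fi.p (E.collar j z.1, z.2)) '' (π ⁻¹' U) := by
    ext y
    constructor
    · rintro ⟨w, hw, rfl⟩
      obtain ⟨z, rfl⟩ := hπs w
      exact ⟨z, hw, (fd_tor Fi j z.1.1 z.1.2 z.2).symm⟩
    · rintro ⟨z, hz, rfl⟩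
      exact ⟨π z, hz, fd_tor Fi j z.1.1 z.1.2 z.2⟩
  rw [e]
  have hop : IsOpenMap (fun z : (AddCircle (1 : ℝ) × Ioo (1 : ℝ) 2) × ℝ =>
      Fi.p (E.collar j z.1, z.2)) := by
    have h1 : IsOpenMap (Prod.map (E.collar j) (id : ℝ → ℝ)) :=
      (E.emb j).isOpenMap.prodMap IsOpenMap.id
    exact Fi.p_loc.isOpenMap.comp h1
  exact hop _ (hU.preimage hπ)

theorem fd_mem (j : J) (w) : fdTor Fi j w ∈ range Fi.p := by
  obtain ⟨t, ht⟩ := fd_surj w
  rw [ht, fd_tor]
  exact ⟨_, rfl⟩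

/-- the mapping torus as a manifold with toral ends -/
noncomputable def fdT (hphi : ∀ j z, phi (E.collar j z) = E.collar j z) :
    G.Ended (range Fi.p) J where
  tor j w := ⟨fdTor Fi j w, fd_mem Fi j w⟩
  emb j := by
    refine IsOpenEmbedding.of_continuous_injective_isOpenMap ((fd_cont Fi j).subtype_mk _) ?_ ?_
    · intro w w' h
      exact (fd_inj Fi hphi j j w w' (congrArg Subtype.val h)).2
    · intro U hU
      have e : (fun w => (⟨fdTor Fi j w, fd_mem Fi j w⟩ : range Fi.p)) '' U =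
          Subtype.val ⁻¹' (fdTor Fi j '' U) := by
        ext y
        constructor
        · rintro ⟨w, hw, rfl⟩
          exact ⟨w, hw, rfl⟩
        · rintro ⟨w, hw, h⟩
          exact ⟨w, hw, Subtype.ext h⟩
      rw [e]
      exact (fd_open Fi j U hU).preimage continuous_subtype_val
  disj i j z w h := (fd_inj Fi hphi i j z w (congrArg Subtype.val h)).1

def fd_mt (hphi : ∀ j z, phi (E.collar j z) = E.collar j z) :
    G.MTorus E phi (fdT Fi hphi) where
  p z := ⟨Fi.p z, z, rfl⟩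
  p_loc := by
    have h1 : IsLocalHomeomorph (Subtype.val ∘ fun z => (⟨Fi.p z, z, rfl⟩ : range Fi.p)) := Fi.p_loc
    have h2 : IsOpenEmbedding (Subtype.val : range Fi.p → Y) :=
      Fi.p_loc.isOpenMap.isOpen_range.isOpenEmbedding_subtypeVal
    exact IsLocalHomeomorph.of_comp h1 h2.isLocalHomeomorph (Fi.p_loc.continuous.subtype_mk _)
  p_eq x t x' t' := by
    rw [Subtype.mk.injEq]
    exact Fi.p_eq x t x' t'
  p_surj := by
    rintro ⟨y, z, rfl⟩
    exact ⟨z, rfl⟩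
  tor j θ r t := Subtype.ext (fd_tor Fi j θ r t)

include Fi in
/-- the determinants are `1` or `-1` -/
theorem fd_det (hphi : ∀ j z, phi (E.collar j z) = E.collar j z) (j : J) :
    al j * de j - be j * ga j = 1 ∨ al j * de j - be j * ga j = -1 := by
  have h0 : ∀ θ τ : AddCircle (1 : ℝ), al j • θ + be j • τ = 0 → ga j • θ + de j • τ = 0 →
      θ = 0 ∧ τ = 0 := by
    intro θ τ h1 h2
    have r0 : Ioo (1 : ℝ) 2 := ⟨3 / 2, by norm_num, by norm_num⟩
    have h3 : fdTor Fi j (θ, r0, τ) = fdTor Fi j (0, r0, 0) := by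
      simp only [fdTor, h1, h2, smul_zero, add_zero]
    have h4 := (fd_inj Fi hphi j j _ _ h3).2
    exact ⟨congrArg Prod.fst h4, congrArg (fun w => w.2.2) h4⟩
  have hz : ∀ (n : ℤ) (t : ℝ), n • (t : AddCircle (1 : ℝ)) = ((n * t : ℝ) : AddCircle (1 : ℝ)) := by
    intro n t
    rw [← AddCircle.coe_zsmul, zsmul_eq_mul]
  have h1 : ∀ u v : ℝ, (∃ k : ℤ, al j * u + be j * v = k) → (∃ k : ℤ, ga j * u + de j * v = k) →
      (∃ k : ℤ, u = k) ∧ ∃ k : ℤ, v = k := by
    intro u v ⟨k, hk⟩ ⟨l, hl⟩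
    have e : ∀ m : ℤ, ((m : ℝ) : AddCircle (1 : ℝ)) = 0 := fun m => by
      rw [AddCircle.coe_eq_zero_iff]
      exact ⟨m, by simp⟩
    have h2 := h0 (u : AddCircle (1 : ℝ)) (v : AddCircle (1 : ℝ))
      (by rw [hz, hz, ← AddCircle.coe_add, hk, e]) (by rw [hz, hz, ← AddCircle.coe_add, hl, e])
    have e2 : ∀ x : ℝ, (x : AddCircle (1 : ℝ)) = 0 → ∃ k : ℤ, x = k := by
      intro x hx
      rw [AddCircle.coe_eq_zero_iff] at hx
      obtain ⟨m, hm⟩ := hx
      exact ⟨m, by rw [← hm]; simp⟩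
    exact ⟨e2 _ h2.1, e2 _ h2.2⟩
  set D : ℤ := al j * de j - be j * ga j with hD
  have hDr : (D : ℝ) = al j * de j - be j * ga j := by rw [hD]; push_cast; ring
  have h2 : ∀ s : ℝ, (∃ k : ℤ, s * D = k) → (∃ k : ℤ, s * de j = k) ∧ (∃ k : ℤ, s * ga j = k) ∧
      (∃ k : ℤ, s * be j = k) ∧ ∃ k : ℤ, s * al j = k := by
    intro s ⟨k, hk⟩
    have a1 := h1 (s * de j) (-(s * ga j)) ⟨k, by rw [← hk, hDr]; ring⟩ ⟨0, by push_cast; ring⟩
    have a2 := h1 (-(s * be j)) (s * al j) ⟨0, by push_cast; ring⟩ ⟨k, by rw [← hk, hDr]; ring⟩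
    obtain ⟨⟨k1, hk1⟩, k2, hk2⟩ := a1
    obtain ⟨⟨k3, hk3⟩, k4, hk4⟩ := a2
    exact ⟨⟨k1, hk1⟩, ⟨-k2, by push_cast; linarith⟩, ⟨-k3, by push_cast; linarith⟩, ⟨k4, hk4⟩⟩
  by_cases hD0 : D = 0
  · exfalso
    have h3 : ∀ x : ℤ, (∀ s : ℝ, ∃ k : ℤ, s * x = k) → x = 0 := by
      intro x hx
      by_contra hx0
      obtain ⟨k, hk⟩ := hx (1 / (2 * x))
      have hxr : (x : ℝ) ≠ 0 := by exact_mod_cast hx0
      have h4 : (1 : ℝ) = 2 * k := by
        rw [← hk]
        field_simp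
      have h5 : (1 : ℤ) = 2 * k := by exact_mod_cast h4
      omega
    have g0 : ∀ s : ℝ, ∃ k : ℤ, s * D = k := fun s => ⟨0, by rw [hD0]; push_cast; ring⟩
    have g1 := h3 _ fun s => (h2 s (g0 s)).1
    have g2 := h3 _ fun s => (h2 s (g0 s)).2.1
    have g3 := h3 _ fun s => (h2 s (g0 s)).2.2.1
    have g4 := h3 _ fun s => (h2 s (g0 s)).2.2.2
    obtain ⟨⟨k, hk⟩, -⟩ := h1 (1 / 2) 0 ⟨0, by rw [g4, g3]; push_cast; ring⟩
      ⟨0, by rw [g1, g2]; push_cast; ring⟩
    have h4 : (1 : ℝ) = 2 * k := by rw [← hk]; norm_num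
    have h5 : (1 : ℤ) = 2 * k := by exact_mod_cast h4
    omega
  · have hDr0 : (D : ℝ) ≠ 0 := by exact_mod_cast hD0
    obtain ⟨⟨a, ha⟩, ⟨b, hb⟩, ⟨c, hc⟩, d, hd⟩ := h2 (1 / D) ⟨1, by push_cast; field_simp⟩
    have ha' : (de j : ℝ) = D * a := by rw [← ha]; field_simp
    have hb' : (ga j : ℝ) = D * b := by rw [← hb]; field_simp
    have hc' : (be j : ℝ) = D * c := by rw [← hc]; field_simp
    have hd' : (al j : ℝ) = D * d := by rw [← hd]; field_simp
    have h5 : (1 : ℝ) = D * (d * a - c * b) := by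
      have : (D : ℝ) * 1 = D * (D * (d * a - c * b)) := by
        calc (D : ℝ) * 1 = al j * de j - be j * ga j := by rw [mul_one, hDr]
          _ = D * (D * (d * a - c * b)) := by rw [ha', hb', hc', hd']; ring
      exact mul_left_cancel₀ hDr0 this
    have h6 : (1 : ℤ) = D * (d * a - c * b) := by exact_mod_cast h5
    rcases Int.isUnit_iff.1 (IsUnit.of_mul_eq_one _ h6.symm) with h | h
    · exact Or.inl h
    · exact Or.inr h

/-- complex conjugation on the disc -/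
noncomputable def fdCj (z : Metric.ball (0 : ℂ) 2) : Metric.ball (0 : ℂ) 2 :=
  ⟨starRingEnd ℂ z.1, by
    rw [mem_ball_zero_iff, RCLike.norm_conj]
    exact mem_ball_zero_iff.1 z.2⟩

theorem fdCj_cont : Continuous fdCj := by
  unfold fdCj
  exact Continuous.subtype_mk (Complex.continuous_conj.comp continuous_subtype_val) fun z => by
    show starRingEnd ℂ z.1 ∈ Metric.ball (0 : ℂ) 2
    rw [mem_ball_zero_iff, RCLike.norm_conj]
    exact mem_ball_zero_iff.1 z.2

theorem fdCj_cj (z) : fdCj (fdCj z) = z := Subtype.ext (Complex.conj_conj _)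

/-- complex conjugation on the disc -/
noncomputable def fdConj : Metric.ball (0 : ℂ) 2 ≃ₜ Metric.ball (0 : ℂ) 2 where
  toFun := fdCj
  invFun := fdCj
  left_inv := fdCj_cj
  right_inv := fdCj_cj
  continuous_toFun := fdCj_cont
  continuous_invFun := fdCj_cont

theorem fdConj_polar (r : Ioo (1 : ℝ) 2) (ψ : AddCircle (1 : ℝ)) :
    fdConj (polar r ψ) = polar r (-ψ) := by
  apply Subtype.ext
  show starRingEnd ℂ ((r : ℝ) * (AddCircle.toCircle ψ : ℂ)) =
    (r : ℝ) * (AddCircle.toCircle (-ψ) : ℂ)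
  rw [map_mul, Complex.conj_ofReal, AddCircle.toCircle_neg, Circle.coe_inv_eq_conj]

open Classical in
/-- conjugation if the determinant is `-1` -/
noncomputable def fdC (al be ga de : J → ℤ) (j : J) :
    Metric.ball (0 : ℂ) 2 ≃ₜ Metric.ball (0 : ℂ) 2 :=
  if al j * de j - be j * ga j = 1 then Homeomorph.refl _ else fdConj

open Classical in
/-- the sign of the determinant -/
noncomputable def fdS (al be ga de : J → ℤ) (j : J) : ℤ :=
  if al j * de j - be j * ga j = 1 then 1 else -1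

theorem fdC_polar (al be ga de : J → ℤ) (j : J) (r : Ioo (1 : ℝ) 2) (θ τ : AddCircle (1 : ℝ)) :
    fdC al be ga de j (polar r ((fdS al be ga de j * al j) • θ + (fdS al be ga de j * be j) • τ)) =
      polar r (al j • θ + be j • τ) := by
  by_cases h : al j * de j - be j * ga j = 1
  · rw [fdC, fdS, if_pos h, if_pos h, one_mul, one_mul]
    rfl
  · rw [fdC, fdS, if_neg h, if_neg h, fdConj_polar, neg_one_mul, neg_one_mul, neg_smul, neg_smul,
      ← neg_add, neg_neg]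

include Fi in
/-- the pattern: fill all ends -/
noncomputable def fdG (hphi : ∀ j z, phi (E.collar j z) = E.collar j z) :
    G.Pattern (Σ _ : Unit, J) where
  τ e := e
  al e := fdS al be ga de e.2 * al e.2
  be e := fdS al be ga de e.2 * be e.2
  ga e := ga e.2
  de e := de e.2
  invol _ := rfl
  det_fill e _ := by
    rcases fd_det Fi hphi e.2 with h | h
    · rw [fdS, if_pos h]
      linarith
    · rw [fdS, if_neg (by rw [h]; decide)]
      linarith
  det_glue e h := (h rfl).elim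
  mat e h := (h rfl).elim

/-- the filling as a union -/
noncomputable def fdU (hphi : ∀ j z, phi (E.collar j z) = E.collar j z) :
    G.Union (fun _ : Unit => fdT Fi hphi) (fdG Fi hphi) Y where
  p z := z.2.1
  q e z := Fi.q e.1.2 (fdC al be ga de e.1.2 z.1, z.2)
  p_loc := by
    refine IsOpenEmbedding.isLocalHomeomorph ?_
    have h2 : IsOpenEmbedding (Subtype.val : range Fi.p → Y) :=
      Fi.p_loc.isOpenMap.isOpen_range.isOpenEmbedding_subtypeVal
    refine IsOpenEmbedding.of_continuous_injective_isOpenMap ?_ ?_ ?_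
    · exact continuous_sigma fun _ => h2.continuous
    · rintro ⟨_, y⟩ ⟨_, y'⟩ h
      have : y = y' := Subtype.ext h
      rw [this]
    · exact isOpenMap_sigma.2 fun _ => h2.isOpenMap
  p_eq z z' := by
    constructor
    · intro h
      left
      obtain ⟨_, y⟩ := z
      obtain ⟨_, y'⟩ := z'
      have : y = y' := Subtype.ext h
      rw [this]
    · rintro (rfl | ⟨e, θ, t, r, r', h, -⟩)
      · rfl
      · exact (h rfl).elim
  q_emb e := by
    exact (Fi.q_emb e.1.2).comp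
      ((fdC al be ga de e.1.2).isOpenEmbedding.prodMap IsOpenEmbedding.id)
  q_disj e e' z w h := by
    have := Fi.q_disj _ _ _ _ h
    obtain ⟨⟨_, j⟩, _⟩ := e
    obtain ⟨⟨_, j'⟩, _⟩ := e'
    have h1 : j = j' := this
    subst h1
    rfl
  glue e θ t r := by
    show fdTor Fi e.1.2 (θ, r, t) = Fi.q e.1.2 (fdC al be ga de e.1.2 (polar r
      ((fdS al be ga de e.1.2 * al e.1.2) • θ + (fdS al be ga de e.1.2 * be e.1.2) • t)),
      ga e.1.2 • θ + de e.1.2 • t)
    rw [fdC_polar]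
    rfl
  overlap z e w h := by
    obtain ⟨_, y, ⟨x, t⟩, rfl⟩ := z
    obtain ⟨w', hw'⟩ := Fi.overlap x t _ _ h
    refine ⟨(w'.1, w'.2, (t : AddCircle (1 : ℝ))), ?_⟩
    have h1 : (⟨Fi.p (x, t), (x, t), rfl⟩ : range Fi.p) =
        (fdT Fi hphi).tor e.1.2 (w'.1, w'.2, (t : AddCircle (1 : ℝ))) := by
      apply Subtype.ext
      show Fi.p (x, t) = fdTor Fi e.1.2 (w'.1, w'.2, (t : AddCircle (1 : ℝ)))
      rw [fd_tor, hw']
    rw [h1]
  cover y := by
    rcases Fi.cover y with ⟨z, hz⟩ | ⟨j, z, hz⟩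
    · exact Or.inl ⟨⟨(), y, z, hz⟩, rfl⟩
    · refine Or.inr ⟨⟨⟨(), j⟩, rfl⟩, ((fdC al be ga de j).symm z.1, z.2), ?_⟩
      show Fi.q j (fdC al be ga de j ((fdC al be ga de j).symm z.1), z.2) = y
      rw [Homeomorph.apply_symm_apply]
      exact hz

end

/-- Dehn fillings of mapping tori, from detected covectors -/
theorem fill_taut {S : Type*} [TopologicalSpace S] {J : Type*} {E : Surf S J} {phi : S ≃ₜ S}
    (hphi : ∀ j z, phi (E.collar j z) = E.collar j z) {al be ga de : J → ℤ}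
    {Y : Type*} [TopologicalSpace Y] (Fi : Filling E phi al be ga de Y) (x y : J → ℝ)
    (hdet : ∀ T : G.Ended (range Fi.p) J, G.MTorus E phi T → G.Detected T x y)
    (h : ∀ j, ∃ c : ℝ, c ≠ 0 ∧ x j = c * ga j ∧ y j = c * de j) :
    ∃ F : Foliation Y, F.Taut := by
  refine G.glue_taut (fun _ : Unit => fdT Fi hphi) (fdG Fi hphi) (fdU Fi hphi)
    (fun e => x e.2) (fun e => y e.2) (fun _ => hdet _ (fd_mt Fi hphi))
    (fun e he => (he rfl).elim) (fun e _ => h e.2)

end Pool.Agent.H.MP_1611f1_gt.G2
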