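import Pool.Agent.H.MP_1611f1_gt.G.MT
import Pool.Agent.H.MP_1611f1_gt.G.Glue

/-!
Dehn fillings of mapping tori (matrices of determinant 1).
-/

namespace Pool.Agent.H.MP_1611f1_gt.G2

open Topology Set Filter

section

variable {S : Type*} [TopologicalSpace S] {J : Type*} {E : Surf S J} {phi : S ≃ₜ S}
  {al be ga de : J → ℤ} {Y : Type*} [TopologicalSpace Y]

theorem fdb_zsmul_coe (n : ℤ) (t : ℝ) :
    ((n * t : ℝ) : AddCircle (1 : ℝ)) = n • (t : AddCircle (1 : ℝ)) := by
  rw [← AddCircle.coe_zsmul, zsmul_eq_mul]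

/-- the toral end -/
theorem fdb_mem (Fi : Filling E phi al be ga de Y) (j : J)
    (z : AddCircle (1 : ℝ) × Ioo (1 : ℝ) 2 × AddCircle (1 : ℝ)) :
    Fi.q j (polar z.2.1 (al j • z.1 + be j • z.2.2), ga j • z.1 + de j • z.2.2) ∈ range Fi.p := by
  obtain ⟨t, ht⟩ := QuotientAddGroup.mk_surjective z.2.2
  refine ⟨(E.collar j (z.1, z.2.1), t), ?_⟩
  rw [Fi.glue, fdb_zsmul_coe, fdb_zsmul_coe]
  have : (t : AddCircle (1 : ℝ)) = z.2.2 := ht
  rw [this]

/-- the toral end -/
noncomputable def fdbTor (Fi : Filling E phi al be ga de Y) (j : J)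
    (z : AddCircle (1 : ℝ) × Ioo (1 : ℝ) 2 × AddCircle (1 : ℝ)) : range Fi.p :=
  ⟨Fi.q j (polar z.2.1 (al j • z.1 + be j • z.2.2), ga j • z.1 + de j • z.2.2), fdb_mem Fi j z⟩

theorem fdbTor_coe (Fi : Filling E phi al be ga de Y) (j : J) (θ : AddCircle (1 : ℝ))
    (r : Ioo (1 : ℝ) 2) (t : ℝ) :
    (fdbTor Fi j (θ, r, (t : AddCircle (1 : ℝ))) : Y) = Fi.p (E.collar j (θ, r), t) := by
  show Fi.q j _ = _
  rw [Fi.glue, fdb_zsmul_coe, fdb_zsmul_coe]

theorem fdb_polar_continuous :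
    Continuous fun z : Ioo (1 : ℝ) 2 × AddCircle (1 : ℝ) => polar z.1 z.2 := by
  unfold polar
  refine Continuous.subtype_mk ?_ _
  have h1 : Continuous fun z : Ioo (1 : ℝ) 2 × AddCircle (1 : ℝ) => (((z.1 : ℝ)) : ℂ) :=
    Complex.continuous_ofReal.comp (continuous_subtype_val.comp continuous_fst)
  have h2 : Continuous fun z : Ioo (1 : ℝ) 2 × AddCircle (1 : ℝ) =>
      ((AddCircle.toCircle z.2 : Circle) : ℂ) :=
    continuous_subtype_val.comp (AddCircle.continuous_toCircle.comp continuous_snd)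
  exact h1.mul h2

theorem fdbTor_continuous (Fi : Filling E phi al be ga de Y) (j : J) :
    Continuous (fdbTor Fi j) := by
  refine Continuous.subtype_mk ?_ _
  have h1 : Continuous fun z : AddCircle (1 : ℝ) × Ioo (1 : ℝ) 2 × AddCircle (1 : ℝ) =>
      al j • z.1 + be j • z.2.2 :=
    ((continuous_zsmul (al j)).comp continuous_fst).add
      ((continuous_zsmul (be j)).comp (continuous_snd.comp continuous_snd))
  have h2 : Continuous fun z : AddCircle (1 : ℝ) × Ioo (1 : ℝ) 2 × AddCircle (1 : ℝ) =>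
      ga j • z.1 + de j • z.2.2 :=
    ((continuous_zsmul (ga j)).comp continuous_fst).add
      ((continuous_zsmul (de j)).comp (continuous_snd.comp continuous_snd))
  have h3 : Continuous fun z : AddCircle (1 : ℝ) × Ioo (1 : ℝ) 2 × AddCircle (1 : ℝ) =>
      z.2.1 := continuous_fst.comp continuous_snd
  exact (Fi.q_emb j).continuous.comp ((fdb_polar_continuous.comp (h3.prodMk h1)).prodMk h2)

theorem fdb_zpow (hphi : ∀ j z, phi (E.collar j z) = E.collar j z) (k : ℤ) (j : J) (z) :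
    (phi ^ k) (E.collar j z) = E.collar j z := by
  have hn : ∀ n : ℕ, (phi ^ n) (E.collar j z) = E.collar j z := by
    intro n
    induction n with
    | zero => rfl
    | succ n ih =>
      rw [pow_succ]
      show (phi ^ n) (phi (E.collar j z)) = _
      rw [hphi, ih]
  cases k with
  | ofNat n => simpa using hn n
  | negSucc n =>
    rw [zpow_negSucc]
    have h := hn (n + 1)
    show ((phi ^ (n + 1))⁻¹ : S ≃ₜ S) (E.collar j z) = _
    conv_lhs => rw [← h]
    exact (phi ^ (n + 1)).symm_apply_apply _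

theorem fdbTor_injective (hphi : ∀ j z, phi (E.collar j z) = E.collar j z)
    (Fi : Filling E phi al be ga de Y) (j : J) : Function.Injective (fdbTor Fi j) := by
  rintro ⟨θ, r, t⟩ ⟨θ', r', t'⟩ h
  obtain ⟨t, rfl⟩ := QuotientAddGroup.mk_surjective t
  obtain ⟨t', rfl⟩ := QuotientAddGroup.mk_surjective t'
  have h1 : (fdbTor Fi j (θ, r, (t : AddCircle (1 : ℝ))) : Y) =
      (fdbTor Fi j (θ', r', (t' : AddCircle (1 : ℝ))) : Y) := congrArg Subtype.val h
  rw [fdbTor_coe, fdbTor_coe, Fi.p_eq] at h1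
  obtain ⟨k, hk, h2⟩ := h1
  rw [fdb_zpow hphi] at h2
  have h3 := (E.emb j).injective h2
  have h4 : (t : AddCircle (1 : ℝ)) = (t' : AddCircle (1 : ℝ)) := by
    rw [hk, AddCircle.coe_add]
    have : ((k : ℝ) : AddCircle (1 : ℝ)) = 0 := by
      rw [AddCircle.coe_eq_zero_iff]
      exact ⟨k, by simp⟩
    rw [this, add_zero]
  have h5 : θ = θ' := congrArg Prod.fst h3
  have h6 : r = r' := congrArg Prod.snd h3
  rw [h5, h6]
  exact Prod.ext rfl (Prod.ext rfl h4)

theorem fdbTor_open (Fi : Filling E phi al be ga de Y) (j : J) : IsOpenMap (fdbTor Fi j) := by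
  intro U hU
  let pr : (AddCircle (1 : ℝ) × Ioo (1 : ℝ) 2) × ℝ →
      AddCircle (1 : ℝ) × Ioo (1 : ℝ) 2 × AddCircle (1 : ℝ) :=
    fun z => (z.1.1, z.1.2, (z.2 : AddCircle (1 : ℝ)))
  have hpr : Continuous pr := by
    refine (continuous_fst.comp continuous_fst).prodMk
      ((continuous_snd.comp continuous_fst).prodMk ?_)
    exact (AddCircle.continuous_mk' (1 : ℝ)).comp continuous_snd
  have h1 : IsOpen (pr ⁻¹' U) := hU.preimage hpr
  have h2 : IsOpen ((fun z : (AddCircle (1 : ℝ) × Ioo (1 : ℝ) 2) × ℝ =>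
      (E.collar j z.1, z.2)) '' (pr ⁻¹' U)) :=
    ((E.emb j).isOpenMap.prodMap IsOpenMap.id) _ h1
  have h3 := Fi.p_loc.isOpenMap _ h2
  have h4 : (fdbTor Fi j) '' U = Subtype.val ⁻¹' (Fi.p ''
      ((fun z : (AddCircle (1 : ℝ) × Ioo (1 : ℝ) 2) × ℝ => (E.collar j z.1, z.2)) ''
        (pr ⁻¹' U))) := by
    ext y
    constructor
    · rintro ⟨⟨θ, r, t⟩, hz, rfl⟩
      obtain ⟨t, rfl⟩ := QuotientAddGroup.mk_surjective t
      refine ⟨_, ⟨((θ, r), t), hz, rfl⟩, ?_⟩
      exact (fdbTor_coe Fi j θ r t).symm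
    · rintro ⟨_, ⟨⟨⟨θ, r⟩, t⟩, hz, rfl⟩, hy⟩
      refine ⟨(θ, r, (t : AddCircle (1 : ℝ))), hz, ?_⟩
      apply Subtype.ext
      rw [fdbTor_coe]
      exact hy
  rw [h4]
  exact h3.preimage continuous_subtype_val

/-- the mapping torus with its toral ends -/
noncomputable def fdbEnded (hphi : ∀ j z, phi (E.collar j z) = E.collar j z)
    (Fi : Filling E phi al be ga de Y) : G.Ended (range Fi.p) J where
  tor := fdbTor Fi
  emb := fun j => .of_continuous_injective_isOpenMap (fdbTor_continuous Fi j)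
    (fdbTor_injective hphi Fi j) (fdbTor_open Fi j)
  disj := fun i j _ _ h => Fi.q_disj i j _ _ (congrArg Subtype.val h)

/-- the mapping torus structure -/
noncomputable def fdbMT (hphi : ∀ j z, phi (E.collar j z) = E.collar j z)
    (Fi : Filling E phi al be ga de Y) : G.MTorus E phi (fdbEnded hphi Fi) where
  p := fun z => ⟨Fi.p z, mem_range_self z⟩
  p_loc := by
    have ho : IsOpen (range Fi.p) := by
      rw [← image_univ]
      exact Fi.p_loc.isOpenMap _ isOpen_univ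
    have h1 : IsOpenEmbedding (Subtype.val : range Fi.p → Y) := ho.isOpenEmbedding_subtypeVal
    exact IsLocalHomeomorph.of_comp (g := (Subtype.val : range Fi.p → Y)) Fi.p_loc
      h1.isLocalHomeomorph (Fi.p_loc.continuous.subtype_mk _)
  p_eq := fun x t x' t' => by
    rw [Subtype.mk.injEq]
    exact Fi.p_eq x t x' t'
  p_surj := by
    rintro ⟨_, z, rfl⟩
    exact ⟨z, rfl⟩
  tor := fun j θ r t => Subtype.ext (fdbTor_coe Fi j θ r t)

/-- the gluing pattern: all ends are filled -/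
def fdbPat (hd : ∀ j, al j * de j - be j * ga j = 1) : G.Pattern (Σ _ : Unit, J) where
  τ := id
  al := fun e => al e.2
  be := fun e => be e.2
  ga := fun e => ga e.2
  de := fun e => de e.2
  invol := fun _ => rfl
  det_fill := fun e _ => hd e.2
  det_glue := fun _ h => absurd rfl h
  mat := fun _ h => absurd rfl h

/-- the union -/
noncomputable def fdbUnion (hphi : ∀ j z, phi (E.collar j z) = E.collar j z)
    (hd : ∀ j, al j * de j - be j * ga j = 1) (Fi : Filling E phi al be ga de Y) :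
    G.Union (V := Unit) (M := fun _ => range Fi.p) (J := fun _ => J)
      (fun _ => fdbEnded hphi Fi) (fdbPat hd) Y where
  p := fun z => z.2
  q := fun e => Fi.q e.1.2
  p_loc := by
    have ho : IsOpen (range Fi.p) := by
      rw [← image_univ]
      exact Fi.p_loc.isOpenMap _ isOpen_univ
    have h1 : IsOpenEmbedding (Subtype.val : range Fi.p → Y) := ho.isOpenEmbedding_subtypeVal
    have h2 : IsOpenEmbedding (fun z : (Σ _ : Unit, range Fi.p) => (z.2 : Y)) := by
      refine .of_continuous_injective_isOpenMap ?_ ?_ ?_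
      · exact continuous_sigma fun _ => continuous_subtype_val
      · rintro ⟨⟨⟩, y⟩ ⟨⟨⟩, y'⟩ h
        have : y = y' := Subtype.ext h
        rw [this]
      · rw [isOpenMap_sigma]
        exact fun _ => h1.isOpenMap
    exact h2.isLocalHomeomorph
  p_eq := by
    rintro ⟨⟨⟩, y⟩ ⟨⟨⟩, y'⟩
    constructor
    · intro h
      left
      have : y = y' := Subtype.ext h
      rw [this]
    · rintro (h | ⟨e, _, _, _, _, h, -⟩)
      · rw [h]
      · exact absurd rfl h
  q_emb := fun e => Fi.q_emb _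
  q_disj := by
    rintro ⟨⟨⟨⟩, j⟩, he⟩ ⟨⟨⟨⟩, j'⟩, he'⟩ z w h
    have : j = j' := Fi.q_disj _ _ _ _ h
    subst this
    rfl
  glue := fun e θ t r => rfl
  overlap := by
    rintro ⟨⟨⟩, ⟨_, ⟨x, t⟩, rfl⟩⟩ ⟨⟨⟨⟩, j⟩, he⟩ w h
    obtain ⟨⟨θ, r⟩, hw⟩ := Fi.overlap x t j w h
    refine ⟨(θ, r, (t : AddCircle (1 : ℝ))), ?_⟩
    have : (⟨Fi.p (x, t), (x, t), rfl⟩ : range Fi.p) =
        fdbTor Fi j (θ, r, (t : AddCircle (1 : ℝ))) := by
      apply Subtype.ext
      rw [fdbTor_coe, ← hw]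
    exact congrArg (Sigma.mk ()) this
  cover := by
    intro y
    rcases Fi.cover y with ⟨z, hz⟩ | ⟨j, z, hz⟩
    · exact Or.inl ⟨⟨(), ⟨y, z, hz⟩⟩, rfl⟩
    · exact Or.inr ⟨⟨⟨(), j⟩, rfl⟩, z, hz⟩

/-- Dehn fillings of mapping tori, from detected covectors (determinant `1`) -/
theorem fill_taut_det (hphi : ∀ j z, phi (E.collar j z) = E.collar j z)
    (hd : ∀ j, al j * de j - be j * ga j = 1)
    (Fi : Filling E phi al be ga de Y) (x y : J → ℝ)
    (hdet : ∀ T : G.Ended (range Fi.p) J, G.MTorus E phi T → G.Detected T x y)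
    (h : ∀ j, ∃ c : ℝ, c ≠ 0 ∧ x j = c * ga j ∧ y j = c * de j) :
    ∃ F : Foliation Y, F.Taut := by
  refine G.glue_taut (fun _ : Unit => fdbEnded hphi Fi) (fdbPat hd) (fdbUnion hphi hd Fi)
    (fun e => x e.2) (fun e => y e.2) (fun _ => hdet _ (fdbMT hphi Fi)) ?_ ?_
  · intro e he
    exact absurd rfl he
  · intro e _
    exact h e.2

end

end Pool.Agent.H.MP_1611f1_gt.G2
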