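import Pool.Agent.H.MP_1611f1_gt.G2.GenDefs
import Pool.Agent.H.MP_1611f1_gt.TypB
import Pool.Agent.H.MP_1611f1_gt.ColC

/-!
The transverse function on the collars.
-/

namespace Pool.Agent.H.MP_1611f1_gt.G2

open Topology Set Filter

/-- integer multiples of a period -/
theorem per_int (f : ℝ → ℝ) (a b : ℝ) (h : ∀ x, f (x + a) = f x + b) (x : ℝ) (m : ℤ) :
    f (x + a * m) = f x + b * m := by
  induction m using Int.induction_on with
  | zero => simp
  | succ n ih =>
    have h1 : x + a * (((n : ℤ) + 1 : ℤ) : ℝ) = x + a * ((n : ℤ) : ℝ) + a := by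
      push_cast; ring
    rw [h1, h, ih]
    push_cast; ring
  | pred n ih =>
    have h1 : x + a * ((-(n : ℤ) : ℤ) : ℝ) = x + a * ((-(n : ℤ) - 1 : ℤ) : ℝ) + a := by
      push_cast; ring
    rw [h1, h] at ih
    push_cast at ih ⊢
    linarith

theorem iso_symm_per {T : ℕ} (A : ℝ ≃o ℝ) (hA : ∀ t, A (t + T) = A t + T) (t : ℝ) :
    A.symm (t + T) = A.symm t + T := by
  apply A.injective
  rw [OrderIso.apply_symm_apply, hA, OrderIso.apply_symm_apply]

theorem Fe_per {T : ℕ} (A : ℝ ≃o ℝ) (hA : ∀ t, A (t + T) = A t + T) (u t : ℝ) :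
    Fe A u (t + T) = Fe A u t + T := by
  unfold Fe
  rw [iso_symm_per A hA]; ring

section

variable {J K : Type*} {len : J → ℕ} {w : J → ℤ → Option (K × Bool)} {T : ℕ} {s : J → ℝ}
  (D : Dat len w T s)

/-- the transverse function on the letter `k` -/
noncomputable def MU (j : J) (k : ℤ) (u t : ℝ) : ℝ :=
  match w j k with
  | none => D.M j k t
  | some (e, true) => D.M j k (Fe (D.iso e) u t)
  | some (e, false) => D.M j k (D.iso e (Fe (D.iso e) (1 - u) t))

theorem MU_none {j : J} {k : ℤ} (h : w j k = none) (u t : ℝ) : MU D j k u t = D.M j k t := by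
  unfold MU
  rw [h]

theorem MU_true {j : J} {k : ℤ} {e : K} (h : w j k = some (e, true)) (u t : ℝ) :
    MU D j k u t = D.M j k (Fe (D.iso e) u t) := by
  unfold MU
  rw [h]

theorem MU_false {j : J} {k : ℤ} {e : K} (h : w j k = some (e, false)) (u t : ℝ) :
    MU D j k u t = D.M j k (D.iso e (Fe (D.iso e) (1 - u) t)) := by
  unfold MU
  rw [h]

/-- the three cases for a letter -/
theorem letter (o : Option (K × Bool)) :
    o = none ∨ ∃ e, o = some (e, true) ∨ o = some (e, false) := by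
  rcases o with _ | ⟨e, b⟩
  · exact Or.inl rfl
  · cases b
    · exact Or.inr ⟨e, Or.inr rfl⟩
    · exact Or.inr ⟨e, Or.inl rfl⟩

theorem MU_small (j : J) (k : ℤ) {u : ℝ} (hu : u ≤ 1 / 4) (t : ℝ) :
    MU D j k u t = D.M j k t := by
  rcases letter (w j k) with h | ⟨e, h | h⟩
  · rw [MU_none D h]
  · rw [MU_true D h, Fe_small _ hu]
  · rw [MU_false D h, Fe_large _ (by linarith), OrderIso.apply_symm_apply]

theorem MU_large (j : J) (k : ℤ) {u : ℝ} (hu : 3 / 4 ≤ u) (t : ℝ) :
    MU D j k u t = D.M j (k + 1) t := by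
  rcases letter (w j k) with h | ⟨e, h | h⟩
  · rw [MU_none D h, D.non j k h]
  · rw [MU_true D h, Fe_large _ hu, ← D.pos j k e h, OrderIso.apply_symm_apply]
  · rw [MU_false D h, Fe_small _ (by linarith), ← D.neg j k e h, OrderIso.symm_apply_apply]

theorem MU_cont (j : J) (k : ℤ) : Continuous fun z : ℝ × ℝ => MU D j k z.1 z.2 := by
  rcases letter (w j k) with h | ⟨e, h | h⟩
  · simp only [MU_none D h]
    exact (D.cont j k).comp continuous_snd
  · simp only [MU_true D h]
    exact (D.cont j k).comp (Fe_cont (D.iso e))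
  · simp only [MU_false D h]
    exact (D.cont j k).comp ((D.iso e).continuous.comp ((Fe_cont (D.iso e)).comp
      ((continuous_const.sub continuous_fst).prodMk continuous_snd)))

theorem MU_mono (j : J) (k : ℤ) (u : ℝ) : StrictMono (MU D j k u) := by
  intro a b hab
  rcases letter (w j k) with h | ⟨e, h | h⟩
  · rw [MU_none D h, MU_none D h]
    exact D.mono j k hab
  · rw [MU_true D h, MU_true D h]
    exact D.mono j k (Fe_mono _ _ hab)
  · rw [MU_false D h, MU_false D h]
    exact D.mono j k ((D.iso e).strictMono (Fe_mono _ _ hab))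

theorem MU_per (j : J) (k : ℤ) (u t : ℝ) : MU D j k u (t + T) = MU D j k u t + T := by
  rcases letter (w j k) with h | ⟨e, h | h⟩
  · rw [MU_none D h, MU_none D h, D.M_per]
  · rw [MU_true D h, MU_true D h, Fe_per _ (D.iso_per e), D.M_per]
  · rw [MU_false D h, MU_false D h, Fe_per _ (D.iso_per e), D.iso_per, D.M_per]

theorem MU_len (hw : ∀ j k, w j (k + len j) = w j k) (j : J) (k : ℤ) (u t : ℝ) :
    MU D j (k + len j) u t = MU D j k u t - s j * T := by
  rcases letter (w j k) with h | ⟨e, h | h⟩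
  · rw [MU_none D h, MU_none D ((hw j k).trans h), D.M_len]
  · rw [MU_true D h, MU_true D ((hw j k).trans h), D.M_len]
  · rw [MU_false D h, MU_false D ((hw j k).trans h), D.M_len]

/-- the transverse function on the collar `j` -/
noncomputable def MM (j : J) (y t : ℝ) : ℝ := MU D j ⌊y⌋ (Int.fract y) t

theorem MM_eq (j : J) (k : ℤ) {u : ℝ} (hu : u ∈ Icc (0 : ℝ) 1) (t : ℝ) :
    MM D j (k + u) t = MU D j k u t := by
  unfold MM
  rcases hu.2.lt_or_eq with h | h
  · have h1 : ⌊(k : ℝ) + u⌋ = k := by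
      rw [Int.floor_eq_iff]
      constructor <;> linarith [hu.1]
    rw [Int.fract, h1, add_sub_cancel_left]
  · subst h
    have h1 : ⌊(k : ℝ) + 1⌋ = k + 1 := by
      rw [Int.floor_eq_iff]
      push_cast
      constructor <;> linarith
    rw [Int.fract, h1]
    push_cast
    rw [sub_self, MU_small D _ _ (by norm_num), MU_large D _ _ (by norm_num)]

/-- near the ends of the intervals `[k, k+1]` the function `MM` does not depend on `y` -/
theorem MM_near (j : J) (k : ℤ) {y : ℝ} (hy : |y - k| ≤ 1 / 4) (t : ℝ) :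
    MM D j y t = D.M j k t := by
  rw [abs_le] at hy
  rcases le_or_gt 0 (y - k) with h | h
  · have h1 := MM_eq D j k (u := y - k) ⟨h, by linarith [hy.2]⟩ t
    rw [add_sub_cancel] at h1
    rw [h1, MU_small D _ _ hy.2]
  · have h1 := MM_eq D j (k - 1) (u := y - k + 1) ⟨by linarith [hy.1], by linarith⟩ t
    have h2 : (((k - 1 : ℤ) : ℝ)) + (y - k + 1) = y := by
      push_cast; ring
    rw [h2] at h1
    rw [h1, MU_large D _ _ (by linarith [hy.1]), sub_add_cancel]

theorem MM_mono (j : J) (y : ℝ) : StrictMono (MM D j y) := MU_mono D j _ _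

theorem MM_per (j : J) (y t : ℝ) : MM D j y (t + T) = MM D j y t + T := MU_per D j _ _ t

theorem MM_len (hw : ∀ j k, w j (k + len j) = w j k) (j : J) (y t : ℝ) :
    MM D j (y + len j) t = MM D j y t + -(s j * T) := by
  have h1 : ⌊y + len j⌋ = ⌊y⌋ + len j := by
    have := Int.floor_add_natCast y (len j)
    exact this
  have h2 : Int.fract (y + len j) = Int.fract y := Int.fract_add_natCast y (len j)
  unfold MM
  rw [h1, h2, MU_len D hw]
  ring

theorem MM_t (j : J) (y t : ℝ) (k : ℤ) : MM D j y (t + T * k) = MM D j y t + T * k :=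
  per_int (MM D j y) T T (MM_per D j y) t k

theorem MM_y (hw : ∀ j k, w j (k + len j) = w j k) (j : J) (y t : ℝ) (k : ℤ) :
    MM D j (y + len j * k) t = MM D j y t - s j * T * k := by
  rw [per_int (fun y => MM D j y t) (len j) (-(s j * T)) (fun y => MM_len D hw j y t) y k]
  ring

theorem MM_cont (j : J) : Continuous fun z : ℝ × ℝ => MM D j z.1 z.2 := by
  rw [continuous_iff_continuousAt]
  rintro ⟨y, t⟩
  by_cases hy : |y - ⌊y⌋| < 1 / 4
  · have h1 : Continuous fun z : ℝ × ℝ => |z.1 - ⌊y⌋| := by fun_prop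
    have h2 : ∀ᶠ z : ℝ × ℝ in 𝓝 (y, t), |z.1 - ⌊y⌋| < 1 / 4 :=
      (h1.tendsto (y, t)).eventually (gt_mem_nhds hy)
    have h3 : ContinuousAt (fun z : ℝ × ℝ => D.M j ⌊y⌋ z.2) (y, t) :=
      ((D.cont j ⌊y⌋).comp continuous_snd).continuousAt
    refine h3.congr ?_
    filter_upwards [h2] with z hz
    exact (MM_near D j ⌊y⌋ hz.le z.2).symm
  · have h0 := Int.floor_le y
    have h1 := Int.lt_floor_add_one y
    rw [abs_of_nonneg (by linarith)] at hy
    push Not at hy
    have hI : ∀ᶠ z : ℝ × ℝ in 𝓝 (y, t), z.1 ∈ Ioo (⌊y⌋ : ℝ) (⌊y⌋ + 1) :=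
      (continuous_fst.tendsto (y, t)).eventually (Ioo_mem_nhds (by linarith) h1)
    have h3 : ContinuousAt (fun z : ℝ × ℝ => MU D j ⌊y⌋ (z.1 - ⌊y⌋) z.2) (y, t) :=
      ((MU_cont D j ⌊y⌋).comp ((continuous_fst.sub continuous_const).prodMk
        continuous_snd)).continuousAt
    refine h3.congr ?_
    filter_upwards [hI] with z hz
    have h4 := MM_eq D j ⌊y⌋ (u := z.1 - ⌊y⌋) ⟨by linarith [hz.1], by linarith [hz.2]⟩ z.2
    rw [add_sub_cancel] at h4
    exact h4.symm

/-- the blended function -/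
noncomputable def MR (j : J) (y r t : ℝ) : ℝ :=
  lam r * MM D j y t + (1 - lam r) * (t - s j * T / len j * y)

theorem MR_cont (j : J) : Continuous fun z : ℝ × ℝ × ℝ => MR D j z.1 z.2.1 z.2.2 := by
  have h1 : Continuous fun z : ℝ × ℝ × ℝ => MM D j z.1 z.2.2 :=
    (MM_cont D j).comp (continuous_fst.prodMk (continuous_snd.comp continuous_snd))
  have h2 : Continuous fun z : ℝ × ℝ × ℝ => lam z.2.1 :=
    lam_cont.comp (continuous_fst.comp continuous_snd)
  have h3 : Continuous fun z : ℝ × ℝ × ℝ => z.2.2 - s j * T / len j * z.1 :=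
    (continuous_snd.comp continuous_snd).sub (continuous_const.mul continuous_fst)
  exact (h2.mul h1).add ((continuous_const.sub h2).mul h3)

theorem MR_mono (j : J) (y r : ℝ) : StrictMono (MR D j y r) := by
  intro t t' h
  have h1 : MM D j y t < MM D j y t' := MM_mono D j y h
  have h0 := lam_nonneg r
  have h2 := lam_le_one r
  change lam r * MM D j y t + (1 - lam r) * (t - s j * T / len j * y) <
    lam r * MM D j y t' + (1 - lam r) * (t' - s j * T / len j * y)
  rcases h0.eq_or_lt with h3 | h3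
  · rw [← h3]
    linarith
  · have h4 : lam r * MM D j y t < lam r * MM D j y t' := mul_lt_mul_of_pos_left h1 h3
    have h5 : (1 - lam r) * (t - s j * T / len j * y) ≤
        (1 - lam r) * (t' - s j * T / len j * y) :=
      mul_le_mul_of_nonneg_left (by linarith) (by linarith)
    linarith

theorem MR_y (hw : ∀ j k, w j (k + len j) = w j k) (j : J) (hL : 0 < len j) (y r t : ℝ) (k : ℤ) :
    MR D j (y + len j * k) r t = MR D j y r t - s j * T * k := by
  have hL' : (len j : ℝ) ≠ 0 := by exact_mod_cast hL.ne'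
  unfold MR
  rw [MM_y D hw]
  field_simp
  ring

theorem MR_t (j : J) (y r t : ℝ) (k : ℤ) : MR D j y r (t + T * k) = MR D j y r t + T * k := by
  unfold MR
  rw [MM_t]
  ring

theorem MR_outer (j : J) (y t : ℝ) {r : ℝ} (hr : 5 / 3 ≤ r) : MR D j y r t = MM D j y t := by
  rw [MR, lam_one hr]; ring

theorem MR_inner (j : J) (y t : ℝ) {r : ℝ} (hr : r ≤ 4 / 3) :
    MR D j y r t = t - s j * T / len j * y := by
  rw [MR, lam_zero hr]; ring

end

end Pool.Agent.H.MP_1611f1_gt.G2
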