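import Pool.Agent.H.MP_1611f1_gt.G2.GenA
import Pool.Agent.H.MP_1611f1_gt.TypA

/-!
The transverse functions (by type), and the chain.
-/

namespace Pool.Agent.H.MP_1611f1_gt.G2

open Topology Set Filter

section

variable {S : Type*} [TopologicalSpace S] {J K : Type*} {E : Surf S J} {len : J → ℕ}
  {w : J → ℤ → Option (K × Bool)} {T : ℕ} {s : J → ℝ}

theorem kap_cont (A : Arcs E len w) (e : K) : Continuous (A.kap e) := (A.kap e).continuous

theorem kap_disj (A : Arcs E len w) {e e' : K} (h : e ≠ e') (x : S) :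
    A.kap e x = 0 ∨ A.kap e' x = 0 := A.disj e e' x h

/-- `e` is inactive at the integer `i` -/
def ina (D : Dat len w T s) (i : ℤ) (e : K) : Prop := D.iso e i = i

/-- `e` is active at the integer `i` -/
def act (D : Dat len w T s) (i : ℤ) (e : K) : Prop := ¬ ina D i e

theorem ina_or_act (D : Dat len w T s) (i : ℤ) (e : K) : ina D i e ∨ act D i e := em _

theorem iso_per_int (D : Dat len w T s) (e : K) (t : ℝ) (k : ℤ) :
    D.iso e (t + T * k) = D.iso e t + T * k :=
  per_int (D.iso e) T T (D.iso_per e) t k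

theorem ina_shift (D : Dat len w T s) (i k : ℤ) (e : K) : ina D (i + T * k) e ↔ ina D i e := by
  unfold ina
  have h := iso_per_int D e i k
  push_cast
  rw [h]
  constructor
  · intro h1; linarith
  · intro h1; linarith

theorem act_shift (D : Dat len w T s) (i k : ℤ) (e : K) : act D (i + T * k) e ↔ act D i e :=
  not_congr (ina_shift D i k e)

/-- the open sets of the types -/
def VV (A : Arcs E len w) (a : Option K) : Set S :=
  match a with
  | none => {x | ∀ e, ‖A.kap e x‖ < 1 / 4}
  | some e => {x | A.kap e x ≠ 0}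

/-- the transverse functions of the types -/
noncomputable def Fa (D : Dat len w T s) (A : Arcs E len w) (a : Option K)
    (x : S) (t : ℝ) : ℝ :=
  match a with
  | none => t
  | some e => Fe (D.iso e) (lft (A.kap e x)) t

/-- `a` is inactive at `i` -/
def inaO (D : Dat len w T s) (i : ℤ) (a : Option K) : Prop :=
  match a with
  | none => True
  | some e => ina D i e

variable (D : Dat len w T s) (A : Arcs E len w)

theorem VV_open [Finite K] (a : Option K) : IsOpen (VV A a) := by
  cases a with
  | none =>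
    have h1 : VV A none = ⋂ e : K, {x | ‖A.kap e x‖ < 1 / 4} := by
      ext x
      simp only [VV, Set.mem_ofPred_eq, mem_iInter]
    rw [h1]
    exact isOpen_iInter_of_finite fun e =>
      isOpen_lt (kap_cont A e).norm continuous_const
  | some e =>
    exact isOpen_ne.preimage (kap_cont A e)

theorem VV_cover (x : S) : x ∈ VV A none ∨ ∃ e, x ∈ VV A (some e) := by
  by_cases h : ∃ e, A.kap e x ≠ 0
  · exact Or.inr h
  · left
    intro e
    have h1 : A.kap e x = 0 := by
      by_contra hne
      exact h ⟨e, hne⟩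
    rw [h1, norm_zero]
    norm_num

theorem Fa_cont (a : Option K) :
    ContinuousOn (fun z : S × ℝ => Fa D A a z.1 z.2) (VV A a ×ˢ univ) := by
  cases a with
  | none => exact continuous_snd.continuousOn
  | some e =>
    rintro ⟨x, t⟩ ⟨hx, -⟩
    have hx' : A.kap e x ≠ 0 := hx
    have h1 : ContinuousAt (fun z : S × ℝ => lft (A.kap e z.1)) (x, t) :=
      ContinuousAt.comp (g := lft) (f := fun z : S × ℝ => A.kap e z.1) (lft_contAt hx')
        ((kap_cont A e).comp continuous_fst).continuousAt
    have h2 : ContinuousAt (fun z : S × ℝ => (lft (A.kap e z.1), z.2)) (x, t) :=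
      h1.prodMk continuous_snd.continuousAt
    have h3 : ContinuousAt (fun z : S × ℝ => Fe (D.iso e) (lft (A.kap e z.1)) z.2) (x, t) :=
      ContinuousAt.comp (g := fun z : ℝ × ℝ => Fe (D.iso e) z.1 z.2)
        (f := fun z : S × ℝ => (lft (A.kap e z.1), z.2)) (Fe_cont (D.iso e)).continuousAt h2
    exact h3.continuousWithinAt

theorem Fa_mono (a : Option K) (x : S) : StrictMono (Fa D A a x) := by
  cases a with
  | none => exact strictMono_id
  | some e => exact Fe_mono _ _

theorem Fa_shift (a : Option K) (x : S) (t : ℝ) (k : ℤ) :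
    Fa D A a x (t + T * k) = Fa D A a x t + T * k := by
  refine per_int (Fa D A a x) T T (fun t => ?_) t k
  cases a with
  | none => rfl
  | some e => exact Fe_per _ (D.iso_per e) _ _

theorem Fa_fix {a : Option K} {i : ℤ} (h : inaO D i a) (x : S) : Fa D A a x i = i := by
  cases a with
  | none => rfl
  | some e => exact Fe_fix _ h _

/-- near a point of a strip and of the complement of the strips, the transverse function of the
strip is the identity or the inverse of the isomorphism -/
theorem TypD_near (e : K) {x : S} (h0 : ‖A.kap e x‖ < 1 / 4) (h1 : A.kap e x ≠ 0) :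
    (∀ᶠ x' in 𝓝 x, ∀ t, Fe (D.iso e) (lft (A.kap e x')) t = t) ∨
      ∀ᶠ x' in 𝓝 x, ∀ t, Fe (D.iso e) (lft (A.kap e x')) t = (D.iso e).symm t := by
  have hc : ContinuousAt (fun x' => lft (A.kap e x')) x :=
    ContinuousAt.comp (f := A.kap e) (g := lft) (lft_contAt h1) (kap_cont A e).continuousAt
  rcases (norm_lt_iff _).mp h0 with h | h
  · left
    have h2 := hc.eventually_lt (g := fun _ => (1 / 4 : ℝ)) continuousAt_const h
    filter_upwards [h2] with x' hx' t
    exact Fe_small _ (le_of_lt hx') t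
  · right
    have h2 := (continuousAt_const (y := (3 / 4 : ℝ))).eventually_lt hc h
    filter_upwards [h2] with x' hx' t
    exact Fe_large _ (le_of_lt hx') t

/-- on the intersection of two types the functions differ by an increasing function -/
theorem Fa_rel (a b : Option K) {x : S} (ha : x ∈ VV A a) (hb : x ∈ VV A b) :
    ∃ G : ℝ → ℝ, StrictMono G ∧ (∀ i : ℤ, inaO D i a → inaO D i b → G i = i) ∧
      ∀ᶠ x' in 𝓝 x, ∀ t, Fa D A b x' t = G (Fa D A a x' t) := by
  rcases a with _ | e <;> rcases b with _ | e'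
  · exact ⟨id, strictMono_id, fun i _ _ => rfl, Eventually.of_forall fun x' t => rfl⟩
  · rcases TypD_near D A e' (ha e') hb with h | h
    · refine ⟨id, strictMono_id, fun i _ _ => rfl, ?_⟩
      filter_upwards [h] with x' hx' t
      exact hx' t
    · refine ⟨(D.iso e').symm, (D.iso e').symm.strictMono, fun i _ hi => ?_, ?_⟩
      · rw [OrderIso.symm_apply_eq]
        exact hi.symm
      · filter_upwards [h] with x' hx' t
        exact hx' t
  · rcases TypD_near D A e (hb e) ha with h | h
    · refine ⟨id, strictMono_id, fun i _ _ => rfl, ?_⟩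
      filter_upwards [h] with x' hx' t
      exact (hx' t).symm
    · refine ⟨D.iso e, (D.iso e).strictMono, fun i hi _ => hi, ?_⟩
      filter_upwards [h] with x' hx' t
      change t = D.iso e (Fe (D.iso e) (lft (A.kap e x')) t)
      rw [hx' t, OrderIso.apply_symm_apply]
  · by_cases he : e = e'
    · subst he
      exact ⟨id, strictMono_id, fun i _ _ => rfl, Eventually.of_forall fun x' t => rfl⟩
    · rcases kap_disj A he x with h | h
      · exact absurd h ha
      · exact absurd h hb

end

section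

variable {S : Type*} [TopologicalSpace S] {J K : Type*} {E : Surf S J} {len : J → ℕ}
  {w : J → ℤ → Option (K × Bool)} {T : ℕ} {s : J → ℝ} {D : Dat len w T s} {A : Arcs E len w}
  {phi : S ≃ₜ S} (C : Chain D A phi)

/-- the step preserves the collapse maps of the active systems -/
theorem Chain.stepA {i : ℤ} {e : K} (h : act D i e) (x : S) :
    A.kap e (C.ψ i x) = A.kap e (C.ψ (i - 1) x) := by
  rcases C.step i e with h1 | h1
  · exact absurd h1 h
  · exact h1 x

theorem Chain.per_k (i k : ℤ) : C.ψ (i + T * k) = C.ψ i * phi ^ k := by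
  induction k using Int.induction_on with
  | zero => simp
  | succ k ih =>
    have h := C.per (i + T * k)
    rw [ih] at h
    have h2 : i + (T : ℤ) * (k + 1) = i + T * k + T := by ring
    rw [h2, h, zpow_add_one, mul_assoc]
  | pred k ih =>
    have h := C.per (i + T * (-k - 1))
    have h2 : i + (T : ℤ) * (-k - 1) + T = i + T * (-k) := by ring
    rw [h2, ih] at h
    rw [zpow_sub_one, ← mul_assoc, h, mul_inv_cancel_right]

include C in
theorem Chain.phi_zpow_col (k : ℤ) (j : J) (z) : (phi ^ k) (E.collar j z) = E.collar j z := by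
  have h := C.per_k 0 k
  have h1 : C.ψ (0 + T * k) (E.collar j z) = C.ψ 0 ((phi ^ k) (E.collar j z)) := by
    rw [h]
    rfl
  rw [C.col] at h1
  have h2 := C.col 0 j z
  exact (C.ψ 0).injective (h1.symm.trans h2.symm)

include C in
theorem Chain.phi_col (j : J) (z) : phi (E.collar j z) = E.collar j z := by
  have h := C.phi_zpow_col 1 j z
  rwa [zpow_one] at h

variable (D) in
/-- admissible pairs of types at the slice `i` -/
def Adm (i : ℤ) (a b : Option K) : Prop :=
  (inaO D i a ∧ inaO D i b) ∨ ∃ e, act D i e ∧ a = some e ∧ b = some e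

/-- the domain of a pair of types -/
def DD (i : ℤ) (a b : Option K) : Set S :=
  {x | C.ψ (i - 1) x ∈ VV A a ∧ C.ψ i x ∈ VV A b}

/-- the function of a pair of types: `a` before the time `i`, `b` after it -/
noncomputable def Fs (i : ℤ) (a b : Option K) (x : S) (t : ℝ) : ℝ :=
  if t ≤ i then Fa D A a (C.ψ (i - 1) x) t else Fa D A b (C.ψ i x) t

theorem inaO_shift (i k : ℤ) (a : Option K) : inaO D (i + T * k) a ↔ inaO D i a := by
  cases a with
  | none => exact Iff.rfl
  | some e => exact ina_shift D i k e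

theorem Adm.shift {i : ℤ} {a b : Option K} (h : Adm D i a b) (k : ℤ) : Adm D (i + T * k) a b := by
  rcases h with ⟨h1, h2⟩ | ⟨e, h1, h2⟩
  · exact Or.inl ⟨(inaO_shift i k a).2 h1, (inaO_shift i k b).2 h2⟩
  · exact Or.inr ⟨e, (act_shift D i k e).2 h1, h2⟩

theorem DD_open [Finite K] (i : ℤ) (a b : Option K) : IsOpen (DD C i a b) :=
  ((VV_open A a).preimage (C.ψ (i - 1)).continuous).inter
    ((VV_open A b).preimage (C.ψ i).continuous)

/-- a point where all active collapse maps vanish has an inactive type -/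
theorem SlB_type (i : ℤ) (y : S) (h : ∀ e, act D i e → A.kap e y = 0) :
    ∃ a, inaO D i a ∧ y ∈ VV A a := by
  by_cases h1 : ∃ e, A.kap e y ≠ 0
  · obtain ⟨e, he⟩ := h1
    refine ⟨some e, ?_, he⟩
    rcases ina_or_act D i e with h2 | h2
    · exact h2
    · exact absurd (h e h2) he
  · refine ⟨none, trivial, ?_⟩
    intro e
    have h2 : A.kap e y = 0 := by
      by_contra hne
      exact h1 ⟨e, hne⟩
    rw [h2, norm_zero]
    norm_num

/-- every point has an admissible pair of types -/
theorem DD_cover (i : ℤ) (x : S) : ∃ a b, Adm D i a b ∧ x ∈ DD C i a b := by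
  by_cases h : ∃ e, act D i e ∧ A.kap e (C.ψ i x) ≠ 0
  · obtain ⟨e, he, hne⟩ := h
    refine ⟨some e, some e, Or.inr ⟨e, he, rfl, rfl⟩, ?_, hne⟩
    show A.kap e (C.ψ (i - 1) x) ≠ 0
    rw [← C.stepA he x]
    exact hne
  · have h0 : ∀ e, act D i e → A.kap e (C.ψ i x) = 0 := by
      intro e he
      by_contra hne
      exact h ⟨e, he, hne⟩
    have h1 : ∀ e, act D i e → A.kap e (C.ψ (i - 1) x) = 0 := by
      intro e he
      rw [← C.stepA he x]
      exact h0 e he
    obtain ⟨a, ha, hxa⟩ := SlB_type i _ h1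
    obtain ⟨b, hb, hxb⟩ := SlB_type i _ h0
    exact ⟨a, b, Or.inl ⟨ha, hb⟩, hxa, hxb⟩

theorem DD_cover_none (i : ℤ) (x : S) (hx : C.ψ i x ∈ VV A none) :
    ∃ a, inaO D i a ∧ x ∈ DD C i a none := by
  by_cases h : ∃ e, ina D i e ∧ A.kap e (C.ψ (i - 1) x) ≠ 0
  · obtain ⟨e, he, hne⟩ := h
    exact ⟨some e, he, hne, hx⟩
  · refine ⟨none, trivial, ?_, hx⟩
    intro e
    rcases ina_or_act D i e with h2 | h2
    · have h3 : A.kap e (C.ψ (i - 1) x) = 0 := by
        by_contra hne
        exact h ⟨e, h2, hne⟩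
      rw [h3, norm_zero]
      norm_num
    · rw [← C.stepA h2 x]
      exact hx e

/-- over an inactive strip -/
theorem DD_cover_some {i : ℤ} {e : K} (h : ina D i e) {x : S} (hx : A.kap e (C.ψ i x) ≠ 0) :
    ∃ a, inaO D i a ∧ x ∈ DD C i a (some e) := by
  rcases VV_cover A (C.ψ (i - 1) x) with h1 | ⟨e', h1⟩
  · exact ⟨none, trivial, h1, hx⟩
  · rcases ina_or_act D i e' with h2 | h2
    · exact ⟨some e', h2, h1, hx⟩
    · exfalso
      have hne : e ≠ e' := by
        rintro rfl
        exact h2 h
      rcases kap_disj A hne (C.ψ i x) with h3 | h3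
      · exact hx h3
      · rw [C.stepA h2 x] at h3
        exact h1 h3

theorem Fs_junction {i : ℤ} {a b : Option K} (h : Adm D i a b) {x : S}
    (_ : x ∈ DD C i a b) : Fa D A a (C.ψ (i - 1) x) i = Fa D A b (C.ψ i x) i := by
  rcases h with ⟨ha, hb⟩ | ⟨e, he, rfl, rfl⟩
  · rw [Fa_fix D A ha, Fa_fix D A hb]
  · simp only [Fa]
    rw [C.stepA he x]

theorem Fs_ge {i : ℤ} {a b : Option K} (h : Adm D i a b) {x : S}
    (hx : x ∈ DD C i a b) {t : ℝ} (ht : (i : ℝ) ≤ t) :
    Fs C i a b x t = Fa D A b (C.ψ i x) t := by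
  unfold Fs
  rcases ht.eq_or_lt with rfl | ht
  · rw [if_pos le_rfl]
    exact Fs_junction C h hx
  · rw [if_neg (not_le.2 ht)]

theorem Fs_le {i : ℤ} {a b : Option K} {x : S} {t : ℝ} (ht : t ≤ (i : ℝ)) :
    Fs C i a b x t = Fa D A a (C.ψ (i - 1) x) t := if_pos ht

theorem Fs_gt {i : ℤ} {a b : Option K} {x : S} {t : ℝ} (ht : (i : ℝ) < t) :
    Fs C i a b x t = Fa D A b (C.ψ i x) t := if_neg (not_le.2 ht)

theorem Fs_cont {i : ℤ} {a b : Option K} (h : Adm D i a b) :
    ContinuousOn (fun z : S × ℝ => Fs C i a b z.1 z.2) (DD C i a b ×ˢ univ) := by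
  have h1 : ContinuousOn (fun z : S × ℝ => Fa D A a (C.ψ (i - 1) z.1) z.2)
      (DD C i a b ×ˢ univ) := by
    have := (Fa_cont D A a).comp (f := fun z : S × ℝ => (C.ψ (i - 1) z.1, z.2))
      (s := DD C i a b ×ˢ univ)
      (by
        have : Continuous (fun z : S × ℝ => (C.ψ (i - 1) z.1, z.2)) :=
          ((C.ψ (i - 1)).continuous.comp continuous_fst).prodMk continuous_snd
        exact this.continuousOn)
      (fun z hz => ⟨hz.1.1, mem_univ _⟩)
    exact this
  have h2 : ContinuousOn (fun z : S × ℝ => Fa D A b (C.ψ i z.1) z.2)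
      (DD C i a b ×ˢ univ) := by
    have := (Fa_cont D A b).comp (f := fun z : S × ℝ => (C.ψ i z.1, z.2))
      (s := DD C i a b ×ˢ univ)
      (by
        have : Continuous (fun z : S × ℝ => (C.ψ i z.1, z.2)) :=
          ((C.ψ i).continuous.comp continuous_fst).prodMk continuous_snd
        exact this.continuousOn)
      (fun z hz => ⟨hz.1.2, mem_univ _⟩)
    exact this
  rw [continuousOn_iff_continuous_domRestrict] at h1 h2 ⊢
  have h3 : Continuous (fun z : (DD C i a b ×ˢ (univ : Set ℝ)) => (z : S × ℝ).2) :=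
    continuous_snd.comp continuous_subtype_val
  have h4 := Continuous.if_le (f := fun z : (DD C i a b ×ˢ (univ : Set ℝ)) => (z : S × ℝ).2)
    (g := fun _ => (i : ℝ)) h1 h2 h3 continuous_const (by
      rintro ⟨⟨x, t⟩, ⟨hx, hu⟩⟩ hz
      have hz' : t = (i : ℝ) := hz
      subst hz'
      exact Fs_junction C h hx)
  exact h4

theorem Fs_mono {i : ℤ} {a b : Option K} (h : Adm D i a b) {x : S}
    (hx : x ∈ DD C i a b) : StrictMono (Fs C i a b x) := by
  intro t t' htt
  rcases le_total t' (i : ℝ) with h1 | h1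
  · rw [Fs_le C h1, Fs_le C (htt.le.trans h1)]
    exact Fa_mono D A a _ htt
  · rcases le_total (i : ℝ) t with h2 | h2
    · rw [Fs_ge C h hx h1, Fs_ge C h hx h2]
      exact Fa_mono D A b _ htt
    · rw [Fs_ge C h hx h1, Fs_le C h2]
      have e := Fs_junction C h hx
      have l1 := (Fa_mono D A a (C.ψ (i - 1) x)).monotone h2
      have l2 := (Fa_mono D A b (C.ψ i x)).monotone h1
      rcases h2.eq_or_lt with h3 | h3
      · subst h3
        rw [e]
        exact Fa_mono D A b (C.ψ i x) htt
      · have l3 := Fa_mono D A a (C.ψ (i - 1) x) h3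
        linarith

/-- deck transformations -/
theorem DD_shift (i k : ℤ) (a b : Option K) (x : S) :
    x ∈ DD C (i + T * k) a b ↔ (phi ^ k) x ∈ DD C i a b := by
  have e1 : i + T * k - 1 = (i - 1) + T * k := by ring
  simp only [DD, mem_ofPred_eq]
  rw [e1, C.per_k, C.per_k]
  rfl

theorem Fs_shift (i k : ℤ) (a b : Option K) (x : S) (t : ℝ) :
    Fs C (i + T * k) a b x (t + T * k) = Fs C i a b ((phi ^ k) x) t + T * k := by
  have e1 : i + T * k - 1 = (i - 1) + T * k := by ring
  have hs : ∀ (c : Option K) (y : S), Fa D A c y (t + T * k) =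
      Fa D A c y t + T * k := fun c y => Fa_shift D A c y t k
  unfold Fs
  have hc : (t + T * k ≤ ((i + T * k : ℤ) : ℝ)) ↔ t ≤ (i : ℝ) := by
    push_cast
    constructor
    · intro h; linarith
    · intro h; linarith
  rw [e1, C.per_k, C.per_k]
  by_cases h : t ≤ (i : ℝ)
  · rw [if_pos (hc.2 h), if_pos h, hs]
    rfl
  · rw [if_neg (fun h' => h (hc.1 h')), if_neg h, hs]
    rfl

end

end Pool.Agent.H.MP_1611f1_gt.G2
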