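import Pool.Agent.H.MP_1611f1_gt.G2.GenB
import Pool.Agent.H.MP_1611f1_gt.Fib

/-!
Slices: compatibility; the collar function and the local functions.
-/

namespace Pool.Agent.H.MP_1611f1_gt.G2

open Topology Set Filter

section

variable {S : Type*} [TopologicalSpace S] {J K : Type*} {E : Surf S J} {len : J → ℕ}
  {w : J → ℤ → Option (K × Bool)} {T : ℕ} {s : J → ℝ} {D : Dat len w T s} {A : Arcs E len w}
  {phi : S ≃ₜ S} (C : Chain D A phi)

/-- comparison of the functions of two types along a homeomorphism of the surface -/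
theorem SlD_rel (a b : Option K) (k : ℤ) {x : S} (ha : C.ψ k x ∈ VV A a)
    (hb : C.ψ k x ∈ VV A b) :
    ∃ G : ℝ → ℝ, StrictMono G ∧ (∀ i : ℤ, inaO D i a → inaO D i b → G i = i) ∧
      ∀ t : ℝ, ∀ᶠ z : S × ℝ in 𝓝 (x, t),
        Fa D A b (C.ψ k z.1) z.2 = G (Fa D A a (C.ψ k z.1) z.2) := by
  obtain ⟨G, hG, hGi, hev⟩ := Fa_rel D A a b ha hb
  refine ⟨G, hG, hGi, fun t => ?_⟩
  have hc : Tendsto (fun z : S × ℝ => C.ψ k z.1) (𝓝 (x, t)) (𝓝 (C.ψ k x)) := by
    have : Continuous (fun z : S × ℝ => C.ψ k z.1) := (C.ψ k).continuous.comp continuous_fst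
    exact this.tendsto (x, t)
  exact (hc.eventually hev).mono fun z hz => hz z.2

theorem SlD_none {i : ℤ} {e : K} (h : act D i e) {a : Option K} (ha : inaO D i a)
    {y : S} (hy : y ∈ VV A (some e)) (hy' : y ∈ VV A a) : a = none := by
  cases a with
  | none => rfl
  | some e' =>
    exfalso
    by_cases hee : e = e'
    · subst hee
      exact h ha
    · rcases kap_disj A hee y with h1 | h1
      · exact hy h1
      · exact hy' h1

theorem SlD_active {i : ℤ} {e : K} (h : act D i e) (x : S) (t : ℝ) :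
    Fs C i (some e) (some e) x t = Fa D A (some e) (C.ψ i x) t := by
  unfold Fs
  have : Fa D A (some e) (C.ψ (i - 1) x) t = Fa D A (some e) (C.ψ i x) t := by
    simp only [Fa]
    rw [C.stepA h x]
  rw [this, ite_self]

/-- an active pair against an inactive pair, at the slice -/
theorem SlD_mixed {i : ℤ} {e : K} (he : act D i e) {a' b' : Option K}
    (ha : inaO D i a') (hb : inaO D i b') {x : S} (hx : x ∈ DD C i (some e) (some e))
    (hx' : x ∈ DD C i a' b') (t : ℝ) :
    OrdEq (x, t) (fun z : S × ℝ => Fs C i (some e) (some e) z.1 z.2)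
      (fun z : S × ℝ => Fs C i a' b' z.1 z.2) := by
  have h1 : a' = none := SlD_none he ha hx.1 hx'.1
  have h2 : b' = none := SlD_none he hb hx.2 hx'.2
  subst h1
  subst h2
  obtain ⟨G, hG, -, hev⟩ := SlD_rel C (some e) none i hx.2 hx'.2
  apply OrdEq.of_comp G hG
  filter_upwards [hev t] with z hz
  have h3 : Fs C i none none z.1 z.2 = Fa D A none (C.ψ i z.1) z.2 := by
    unfold Fs
    have : Fa D A none (C.ψ (i - 1) z.1) z.2 = Fa D A none (C.ψ i z.1) z.2 := rfl
    rw [this, ite_self]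
  rw [h3, SlD_active C he, hz]

/-- **compatibility at one slice, same index** -/
theorem Fs_equiv_same {i : ℤ} {a b a' b' : Option K} (h : Adm D i a b) (h' : Adm D i a' b')
    {x : S} (hx : x ∈ DD C i a b) (hx' : x ∈ DD C i a' b') (t : ℝ) :
    OrdEq (x, t) (fun z : S × ℝ => Fs C i a b z.1 z.2)
      (fun z : S × ℝ => Fs C i a' b' z.1 z.2) := by
  have hsnd : Tendsto (fun z : S × ℝ => z.2) (𝓝 (x, t)) (𝓝 t) :=
    continuous_snd.tendsto (x, t)
  rcases lt_trichotomy t (i : ℝ) with ht | ht | ht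
  · obtain ⟨G, hG, -, hev⟩ := SlD_rel C a a' (i - 1) hx.1 hx'.1
    apply OrdEq.of_comp G hG
    filter_upwards [hev t, hsnd.eventually (Iio_mem_nhds ht)] with z hz hz2
    have hz3 : z.2 ≤ (i : ℝ) := le_of_lt hz2
    rw [Fs_le C hz3, Fs_le C hz3, hz]
  · subst ht
    rcases h with ⟨ha, hb⟩ | ⟨e, he, rfl, rfl⟩
    · rcases h' with ⟨ha', hb'⟩ | ⟨e, he, rfl, rfl⟩
      · obtain ⟨G1, hG1, hG1i, hev1⟩ := SlD_rel C a a' (i - 1) hx.1 hx'.1
        obtain ⟨G2, hG2, hG2i, hev2⟩ := SlD_rel C b b' i hx.2 hx'.2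
        have e1 : G1 i = i := hG1i i ha ha'
        have e2 : G2 i = i := hG2i i hb hb'
        have hG : StrictMono (fun v : ℝ => if v ≤ (i : ℝ) then G1 v else G2 v) := by
          intro v w hvw
          by_cases hw : w ≤ (i : ℝ)
          · have hv : v ≤ (i : ℝ) := hvw.le.trans hw
            simp only [if_pos hw, if_pos hv]
            exact hG1 hvw
          · by_cases hv : v ≤ (i : ℝ)
            · simp only [if_pos hv, if_neg hw]
              calc G1 v ≤ G1 i := hG1.monotone hv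
                _ = G2 i := by rw [e1, e2]
                _ < G2 w := hG2 (not_le.1 hw)
            · simp only [if_neg hv, if_neg hw]
              exact hG2 hvw
        apply OrdEq.of_comp _ hG
        filter_upwards [hev1 (i : ℝ), hev2 (i : ℝ)] with z hz1 hz2
        by_cases hz : z.2 ≤ (i : ℝ)
        · have h1 : Fa D A a (C.ψ (i - 1) z.1) z.2 ≤ (i : ℝ) := by
            have := (Fa_mono D A a (C.ψ (i - 1) z.1)).monotone hz
            rwa [Fa_fix D A ha] at this
          rw [Fs_le C hz, Fs_le C hz, if_pos h1, hz1]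
        · have hz' := not_le.1 hz
          have h1 : (i : ℝ) < Fa D A b (C.ψ i z.1) z.2 := by
            have := Fa_mono D A b (C.ψ i z.1) hz'
            rwa [Fa_fix D A hb] at this
          rw [Fs_gt C hz', Fs_gt C hz', if_neg (not_le.2 h1), hz2]
      · exact (SlD_mixed C he ha hb hx' hx _).symm
    · rcases h' with ⟨ha', hb'⟩ | ⟨e', he', rfl, rfl⟩
      · exact SlD_mixed C he ha' hb' hx hx' _
      · have hee : e = e' := by
          by_contra hne
          rcases kap_disj A hne (C.ψ i x) with h1 | h1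
          · exact hx.2 h1
          · exact hx'.2 h1
        subst hee
        exact OrdEq.refl _ _
  · obtain ⟨G, hG, -, hev⟩ := SlD_rel C b b' i hx.2 hx'.2
    apply OrdEq.of_comp G hG
    filter_upwards [hev t, hsnd.eventually (Ioi_mem_nhds ht)] with z hz hz2
    have hz3 : (i : ℝ) < z.2 := hz2
    rw [Fs_gt C hz3, Fs_gt C hz3, hz]

/-- **compatibility of consecutive slices** -/
theorem Fs_equiv_next {i : ℤ} {a b a' b' : Option K} {x : S} (hx : x ∈ DD C i a b)
    (hx' : x ∈ DD C (i + 1) a' b') {t : ℝ} (ht : (i : ℝ) < t) (ht' : t < i + 1) :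
    OrdEq (x, t) (fun z : S × ℝ => Fs C i a b z.1 z.2)
      (fun z : S × ℝ => Fs C (i + 1) a' b' z.1 z.2) := by
  have hsnd : Tendsto (fun z : S × ℝ => z.2) (𝓝 (x, t)) (𝓝 t) :=
    continuous_snd.tendsto (x, t)
  have hi : i + 1 - 1 = i := by ring
  have hx1 : C.ψ i x ∈ VV A a' := by
    have := hx'.1
    rwa [hi] at this
  obtain ⟨G, hG, -, hev⟩ := SlD_rel C b a' i hx.2 hx1
  apply OrdEq.of_comp G hG
  filter_upwards [hev t, hsnd.eventually (Ioi_mem_nhds ht), hsnd.eventually (Iio_mem_nhds ht')]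
    with z hz hz2 hz3
  have hz4 : (i : ℝ) < z.2 := hz2
  have hz5 : z.2 ≤ ((i + 1 : ℤ) : ℝ) := by
    have h6 : z.2 < (i : ℝ) + 1 := hz3
    push_cast
    exact h6.le
  rw [Fs_gt C hz4, Fs_le C hz5, hi, hz]

/-- **compatibility** -/
theorem Fs_equiv {i i' : ℤ} {a b a' b' : Option K} (h : Adm D i a b)
    (h' : Adm D i' a' b') {x : S} (hx : x ∈ DD C i a b) (hx' : x ∈ DD C i' a' b')
    {t : ℝ} (ht : t ∈ Ioo ((i : ℝ) - 1) (i + 1)) (ht' : t ∈ Ioo ((i' : ℝ) - 1) (i' + 1)) :
    OrdEq (x, t) (fun z : S × ℝ => Fs C i a b z.1 z.2)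
      (fun z : S × ℝ => Fs C i' a' b' z.1 z.2) := by
  have h1 : i < i' + 2 := by
    have : (i : ℝ) < i' + 2 := by linarith [ht.1, ht'.2]
    exact_mod_cast this
  have h2 : i' < i + 2 := by
    have : (i' : ℝ) < i + 2 := by linarith [ht.2, ht'.1]
    exact_mod_cast this
  have h3 : i' = i ∨ i' = i + 1 ∨ i = i' + 1 := by omega
  rcases h3 with h3 | h3 | h3
  · subst h3
    exact Fs_equiv_same C h h' hx hx' t
  · subst h3
    have h4 := ht'.1
    push_cast at h4
    exact Fs_equiv_next C hx hx' (by linarith) ht.2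
  · subst h3
    have h4 := ht.1
    push_cast at h4
    exact (Fs_equiv_next C hx' hx (by linarith) ht'.2).symm

end

section

variable {S : Type*} [TopologicalSpace S] {J K : Type*} {E : Surf S J} {len : J → ℕ}
  {w : J → ℤ → Option (K × Bool)} {T : ℕ} {s : J → ℝ} (D : Dat len w T s) (A : Arcs E len w)

theorem Gen_neg (u : ℝ) : ((-u : ℝ) : AddCircle (1 : ℝ)) = ((1 - u : ℝ) : AddCircle (1 : ℝ)) := by
  have h : ((1 : ℝ) : AddCircle (1 : ℝ)) = 0 := AddCircle.coe_period 1
  rw [sub_eq_add_neg, AddCircle.coe_add, h, zero_add]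

/-- the collapse maps do not depend on the radius -/
theorem kap_radius (hL : ∀ j, 0 < len j) (e : K) (j : J) (θ : AddCircle (1 : ℝ))
    (r r' : Ioo (1 : ℝ) 2) :
    A.kap e (E.collar j (θ, r)) = A.kap e (E.collar j (θ, r')) := by
  obtain ⟨x, rfl⟩ : ∃ x : ℝ, (x : AddCircle (1 : ℝ)) = θ := QuotientAddGroup.mk_surjective θ
  have hLr : (0 : ℝ) < len j := by exact_mod_cast hL j
  have hx : x = ((⌊len j * x⌋ : ℝ) + Int.fract (len j * x)) / len j := by
    rw [Int.floor_add_fract]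
    field_simp
  have hu : Int.fract (len j * x) ∈ Icc (0 : ℝ) 1 :=
    ⟨Int.fract_nonneg _, (Int.fract_lt_one _).le⟩
  obtain ⟨u, hu'⟩ : ∃ u, u = Int.fract (len j * x) := ⟨_, rfl⟩
  obtain ⟨k, hk⟩ : ∃ k, k = ⌊len j * x⌋ := ⟨_, rfl⟩
  rw [← hu', ← hk] at hx
  rw [← hu'] at hu
  rw [hx]
  by_cases h1 : w j k = some (e, true)
  · rw [A.pos j k e u r h1 hu, A.pos j k e u r' h1 hu]
  · by_cases h2 : w j k = some (e, false)
    · rw [A.neg j k e u r h2 hu, A.neg j k e u r' h2 hu]
    · have h3 : ∀ b, w j k ≠ some (e, b) := by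
        intro b
        cases b
        · exact h2
        · exact h1
      rw [A.zero j k e u r h3 hu, A.zero j k e u r' h3 hu]

/-- **the collar function is an increasing function of the local transverse functions** -/
theorem MM_rel (j : J) (a : Option K) (y : ℝ) (r : Ioo (1 : ℝ) 2)
    (hx : E.collar j (((y / len j : ℝ) : AddCircle (1 : ℝ)), r) ∈ VV A a) :
    ∃ G : ℝ → ℝ, StrictMono G ∧ ∀ᶠ z : ℝ × Ioo (1 : ℝ) 2 in 𝓝 (y, r), ∀ t,
      MM D j z.1 t =
        G (Fa D A a (E.collar j (((z.1 / len j : ℝ) : AddCircle (1 : ℝ)), z.2)) t) := by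
  obtain ⟨k, u, hu, rfl⟩ : ∃ (k : ℤ) (u : ℝ), u ∈ Ico (0 : ℝ) 1 ∧ y = k + u :=
    ⟨⌊y⌋, Int.fract y, ⟨Int.fract_nonneg y, Int.fract_lt_one y⟩, (Int.floor_add_fract y).symm⟩
  have hu' : u ∈ Icc (0 : ℝ) 1 := ⟨hu.1, hu.2.le⟩
  have hIoo : ∀ y' ∈ Ioo (k : ℝ) (k + 1), y' - k ∈ Ioo (0 : ℝ) 1 := fun y' hy' =>
    ⟨by linarith [hy'.1], by linarith [hy'.2]⟩
  have hev : 0 < u → ∀ᶠ z : ℝ × Ioo (1 : ℝ) 2 in 𝓝 ((k + u : ℝ), r),
      z.1 ∈ Ioo (k : ℝ) (k + 1) := fun h0 =>
    (continuous_fst.tendsto ((k + u : ℝ), r)).eventually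
      (Ioo_mem_nhds (by linarith) (by linarith [hu.2]))
  have hMM : ∀ y' ∈ Ioo (k : ℝ) (k + 1), ∀ t, MM D j y' t = MU D j k (y' - k) t := by
    intro y' hy' t
    have h1 := MM_eq D j k (u := y' - k) ⟨(hIoo y' hy').1.le, (hIoo y' hy').2.le⟩ t
    rwa [add_sub_cancel] at h1
  have hnear : ∀ k' : ℤ, |((k : ℝ) + u) - k'| < 1 / 4 →
      ∀ᶠ z : ℝ × Ioo (1 : ℝ) 2 in 𝓝 ((k + u : ℝ), r), ∀ t, MM D j z.1 t = D.M j k' t := by
    intro k' h
    have hc : Continuous fun z : ℝ × Ioo (1 : ℝ) 2 => |z.1 - k'| := by fun_prop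
    filter_upwards [(hc.tendsto ((k + u : ℝ), r)).eventually (gt_mem_nhds h)] with z hz t
    exact MM_near D j k' (le_of_lt hz) t
  have hlft : ∀ y' ∈ Ioo (k : ℝ) (k + 1), (k : ℝ) + (y' - k) = y' := fun y' _ => by ring
  rcases a with _ | e
  · -- no strip
    have hx' : ∀ e, ‖A.kap e (E.collar j ((((k + u) / len j : ℝ) : AddCircle (1 : ℝ)), r))‖
      < 1 / 4 := hx
    have hcase : w j k = none ∨ u < 1 / 4 ∨ 3 / 4 < u := by
      rcases letter (w j k) with h | ⟨e, h | h⟩
      · exact Or.inl h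
      · right
        have h1 := hx' e
        rw [A.pos j k e u r h hu', norm_lt_iff, lft_coe hu] at h1
        exact h1
      · right
        have h1 := hx' e
        rw [A.neg j k e u r h hu', AddCircle.coe_neg, norm_neg, norm_lt_iff, lft_coe hu] at h1
        exact h1
    rcases hcase with h | h | h
    · rcases hu.1.eq_or_lt with h0 | h0
      · refine ⟨D.M j k, D.mono j k, ?_⟩
        filter_upwards [hnear k (by rw [← h0]; norm_num)] with z hz t
        exact hz t
      · refine ⟨D.M j k, D.mono j k, ?_⟩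
        filter_upwards [hev h0] with z hz t
        rw [hMM _ hz, MU_none D h]
        rfl
    · refine ⟨D.M j k, D.mono j k, ?_⟩
      filter_upwards [hnear k (by rw [abs_lt]; constructor <;> linarith [hu.1])] with z hz t
      exact hz t
    · refine ⟨D.M j (k + 1), D.mono j (k + 1), ?_⟩
      filter_upwards [hnear (k + 1) (by push_cast; rw [abs_lt]; constructor <;> linarith [hu.2])]
        with z hz t
      exact hz t
  · -- a strip
    have hx' : A.kap e (E.collar j ((((k + u) / len j : ℝ) : AddCircle (1 : ℝ)), r)) ≠ 0 := hx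
    have hcase : ∃ b, w j k = some (e, b) := by
      by_contra hno
      push Not at hno
      exact hx' (A.zero j k e u r hno hu')
    have hu0 : 0 < u := by
      refine lt_of_le_of_ne hu.1 fun h0 => ?_
      subst h0
      obtain ⟨b, h⟩ := hcase
      apply hx'
      cases b
      · rw [A.neg j k e 0 r h hu']
        simp
      · rw [A.pos j k e 0 r h hu']
        simp
    obtain ⟨b, h⟩ := hcase
    cases b
    · refine ⟨fun v => D.M j k (D.iso e v), (D.mono j k).comp (D.iso e).strictMono, ?_⟩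
      filter_upwards [hev hu0] with z hz t
      have h1 := hIoo _ hz
      have h2 := A.neg j k e (z.1 - k) z.2 h ⟨h1.1.le, h1.2.le⟩
      rw [hlft _ hz, Gen_neg] at h2
      rw [hMM _ hz, MU_false D h]
      show _ = D.M j k (D.iso e (Fe (D.iso e) (lft (A.kap e (E.collar j
        (((z.1 / len j : ℝ) : AddCircle (1 : ℝ)), z.2)))) t))
      rw [h2, lft_coe ⟨by linarith [h1.2], by linarith [h1.1]⟩]
    · refine ⟨D.M j k, D.mono j k, ?_⟩
      filter_upwards [hev hu0] with z hz t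
      have h1 := hIoo _ hz
      have h2 := A.pos j k e (z.1 - k) z.2 h ⟨h1.1.le, h1.2.le⟩
      rw [hlft _ hz] at h2
      rw [hMM _ hz, MU_true D h]
      show _ = D.M j k (Fe (D.iso e) (lft (A.kap e (E.collar j
        (((z.1 / len j : ℝ) : AddCircle (1 : ℝ)), z.2)))) t)
      rw [h2, lft_coe ⟨h1.1.le, h1.2⟩]

end

end Pool.Agent.H.MP_1611f1_gt.G2
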