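import Pool.Agent.H.MP_1611f1_gt.Defs

/-!
Mapping tori: the coordinates.
-/

namespace Pool.Agent.H.MP_1611f1_gt.G2

open Topology Set Filter

/-- the mapping torus of `phi` (without its ends) -/
structure MTB {S : Type*} [TopologicalSpace S] {J : Type*} (_E : Surf S J) (phi : S ≃ₜ S)
    (Y : Type*) [TopologicalSpace Y] where
  p : S × ℝ → Y
  p_loc : IsLocalHomeomorph p
  p_eq : ∀ x t x' t', p (x, t) = p (x', t') ↔ ∃ k : ℤ, t' = t + k ∧ x = (phi ^ k) x'
  p_surj : Function.Surjective p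

variable {S : Type*} [TopologicalSpace S] {J : Type*} {E : Surf S J} {len : J → ℕ}
  {phi : S ≃ₜ S} {Y : Type*} [TopologicalSpace Y]

/-- the mapping torus part, with the time rescaled so that the deck transformation is `T` -/
noncomputable def PP (Fl : MTB E phi Y) (T : ℕ) (z : S × ℝ) : Y :=
  Fl.p (z.1, z.2 / T)

/-- the collar part in the coordinates `(y, r, t)` -/
noncomputable def QQ (Fl : MTB E phi Y) (len : J → ℕ) (T : ℕ) (j : J)
    (z : ℝ × Ioo (1 : ℝ) 2 × ℝ) : Y :=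
  PP Fl T (E.collar j (((z.1 / len j : ℝ) : AddCircle (1 : ℝ)), z.2.1), z.2.2)

variable (Fl : MTB E phi Y) {T : ℕ}

/-- the rescaling of time -/
noncomputable def GenD_scale (S : Type*) [TopologicalSpace S] (T : ℕ) (hT : 0 < T) :
    (S × ℝ) ≃ₜ (S × ℝ) :=
  (Homeomorph.refl S).prodCongr
    (Homeomorph.mulRight₀ ((T : ℝ)⁻¹) (inv_ne_zero (by positivity)))

theorem PP_loc (hT : 0 < T) : IsLocalHomeomorph (PP Fl T) := by
  have h : PP Fl T = Fl.p ∘ (GenD_scale S T hT) := by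
    funext z
    obtain ⟨x, t⟩ := z
    simp [PP, GenD_scale, div_eq_mul_inv, Homeomorph.prodCongr]
  rw [h]
  exact Fl.p_loc.comp (GenD_scale S T hT).isLocalHomeomorph

theorem PP_cont (hT : 0 < T) : Continuous (PP Fl T) := (PP_loc Fl hT).continuous

theorem PP_open (hT : 0 < T) : IsOpenMap (PP Fl T) := (PP_loc Fl hT).isOpenMap

theorem PP_eq (hT : 0 < T) (x : S) (t : ℝ) (x' : S) (t' : ℝ) :
    PP Fl T (x, t) = PP Fl T (x', t') ↔ ∃ k : ℤ, t' = t + T * k ∧ x = (phi ^ k) x' := by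
  have hn' : (T : ℝ) ≠ 0 := by positivity
  simp only [PP]
  rw [Fl.p_eq]
  refine exists_congr fun k => and_congr_left fun _ => ?_
  constructor
  · intro h
    field_simp at h
    linarith
  · rintro rfl
    field_simp

theorem PP_inj (hT : 0 < T) (U : Set S) {c d : ℝ} (hcd : d - c ≤ T) :
    InjOn (PP Fl T) (U ×ˢ Ioo c d) := by
  rintro ⟨x, t⟩ ⟨_, ht⟩ ⟨x', t'⟩ ⟨_, ht'⟩ h
  obtain ⟨k, h1, h2⟩ := (PP_eq Fl hT x t x' t').1 h
  simp only [mem_Ioo] at ht ht'
  have hn1 : (0 : ℝ) < T := by exact_mod_cast hT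
  have hk : k = 0 := by
    by_contra hk
    have h3 : (1 : ℝ) ≤ |(k : ℝ)| := by
      rw [← Int.cast_abs]
      exact_mod_cast Int.one_le_abs hk
    have h4 : |t' - t| < T := by
      rw [abs_lt]
      constructor <;> linarith [ht.1, ht.2, ht'.1, ht'.2]
    have h5 : t' - t = T * k := by linarith
    rw [h5, abs_mul, Nat.abs_cast] at h4
    nlinarith
  subst hk
  simp only [Int.cast_zero, mul_zero, add_zero] at h1
  simp only [zpow_zero, Homeomorph.one_apply] at h2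
  rw [h1, h2]

theorem GenD_coe_cont (c : ℝ) : Continuous (fun y : ℝ => ((y / c : ℝ) : AddCircle (1 : ℝ))) :=
  (AddCircle.continuous_mk' (1 : ℝ)).comp (continuous_id.div_const c)

theorem GenD_coe_open (c : ℝ) (hc : c ≠ 0) :
    IsOpenMap (fun y : ℝ => ((y / c : ℝ) : AddCircle (1 : ℝ))) := by
  have h1 : IsOpenMap (fun y : ℝ => y / c) := by
    have h2 := (Homeomorph.mulRight₀ c⁻¹ (inv_ne_zero hc)).isOpenMap
    have h3 : (fun y : ℝ => y / c) = (Homeomorph.mulRight₀ c⁻¹ (inv_ne_zero hc) : ℝ → ℝ) := by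
      funext y
      simp [div_eq_mul_inv]
    rw [h3]
    exact h2
  exact IsOpenMap.comp (f := fun y : ℝ => y / c) QuotientAddGroup.isOpenMap_coe h1

theorem GenD_zpow_fix (hcol : ∀ j z, phi (E.collar j z) = E.collar j z) (k : ℤ) (j : J)
    (z : AddCircle (1 : ℝ) × Ioo (1 : ℝ) 2) : (phi ^ k) (E.collar j z) = E.collar j z := by
  have hinv : (phi⁻¹ : S ≃ₜ S) (E.collar j z) = E.collar j z := by
    have h : phi.symm (E.collar j z) = E.collar j z := by
      rw [Homeomorph.symm_apply_eq]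
      exact (hcol j z).symm
    exact h
  induction k using Int.induction_on with
  | zero => simp
  | succ i ih =>
    rw [zpow_add_one]
    change (phi ^ (i : ℤ)) (phi (E.collar j z)) = _
    rw [hcol, ih]
  | pred i ih =>
    rw [zpow_sub_one]
    change (phi ^ (-(i : ℤ))) ((phi⁻¹ : S ≃ₜ S) (E.collar j z)) = _
    rw [hinv, ih]

theorem QQ_cont (hT : 0 < T) (j : J) : Continuous (QQ Fl len T j) := by
  have h1 : Continuous (fun z : ℝ × Ioo (1 : ℝ) 2 × ℝ =>
      ((((z.1 / len j : ℝ) : AddCircle (1 : ℝ)), z.2.1) :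
        AddCircle (1 : ℝ) × Ioo (1 : ℝ) 2)) :=
    ((GenD_coe_cont (len j)).comp continuous_fst).prodMk (continuous_fst.comp continuous_snd)
  have h2 : Continuous (fun z : ℝ × Ioo (1 : ℝ) 2 × ℝ =>
      (E.collar j (((z.1 / len j : ℝ) : AddCircle (1 : ℝ)), z.2.1), z.2.2)) :=
    ((E.emb j).continuous.comp h1).prodMk (continuous_snd.comp continuous_snd)
  exact (PP_cont Fl hT).comp h2

theorem QQ_open (hT : 0 < T) (j : J) (hL : 0 < len j) : IsOpenMap (QQ Fl len T j) := by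
  have hc : (len j : ℝ) ≠ 0 := by positivity
  have h1 : IsOpenMap (Prod.map (fun y : ℝ => ((y / len j : ℝ) : AddCircle (1 : ℝ)))
      (id : Ioo (1 : ℝ) 2 → Ioo (1 : ℝ) 2)) := (GenD_coe_open _ hc).prodMap IsOpenMap.id
  have h2 := ((E.emb j).isOpenMap.comp h1).prodMap (IsOpenMap.id (X := ℝ))
  have h3 := h2.comp (Homeomorph.prodAssoc ℝ (Ioo (1 : ℝ) 2) ℝ).symm.isOpenMap
  exact (PP_open Fl hT).comp h3

/-- points with the same image in the collar part -/
theorem QQ_eq (hT : 0 < T) (hcol : ∀ j z, phi (E.collar j z) = E.collar j z) (j j' : J)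
    (hL : 0 < len j) (z z' : ℝ × Ioo (1 : ℝ) 2 × ℝ) (h : QQ Fl len T j z = QQ Fl len T j' z') :
    j = j' ∧ z.2.1 = z'.2.1 ∧ ∃ k m : ℤ, z'.1 = z.1 + len j * m ∧ z'.2.2 = z.2.2 + T * k := by
  obtain ⟨k, hk, hx⟩ := (PP_eq Fl hT _ _ _ _).mp h
  rw [GenD_zpow_fix hcol] at hx
  have hj : j = j' := E.disj _ _ _ _ hx
  subst hj
  have hw := (E.emb j).injective hx
  have hr : z.2.1 = z'.2.1 := congrArg Prod.snd hw
  have hy : ((z.1 / len j : ℝ) : AddCircle (1 : ℝ)) =
      ((z'.1 / len j : ℝ) : AddCircle (1 : ℝ)) := congrArg Prod.fst hw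
  rw [QuotientAddGroup.eq, AddSubgroup.mem_zmultiples_iff] at hy
  obtain ⟨m, hm⟩ := hy
  refine ⟨rfl, hr, k, m, ?_, hk⟩
  have hc : (len j : ℝ) ≠ 0 := by positivity
  rw [zsmul_eq_mul, mul_one] at hm
  rw [hm]
  field_simp
  ring

theorem QQ_per (hT : 0 < T) (hcol : ∀ j z, phi (E.collar j z) = E.collar j z) (j : J)
    (hL : 0 < len j) (y : ℝ) (r : Ioo (1 : ℝ) 2) (t : ℝ) (k m : ℤ) :
    QQ Fl len T j (y + len j * m, r, t + T * k) = QQ Fl len T j (y, r, t) := by
  symm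
  refine (PP_eq Fl hT _ _ _ _).mpr ⟨k, rfl, ?_⟩
  rw [GenD_zpow_fix hcol]
  have hc : (len j : ℝ) ≠ 0 := by positivity
  have h1 : ((((y + len j * m) / len j : ℝ)) : AddCircle (1 : ℝ)) =
      ((y / len j : ℝ) : AddCircle (1 : ℝ)) := by
    symm
    rw [QuotientAddGroup.eq, AddSubgroup.mem_zmultiples_iff]
    refine ⟨m, ?_⟩
    rw [zsmul_eq_mul, mul_one]
    field_simp
    ring
  show E.collar j (((y / len j : ℝ) : AddCircle (1 : ℝ)), r) =
    E.collar j ((((y + len j * m) / len j : ℝ) : AddCircle (1 : ℝ)), r)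
  rw [h1]

/-- every point over a collar is in the image of `QQ` -/
theorem exists_QQ (j : J) (hL : 0 < len j) (w : AddCircle (1 : ℝ) × Ioo (1 : ℝ) 2) (t : ℝ) :
    ∃ y : ℝ, PP Fl T (E.collar j w, t) = QQ Fl len T j (y, w.2, t) ∧
      E.collar j w = E.collar j (((y / len j : ℝ) : AddCircle (1 : ℝ)), w.2) := by
  obtain ⟨u, hu⟩ := QuotientAddGroup.mk_surjective w.1
  have hL' : (len j : ℝ) ≠ 0 := by positivity
  have h1 : ((u * len j) / len j : ℝ) = u := by field_simp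
  have h2 : E.collar j w =
      E.collar j ((((u * len j) / len j : ℝ) : AddCircle (1 : ℝ)), w.2) := by
    rw [h1]
    exact congrArg (E.collar j) (Prod.ext hu.symm rfl)
  exact ⟨u * len j, by unfold QQ; rw [← h2], h2⟩

end Pool.Agent.H.MP_1611f1_gt.G2
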