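import Pool.Agent.H.MP_1611f1_gt.Defs

/-!
Arc systems with arbitrary words at the ends.
-/

namespace Pool.Agent.H.MP_1611f1_gt.G2

open Topology Set Filter

/-- A system of disjoint arcs (`e ∈ K`), given by their collapse maps `S → ℝ/ℤ` (the value is `0`
outside a co-oriented strip around the arc, and runs from `0` to `1` when one crosses the strip).
The word `w j` of the end `j` has the length `len j`: going once around the end `j` one meets
`len j` sectors; in the sector `k` one crosses the strip `e` in positive direction if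
`w j k = some (e, true)`, in negative direction if `w j k = some (e, false)`, and no strip if
`w j k = none`. Every point outside the (slightly smaller closed) strips can be joined, outside of
the strips, to an end. -/
structure Arcs {S : Type*} [TopologicalSpace S] {J K : Type*} (E : Surf S J) (len : J → ℕ)
    (w : J → ℤ → Option (K × Bool)) where
  kap : K → C(S, AddCircle (1 : ℝ))
  disj : ∀ e e' x, e ≠ e' → kap e x = 0 ∨ kap e' x = 0
  pos : ∀ (j : J) (k : ℤ) (e : K) (u : ℝ) (r : Ioo (1 : ℝ) 2), w j k = some (e, true) →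
    u ∈ Icc (0 : ℝ) 1 → kap e (E.collar j ((((k + u) / len j : ℝ) : AddCircle (1 : ℝ)), r)) =
      ((u : ℝ) : AddCircle (1 : ℝ))
  neg : ∀ (j : J) (k : ℤ) (e : K) (u : ℝ) (r : Ioo (1 : ℝ) 2), w j k = some (e, false) →
    u ∈ Icc (0 : ℝ) 1 → kap e (E.collar j ((((k + u) / len j : ℝ) : AddCircle (1 : ℝ)), r)) =
      ((-u : ℝ) : AddCircle (1 : ℝ))
  zero : ∀ (j : J) (k : ℤ) (e : K) (u : ℝ) (r : Ioo (1 : ℝ) 2), (∀ b, w j k ≠ some (e, b)) →
    u ∈ Icc (0 : ℝ) 1 → kap e (E.collar j ((((k + u) / len j : ℝ) : AddCircle (1 : ℝ)), r)) = 0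
  reach : ∀ x ∈ {x : S | ∀ e, ‖kap e x‖ < 1 / 4},
    ∃ j z, JoinedIn {x : S | ∀ e, ‖kap e x‖ < 1 / 4} x (E.collar j z)

/-- The one-dimensional data for words `w j` of the lengths `len j` at the ends `j`: isomorphisms
`iso e` of `ℝ` (the holonomy across the strip `e`), commuting with the translation by `T`, and
functions `M j k` (for the end `j`, before the letter `k`), compatible with the letters, such that
`M j (k + len j) = M j k - s j * T`; so the leaves are transverse to the fibres and the
holonomy once around the end `j` is conjugate to the translation by `s j * T`. -/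
structure Dat {J K : Type*} (len : J → ℕ) (w : J → ℤ → Option (K × Bool)) (T : ℕ)
    (s : J → ℝ) where
  iso : K → ℝ ≃o ℝ
  iso_per : ∀ e t, iso e (t + T) = iso e t + T
  M : J → ℤ → ℝ → ℝ
  mono : ∀ j k, StrictMono (M j k)
  cont : ∀ j k, Continuous (M j k)
  M_per : ∀ j k t, M j k (t + T) = M j k t + T
  pos : ∀ j k e, w j k = some (e, true) → ∀ t, M j (k + 1) (iso e t) = M j k t
  neg : ∀ j k e, w j k = some (e, false) → ∀ t, M j (k + 1) ((iso e).symm t) = M j k t
  non : ∀ j k, w j k = none → ∀ t, M j (k + 1) t = M j k t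
  M_len : ∀ j k t, M j (k + len j) t = M j k t - s j * T

/-- A chain of homeomorphisms `ψ i` (the identification of the arc system at the times in
`[i, i+1)`): the step from `ψ (i-1)` to `ψ i` preserves the arcs whose holonomy does not fix
the time `i`. -/
structure Chain {S : Type*} [TopologicalSpace S] {J K : Type*} {E : Surf S J} {len : J → ℕ}
    {w : J → ℤ → Option (K × Bool)} {T : ℕ} {s : J → ℝ} (D : Dat len w T s) (A : Arcs E len w)
    (phi : S ≃ₜ S) where
  ψ : ℤ → (S ≃ₜ S)
  per : ∀ i, ψ (i + T) = ψ i * phi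
  col : ∀ i j z, ψ i (E.collar j z) = E.collar j z
  step : ∀ (i : ℤ) (e : K), D.iso e i = i ∨ ∀ x, A.kap e (ψ i x) = A.kap e (ψ (i - 1) x)

end Pool.Agent.H.MP_1611f1_gt.G2
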