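import Pool.Agent.H.MP_1611f1_gt.G2.GenE

/-!
Mapping tori: compatibility of the charts.
-/

namespace Pool.Agent.H.MP_1611f1_gt.G2

open Topology Set Filter

variable {S : Type*} [TopologicalSpace S] {J K : Type*} {E : Surf S J} {len : J → ℕ}
  {w : J → ℤ → Option (K × Bool)} {T : ℕ} {s : J → ℝ}
  {phi : S ≃ₜ S} {Y : Type*} [TopologicalSpace Y]
  (Fl : MTB E phi Y) {D : Dat len w T s} {A : Arcs E len w} (C : Chain D A phi)

theorem tp {T : ℕ} (h : 2 ≤ T) : 0 < T := by omega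

/-- a chart of type I, pulled back to a point over the outer part -/
theorem typeI_outer [Finite J] [Finite K] (hT : 2 ≤ T) {c : OpenPartialHomeomorph Y ((ℝ × ℝ) × ℝ)}
    (hc : IsI Fl D C c) {x : S} {t : ℝ} (hy : PP Fl T (x, t) ∈ c.source) :
    x ∈ Out E ∧ ∃ (i : ℤ) (a b : Option K), Adm D i a b ∧ x ∈ DD C i a b ∧
      t ∈ Ioo ((i : ℝ) - 1) (i + 1) ∧
      OrdEq (x, t) (fun z => (c (PP Fl T z)).2) (fun z => Fs C i a b z.1 z.2) := by
  obtain ⟨i, a, b, ξ, hA, hsrc, hval⟩ := hc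
  rw [hsrc] at hy
  obtain ⟨⟨x₁, t₁⟩, ⟨⟨⟨hx1, hx2⟩, hx3⟩, ht1⟩, he⟩ := hy
  obtain ⟨k, hk1, hk2⟩ := (PP_eq Fl (tp hT) x₁ t₁ x t).1 he
  have hcast : ((i + T * k : ℤ) : ℝ) = (i : ℝ) + T * k := by push_cast; ring
  refine ⟨?_, i + T * k, a, b, hA.shift k, ?_, ?_, ?_⟩
  · intro j w hw
    refine hx2 j w ?_
    rw [hk2, hw, C.phi_zpow_col]
  · rw [DD_shift, ← hk2]
    exact hx3
  · rw [hcast, hk1]
    obtain ⟨h1, h2⟩ := ht1
    constructor
    · linarith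
    · linarith
  · have hcont : Continuous fun z : S × ℝ => ((phi ^ k) z.1, z.2 - T * k) :=
      ((phi ^ k).continuous.comp continuous_fst).prodMk (continuous_snd.sub continuous_const)
    have hWo : IsOpen ((ξ.source ∩ Out E ∩ DD C i a b) ×ˢ Ioo ((i : ℝ) - 1) (i + 1)) :=
      ((ξ.open_source.inter Out_open).inter (DD_open C i a b)).prod isOpen_Ioo
    have hmem : ∀ᶠ z : S × ℝ in 𝓝 (x, t), ((phi ^ k) z.1, z.2 - T * k) ∈
        (ξ.source ∩ Out E ∩ DD C i a b) ×ˢ Ioo ((i : ℝ) - 1) (i + 1) := by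
      refine hcont.continuousAt.eventually_mem (hWo.mem_nhds ?_)
      have ht : t - T * k = t₁ := by rw [hk1]; ring
      show ((phi ^ k) x, t - T * k) ∈ _
      rw [← hk2, ht]
      exact ⟨⟨⟨hx1, hx2⟩, hx3⟩, ht1⟩
    refine OrdEq.of_comp (fun s => s + T * k) (fun u v huv => by simpa using huv)
      (hmem.mono fun z hz => ?_)
    have hPP : PP Fl T z = PP Fl T ((phi ^ k) z.1, z.2 - T * k) := by
      refine ((PP_eq Fl (tp hT) ((phi ^ k) z.1) (z.2 - T * k) z.1 z.2).2 ⟨k, by ring, rfl⟩).symm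
    have h1 := hval _ hz
    have h2 := Fs_shift C i k a b z.1 (z.2 - T * k)
    rw [sub_add_cancel] at h2
    show Fs C (i + T * k) a b z.1 z.2 = (c (PP Fl T z)).2 + T * k
    rw [hPP, h1, h2]

/-- compatibility of two charts of type I -/
theorem compat_outer [Finite J] [Finite K] (hT : 2 ≤ T) {c c' : OpenPartialHomeomorph Y ((ℝ × ℝ) × ℝ)}
    (hc : IsI Fl D C c) (hc' : IsI Fl D C c') {x : S} {t : ℝ}
    (hy : PP Fl T (x, t) ∈ c.source) (hy' : PP Fl T (x, t) ∈ c'.source) :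
    OrdEq (PP Fl T (x, t)) (fun z => (c z).2) (fun z => (c' z).2) := by
  obtain ⟨-, i, a, b, hA, hx, ht, h1⟩ := typeI_outer Fl C hT hc hy
  obtain ⟨-, i', a', b', hA', hx', ht', h2⟩ := typeI_outer Fl C hT hc' hy'
  exact OrdEq.of_openMap (PP_open Fl (tp hT))
    ((h1.trans (Fs_equiv C hA hA' hx hx' ht ht')).trans h2.symm)

/-- gluing two increasing functions at a common value -/
theorem CmpB_glue {Ga Gb : ℝ → ℝ} (ha : StrictMono Ga) (hb : StrictMono Gb) {m : ℝ}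
    (h : Ga m = Gb m) : StrictMono fun v => if v ≤ m then Ga v else Gb v := by
  intro v w hvw
  by_cases hv : v ≤ m
  · by_cases hw : w ≤ m
    · simp only [if_pos hv, if_pos hw]
      exact ha hvw
    · simp only [if_pos hv, if_neg hw]
      calc Ga v ≤ Ga m := ha.monotone hv
        _ = Gb m := h
        _ < Gb w := hb (not_le.mp hw)
  · have hw : ¬ w ≤ m := fun hw => hv (hvw.le.trans hw)
    simp only [if_neg hv, if_neg hw]
    exact hb hvw

/-- charts of type I over the collars -/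
theorem collar_I [Finite J] [Finite K] (hT : 2 ≤ T) {c : OpenPartialHomeomorph Y ((ℝ × ℝ) × ℝ)}
    (hc : IsI Fl D C c) (j : J) {z : ℝ × Ioo (1 : ℝ) 2 × ℝ}
    (hy : QQ Fl len T j z ∈ c.source) :
    OrdEq z (fun z => (c (QQ Fl len T j z)).2) (fun z => MR D j z.1 z.2.1 z.2.2) := by
  obtain ⟨y, r, t⟩ := z
  -- the map to `S × ℝ`
  let K : ℝ × Ioo (1 : ℝ) 2 × ℝ → S × ℝ := fun z =>
    (E.collar j (((z.1 / len j : ℝ) : AddCircle (1 : ℝ)), z.2.1), z.2.2)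
  have hK : Continuous K := by
    refine Continuous.prodMk ((E.emb j).continuous.comp (Continuous.prodMk ?_ ?_)) ?_
    · exact (AddCircle.continuous_mk' (1 : ℝ)).comp (by fun_prop)
    · fun_prop
    · fun_prop
  obtain ⟨hOut, i, a, b, hadm, hDD, ht, hord⟩ := typeI_outer Fl C hT hc hy
  have h1 : OrdEq (y, r, t) (fun z => (c (QQ Fl len T j z)).2)
      (fun z => Fs C i a b (K z).1 (K z).2) :=
    OrdEq.comp_cont (R := K) (z₀ := (y, r, t)) hK.continuousAt hord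
  refine h1.trans ?_
  have hr : (5 : ℝ) / 3 < r := hOut j _ rfl
  have hr' : ∀ᶠ z : ℝ × Ioo (1 : ℝ) 2 × ℝ in 𝓝 (y, r, t), (5 : ℝ) / 3 < z.2.1 := by
    have h2 : Continuous fun z : ℝ × Ioo (1 : ℝ) 2 × ℝ => (z.2.1 : ℝ) := by fun_prop
    exact h2.continuousAt.eventually_const_lt hr
  have hca : E.collar j (((y / len j : ℝ) : AddCircle (1 : ℝ)), r) ∈ VV A a := by
    have := hDD.1
    rwa [C.col] at this
  have hcb : E.collar j (((y / len j : ℝ) : AddCircle (1 : ℝ)), r) ∈ VV A b := by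
    have := hDD.2
    rwa [C.col] at this
  obtain ⟨Ga, hGa, hGa'⟩ := MM_rel D A j a y r hca
  obtain ⟨Gb, hGb, hGb'⟩ := MM_rel D A j b y r hcb
  have hproj : Tendsto (fun z : ℝ × Ioo (1 : ℝ) 2 × ℝ => (z.1, z.2.1)) (𝓝 (y, r, t))
      (𝓝 (y, r)) := by
    have h2 : Continuous fun z : ℝ × Ioo (1 : ℝ) 2 × ℝ => (z.1, z.2.1) := by fun_prop
    exact h2.continuousAt (x := (y, r, t))
  have hGa2 : ∀ᶠ z : ℝ × Ioo (1 : ℝ) 2 × ℝ in 𝓝 (y, r, t), ∀ t, MM D j z.1 t =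
        Ga (Fa D A a (E.collar j (((z.1 / len j : ℝ) : AddCircle (1 : ℝ)), z.2.1)) t) :=
    hproj.eventually hGa'
  have hGb2 : ∀ᶠ z : ℝ × Ioo (1 : ℝ) 2 × ℝ in 𝓝 (y, r, t), ∀ t, MM D j z.1 t =
        Gb (Fa D A b (E.collar j (((z.1 / len j : ℝ) : AddCircle (1 : ℝ)), z.2.1)) t) :=
    hproj.eventually hGb'
  have hsnd : Continuous fun z : ℝ × Ioo (1 : ℝ) 2 × ℝ => z.2.2 := by fun_prop
  -- the two values of `Fs`
  have hFl : ∀ z : ℝ × Ioo (1 : ℝ) 2 × ℝ, z.2.2 ≤ i → Fs C i a b (K z).1 (K z).2 =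
      Fa D A a (E.collar j (((z.1 / len j : ℝ) : AddCircle (1 : ℝ)), z.2.1)) z.2.2 := by
    intro z hz
    have : Fs C i a b (K z).1 (K z).2 = Fa D A a (C.ψ (i - 1) (K z).1) z.2.2 := if_pos hz
    rw [this, C.col]
  have hFg : ∀ z : ℝ × Ioo (1 : ℝ) 2 × ℝ, ¬ z.2.2 ≤ i → Fs C i a b (K z).1 (K z).2 =
      Fa D A b (E.collar j (((z.1 / len j : ℝ) : AddCircle (1 : ℝ)), z.2.1)) z.2.2 := by
    intro z hz
    have : Fs C i a b (K z).1 (K z).2 = Fa D A b (C.ψ i (K z).1) z.2.2 := if_neg hz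
    rw [this, C.col]
  rcases lt_trichotomy t i with hti | hti | hti
  · apply OrdEq.of_comp Ga hGa
    filter_upwards [hr', hGa2, hsnd.continuousAt.eventually_lt_const (u := (i : ℝ)) hti]
      with z hz1 hz2 hz3
    rw [MR_outer D j _ _ hz1.le, hz2, hFl z hz3.le]
  · rcases hadm with ⟨ha, hb⟩ | ⟨e, he, rfl, rfl⟩
    · have hab : Ga i = Gb i := by
        have h3 := hGa2.self_of_nhds i
        have h4 := hGb2.self_of_nhds i
        rw [Fa_fix D A ha] at h3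
        rw [Fa_fix D A hb] at h4
        exact h3.symm.trans h4
      apply OrdEq.of_comp _ (CmpB_glue hGa hGb hab)
      filter_upwards [hr', hGa2, hGb2] with z hz1 hz2 hz3
      rw [MR_outer D j _ _ hz1.le]
      by_cases hz : z.2.2 ≤ i
      · rw [hFl z hz]
        have h5 : Fa D A a (E.collar j (((z.1 / len j : ℝ) : AddCircle (1 : ℝ)), z.2.1))
            z.2.2 ≤ i := by
          have h6 := (Fa_mono D A a (E.collar j (((z.1 / len j : ℝ) : AddCircle (1 : ℝ)),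
            z.2.1))).monotone hz
          rwa [Fa_fix D A ha] at h6
        simp only [if_pos h5]
        exact hz2 _
      · rw [hFg z hz]
        have h5 : ¬ Fa D A b (E.collar j (((z.1 / len j : ℝ) : AddCircle (1 : ℝ)), z.2.1))
            z.2.2 ≤ i := by
          have h6 := (Fa_mono D A b (E.collar j (((z.1 / len j : ℝ) : AddCircle (1 : ℝ)),
            z.2.1))) (not_le.mp hz)
          rw [Fa_fix D A hb] at h6
          exact not_le.mpr h6
        simp only [if_neg h5]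
        exact hz3 _
    · apply OrdEq.of_comp Ga hGa
      filter_upwards [hr', hGa2] with z hz1 hz2
      rw [MR_outer D j _ _ hz1.le, hz2]
      by_cases hz : z.2.2 ≤ i
      · rw [hFl z hz]
      · rw [hFg z hz]
  · apply OrdEq.of_comp Gb hGb
    filter_upwards [hr', hGb2, hsnd.continuousAt.eventually_const_lt (u := (i : ℝ)) hti]
      with z hz1 hz2 hz3
    rw [MR_outer D j _ _ hz1.le, hz2, hFg z (not_le.mpr hz3)]

/-- charts of type II over the collars -/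
theorem collar_II (hT : 2 ≤ T) (hL : ∀ j, 0 < len j)
    (hw : ∀ j k, w j (k + len j) = w j k)
    (hcol : ∀ j z, phi (E.collar j z) = E.collar j z)
    {c : OpenPartialHomeomorph Y ((ℝ × ℝ) × ℝ)}
    (hc : IsII Fl D c) (j : J) {z : ℝ × Ioo (1 : ℝ) 2 × ℝ}
    (hy : QQ Fl len T j z ∈ c.source) :
    OrdEq z (fun z => (c (QQ Fl len T j z)).2) (fun z => MR D j z.1 z.2.1 z.2.2) := by
  obtain ⟨j', y₀, t₀, hs, hv⟩ := hc
  rw [hs] at hy
  obtain ⟨z', hz', heq⟩ := hy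
  obtain ⟨hj, hr, k, m, h1, h2⟩ := QQ_eq Fl (tp hT) hcol j j' (hL j) z z' heq.symm
  subst hj
  set R : ℝ × Ioo (1 : ℝ) 2 × ℝ → ℝ × Ioo (1 : ℝ) 2 × ℝ :=
    fun w => (w.1 + len j * m, w.2.1, w.2.2 + T * k) with hR
  have hScont : Continuous R := by
    rw [hR]
    fun_prop
  have hSz : R z = z' := by
    rw [hR]
    ext
    · exact h1.symm
    · exact congrArg Subtype.val hr
    · exact h2.symm
  have hopen : IsOpen (Ioo y₀ (y₀ + 1) ×ˢ ((univ : Set (Ioo (1 : ℝ) 2)) ×ˢ Ioo t₀ (t₀ + 1))) :=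
    isOpen_Ioo.prod (isOpen_univ.prod isOpen_Ioo)
  have hev : ∀ᶠ w in 𝓝 z,
      R w ∈ Ioo y₀ (y₀ + 1) ×ˢ ((univ : Set (Ioo (1 : ℝ) 2)) ×ˢ Ioo t₀ (t₀ + 1)) := by
    apply hScont.continuousAt.eventually
    rw [hSz]
    exact hopen.mem_nhds hz'
  refine OrdEq.of_comp (fun v => v + (s j * T * m - T * k)) ?_ ?_
  · intro a b hab
    show a + _ < b + _
    linarith
  · filter_upwards [hev] with w hRw
    have e1 : QQ Fl len T j (R w) = QQ Fl len T j w :=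
      QQ_per Fl (tp hT) hcol j (hL j) w.1 w.2.1 w.2.2 k m
    have e2 := hv (R w) hRw
    rw [e1] at e2
    have e3 : MR D j (R w).1 (R w).2.1 (R w).2.2 =
        MR D j w.1 w.2.1 w.2.2 - s j * T * m + T * k := by
      show MR D j (w.1 + len j * m) w.2.1 (w.2.2 + T * k) = _
      rw [MR_y D hw j (hL j), MR_t]
      ring
    show MR D j w.1 w.2.1 w.2.2 =
      (c (QQ Fl len T j w)).2 + (s j * T * m - T * k)
    rw [e2, e3]
    ring

/-- all charts -/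
def AllCharts : Set (OpenPartialHomeomorph Y ((ℝ × ℝ) × ℝ)) :=
  {c | IsI Fl D C c ∨ IsII Fl D c}

theorem CmpF_QQ (hT : 2 ≤ T) (hL : ∀ j, 0 < len j) (j : J) (z : ℝ × Ioo (1 : ℝ) 2 × ℝ) :
    ∃ c ∈ AllCharts Fl C, QQ Fl len T j z ∈ c.source := by
  obtain ⟨c, h1, h2, -⟩ := exII Fl D (tp hT) hL C.phi_col j
    (z.1 - 1 / 2) (z.2.2 - 1 / 2)
  refine ⟨c, Or.inr h1, ?_⟩
  rw [h2]
  refine ⟨z, ⟨⟨by linarith, by linarith⟩, mem_univ _, ⟨by linarith, by linarith⟩⟩, rfl⟩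

theorem CmpF_PP [Finite J] [Finite K] (hT : 2 ≤ T) (hL : ∀ j, 0 < len j) (x : S) (t : ℝ) :
    ∃ c ∈ AllCharts Fl C, PP Fl T (x, t) ∈ c.source := by
  by_cases hx : x ∈ Out E
  · obtain ⟨ξ, hξ⟩ := E.flat x
    obtain ⟨a, b, hab, hD⟩ := DD_cover C ⌊t⌋ x
    obtain ⟨c, h1, h2, -⟩ := exI Fl D C hT ⌊t⌋ a b hab ξ
    refine ⟨c, Or.inl h1, ?_⟩
    rw [h2]
    have h3 := Int.floor_le t
    have h4 := Int.lt_floor_add_one t
    exact ⟨(x, t), ⟨⟨⟨hξ, hx⟩, hD⟩, ⟨by linarith, by linarith⟩⟩, rfl⟩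
  · have hx' : ∃ j w, x = E.collar j w := by
      by_contra hcon
      push Not at hcon
      exact hx fun j w hw => absurd hw (hcon j w)
    obtain ⟨j, w, rfl⟩ := hx'
    obtain ⟨y, hy, -⟩ := exists_QQ Fl (len := len) (T := T) j (hL j) w t
    rw [hy]
    exact CmpF_QQ Fl C hT hL j _

theorem charts_cover [Finite J] [Finite K] (hT : 2 ≤ T) (hL : ∀ j, 0 < len j) (y : Y) :
    ∃ c ∈ AllCharts Fl C, y ∈ c.source := by
  obtain ⟨⟨x, t⟩, rfl⟩ := Fl.p_surj y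
  have hT' : (T : ℝ) ≠ 0 := by exact_mod_cast (tp hT).ne'
  have h1 : Fl.p (x, t) = PP Fl T (x, T * t) := by
    rw [PP]
    congr 2
    field_simp
  rw [h1]
  exact CmpF_PP Fl C hT hL x _

theorem dichotomy (hT : 2 ≤ T) (hL : ∀ j, 0 < len j) (y : Y) :
    (∃ (x : S) (t : ℝ), y = PP Fl T (x, t) ∧ ∀ j w, x ≠ E.collar j w) ∨
      ∃ (j : J) (z : ℝ × Ioo (1 : ℝ) 2 × ℝ), y = QQ Fl len T j z := by
  obtain ⟨⟨x, t⟩, rfl⟩ := Fl.p_surj y
  have hT' : (T : ℝ) ≠ 0 := by exact_mod_cast (tp hT).ne'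
  have h1 : Fl.p (x, t) = PP Fl T (x, T * t) := by
    rw [PP]
    congr 2
    field_simp
  by_cases hx : ∃ j w, x = E.collar j w
  · obtain ⟨j, w, rfl⟩ := hx
    obtain ⟨v, hv, -⟩ := exists_QQ Fl (len := len) (T := T) j (hL j) w (T * t)
    exact Or.inr ⟨j, _, h1.trans hv⟩
  · push Not at hx
    exact Or.inl ⟨x, _, h1, hx⟩

theorem CmpH_srcII {c : OpenPartialHomeomorph Y ((ℝ × ℝ) × ℝ)}
    (hc : IsII Fl D c) {y : Y}
    (hy : y ∈ c.source) : ∃ j w t, y = PP Fl T (E.collar j w, t) := by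
  obtain ⟨j, y₀, t₀, hs, -⟩ := hc
  rw [hs] at hy
  obtain ⟨z, -, hz⟩ := hy
  exact ⟨j, _, z.2.2, hz.symm⟩

include C in
/-- over the points outside the collars there are only charts of type I -/
theorem CmpH_onlyI (hT : 2 ≤ T) {c : OpenPartialHomeomorph Y ((ℝ × ℝ) × ℝ)}
    (hc : c ∈ AllCharts Fl C) {x : S} {t : ℝ} (hx : ∀ j w, x ≠ E.collar j w)
    (hy : PP Fl T (x, t) ∈ c.source) : IsI Fl D C c := by
  rcases hc with hc | hc
  · exact hc
  · obtain ⟨j, w, t', h⟩ := CmpH_srcII Fl (D := D) hc hy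
    obtain ⟨k, -, hk⟩ := (PP_eq Fl (tp hT) _ _ _ _).1 h
    rw [C.phi_zpow_col] at hk
    exact absurd hk (hx _ _)

/-- all charts over the collars -/
theorem collar_all [Finite J] [Finite K] (hT : 2 ≤ T) (hL : ∀ j, 0 < len j)
    (hw : ∀ j k, w j (k + len j) = w j k)
    {c : OpenPartialHomeomorph Y ((ℝ × ℝ) × ℝ)} (hc : c ∈ AllCharts Fl C) (j : J)
    {z : ℝ × Ioo (1 : ℝ) 2 × ℝ} (hy : QQ Fl len T j z ∈ c.source) :
    OrdEq z (fun z => (c (QQ Fl len T j z)).2) (fun z => MR D j z.1 z.2.1 z.2.2) := by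
  rcases hc with hc | hc
  · exact collar_I Fl C hT hc j hy
  · exact collar_II Fl hT hL hw C.phi_col hc j hy

theorem charts_compat [Finite J] [Finite K] (hT : 2 ≤ T) (hL : ∀ j, 0 < len j)
    (hw : ∀ j k, w j (k + len j) = w j k) (c)
    (hc : c ∈ AllCharts Fl C) (c') (hc' : c' ∈ AllCharts Fl C) (y : Y)
    (hy : y ∈ c.source) (hy' : y ∈ c'.source) :
    OrdEq y (fun z => (c z).2) (fun z => (c' z).2) := by
  rcases dichotomy Fl (T := T) hT hL y with ⟨x, t, rfl, hx⟩ | ⟨j, z, rfl⟩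
  · exact compat_outer Fl C hT (CmpH_onlyI Fl C hT hc hx hy)
      (CmpH_onlyI Fl C hT hc' hx hy') hy hy'
  · exact OrdEq.of_openMap (QQ_open Fl (tp hT) j (hL j))
      ((collar_all Fl C hT hL hw hc j hy).trans (collar_all Fl C hT hL hw hc' j hy').symm)

/-- the foliation -/
theorem exists_foliation [Finite J] [Finite K] (hT : 2 ≤ T) (hL : ∀ j, 0 < len j)
    (hw : ∀ j k, w j (k + len j) = w j k) :
    ∃ F : Foliation Y, F.charts = AllCharts Fl C :=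
  ⟨{ charts := AllCharts Fl C
     cover := charts_cover Fl C hT hL
     compat := fun c hc c' hc' y hy hy' =>
      charts_compat Fl C hT hL hw c hc c' hc' y hy hy' }, rfl⟩

end Pool.Agent.H.MP_1611f1_gt.G2
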