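import Pool.Agent.H.MP_1611f1_gt.G2.GenMain
import Pool.Agent.H.MP_1611f1_gt.G2.FillDetB

/-!
The general module: Dehn fillings with matrices of determinant `1`.
-/

namespace Pool.Agent.H.MP_1611f1_gt.G2

open Topology Set Filter

/-- **General theorem, Dehn fillings** (determinant `1`). The filling slope at the end `j` is
`- ga j / de j = s j` (the meridian disc is `ga θ + de t = const`). -/
theorem gen_fill_det {S : Type*} [TopologicalSpace S] [ConnectedSpace S] {J K : Type*}
    [Finite J] [Nonempty J] [Finite K] {E : Surf S J} {len : J → ℕ}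
    {w : J → ℤ → Option (K × Bool)} {T : ℕ} {s : J → ℝ}
    (hT : 2 ≤ T) (hL : ∀ j, 0 < len j) (hw : ∀ j k, w j (k + len j) = w j k)
    (A : Arcs E len w) (iso : K → ℝ ≃o ℝ) (hiso : ∀ e t, iso e (t + T) = iso e t + T)
    (th : J → ℝ → ℝ) (hmono : ∀ j, StrictMono (th j))
    (hcont : ∀ j, Continuous (th j)) (hth : ∀ j t, th j (t + T) = th j t + T)
    (hs : ∀ j t, th j (prodDown (fun i => lett iso (w j i)) (-1) (len j) t) =
      th j t + s j * T)
    (x : ℤ → (S ≃ₜ S)) (hx : ∀ i, x (i + T) = x i)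
    (hcol : ∀ i j z, x i (E.collar j z) = E.collar j z)
    (hstep : ∀ (i : ℤ) (e : K), iso e i = i ∨ ∀ y, A.kap e (x i y) = A.kap e y) (a : ℤ)
    {al be ga de : J → ℤ} {Y : Type*} [TopologicalSpace Y]
    (Fi : Filling E (prodDown x a T) al be ga de Y)
    (hd : ∀ j, al j * de j - be j * ga j = 1) (hde : ∀ j, de j ≠ 0)
    (hga : ∀ j, (ga j : ℝ) = -s j * de j) : ∃ F : Foliation Y, F.Taut := by
  obtain ⟨D, hD⟩ := exists_dat iso hiso hw th hmono hcont hth hs
  obtain ⟨C⟩ := exists_chain D A x hx hcol (fun i e => by rw [hD]; exact hstep i e) a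
  refine fill_taut_det C.phi_col hd Fi (fun j => -s j) (fun _ => 1) (fun Tor Mt => ?_) fun j => ?_
  · exact detected hT hL hw C Mt 1 (Or.inl rfl) _ _ (fun j => by norm_num) fun j => by ring
  · have h1 : (de j : ℝ) ≠ 0 := by exact_mod_cast hde j
    refine ⟨1 / de j, by positivity, ?_, by field_simp⟩
    rw [hga]
    field_simp

end Pool.Agent.H.MP_1611f1_gt.G2
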