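import Pool.Agent.H.MP_1611f1_gt.G2.GenF
import Pool.Agent.H.MP_1611f1_gt.TauA
import Pool.Agent.H.MP_1611f1_gt.TauC

/-!
Mapping tori: leaf paths and tautness.
-/

namespace Pool.Agent.H.MP_1611f1_gt.G2

open Topology Set Filter

variable {S : Type*} [TopologicalSpace S] {J K : Type*} {E : Surf S J} {len : J → ℕ}
  {w : J → ℤ → Option (K × Bool)} {T : ℕ} {s : J → ℝ}
  {phi : S ≃ₜ S} {Y : Type*} [TopologicalSpace Y]
  (Fl : MTB E phi Y) {D : Dat len w T s} {A : Arcs E len w} (C : Chain D A phi)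
  (F : Foliation Y)

/-- horizontal leaf paths -/
theorem leaf_horizontal [Finite J] [Finite K] (hT : 2 ≤ T) (hF : F.charts = AllCharts Fl C) (i : ℤ)
    {t : ℝ} (ht : t ∈ Ico (i : ℝ) (i + 1)) (γ : unitInterval → S) (hγ : Continuous γ)
    (hγ' : ∀ s, γ s ∈ Out E ∧ C.ψ i (γ s) ∈ VV A none) :
    F.SameLeaf (PP Fl T (γ 0, t)) (PP Fl T (γ 1, t)) := by
  refine F.sameLeaf_of (fun s => PP Fl T (γ s, t))
    ((PP_cont Fl (tp hT)).comp (hγ.prodMk continuous_const)) fun s => ?_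
  obtain ⟨hout, hV⟩ := hγ' s
  obtain ⟨a, ha, hD⟩ := DD_cover_none C i (γ s) hV
  have hadm : Adm D i a none := Or.inl ⟨ha, trivial⟩
  obtain ⟨ξ, hξ⟩ := E.flat (γ s)
  obtain ⟨c, hc, hsrc, hval⟩ := exI Fl D C hT i a none hadm ξ
  have htI : t ∈ Ioo ((i : ℝ) - 1) (i + 1) := ⟨by linarith [ht.1], ht.2⟩
  have hU : IsOpen (ξ.source ∩ Out E ∩ DD C i a none) :=
    (ξ.open_source.inter Out_open).inter (DD_open C i a none)
  have hmem : γ s ∈ ξ.source ∩ Out E ∩ DD C i a none := ⟨⟨hξ, hout⟩, hD⟩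
  have hev : ∀ᶠ s' in 𝓝 s, γ s' ∈ ξ.source ∩ Out E ∩ DD C i a none :=
    hγ.continuousAt (hU.mem_nhds hmem)
  have key : ∀ x ∈ ξ.source ∩ Out E ∩ DD C i a none, (c (PP Fl T (x, t))).2 = t := by
    intro x hx
    rw [hval (x, t) ⟨hx, htI⟩]
    exact Fs_ge C hadm hx.2 ht.1
  refine ⟨c, ?_, ?_, ?_⟩
  · rw [hF]
    exact Or.inl hc
  · rw [hsrc]
    exact ⟨(γ s, t), ⟨hmem, htI⟩, rfl⟩
  · filter_upwards [hev] with s' hs'
    exact (key _ hs').trans (key _ hmem).symm

/-- the levels of the blending -/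
theorem LfE_solve (B : ℝ ≃o ℝ) {X : Type*} [TopologicalSpace X] {k : X → ℝ}
    (hk : Continuous k) (c : ℝ) :
    ∃ τ : X → ℝ, Continuous τ ∧ ∀ x, Fe B (k x) (τ x) = c := by
  have hsurj : ∀ u, ∃ t, Fe B u t = c := by
    intro u
    have h0 := chi_nonneg u
    have h1 := chi_le_one u
    have h2 : Fe B u (min c (B c)) ≤ c := by
      have h3 : B.symm (min c (B c)) ≤ c := by
        have h4 := B.symm.monotone (min_le_right c (B c))
        rwa [OrderIso.symm_apply_apply] at h4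
      have h4 := min_le_left c (B c)
      unfold Fe
      nlinarith
    have h3 : c ≤ Fe B u (max c (B c)) := by
      have h3 : c ≤ B.symm (max c (B c)) := by
        have h4 := B.symm.monotone (le_max_right c (B c))
        rwa [OrderIso.symm_apply_apply] at h4
      have h4 := le_max_left c (B c)
      unfold Fe
      nlinarith
    have hle : min c (B c) ≤ max c (B c) := min_le_max
    have hcont : Continuous fun t => Fe B u t :=
      (Fe_cont B).comp (continuous_const.prodMk continuous_id)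
    obtain ⟨t, -, ht⟩ := intermediate_value_Icc hle hcont.continuousOn ⟨h2, h3⟩
    exact ⟨t, ht⟩
  choose τ hτ using fun x => hsurj (k x)
  refine ⟨τ, ?_, hτ⟩
  have hlev : ∀ a, Continuous fun x => Fe B (k x) a := fun a =>
    (Fe_cont B).comp (hk.prodMk continuous_const)
  rw [continuous_iff_continuousAt]
  intro x
  refine tendsto_order.2 ⟨fun a ha => ?_, fun a ha => ?_⟩
  · have h1 : Fe B (k x) a < c := by
      rw [← hτ x]
      exact Fe_mono B _ ha
    have h2 : ∀ᶠ y in 𝓝 x, Fe B (k y) a < c :=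
      (hlev a).continuousAt.eventually (gt_mem_nhds h1)
    filter_upwards [h2] with y hy
    rw [← hτ y] at hy
    exact (Fe_mono B (k y)).lt_iff_lt.1 hy
  · have h1 : c < Fe B (k x) a := by
      rw [← hτ x]
      exact Fe_mono B _ ha
    have h2 : ∀ᶠ y in 𝓝 x, c < Fe B (k y) a :=
      (hlev a).continuousAt.eventually (lt_mem_nhds h1)
    filter_upwards [h2] with y hy
    rw [← hτ y] at hy
    exact (Fe_mono B (k y)).lt_iff_lt.1 hy

/-- the strip does not move between two times if it is active in between -/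
theorem Lf_const (e : K) (i : ℤ) (n : ℕ)
    (h : ∀ m : ℤ, i < m → m ≤ i + n → act D m e) (x : S) :
    A.kap e (C.ψ (i + n) x) = A.kap e (C.ψ i x) := by
  induction n with
  | zero => simp
  | succ n ih =>
    have h1 := C.stepA (h (i + (n + 1 : ℕ)) (by push_cast; omega) le_rfl) x
    have h2 : i + ((n + 1 : ℕ) : ℤ) - 1 = i + n := by push_cast; ring
    rw [h1, h2]
    exact ih fun m hm hm' => h m hm (by push_cast; omega)

/-- leaf paths in the strips -/
theorem leaf_strip [Finite J] [Finite K] (hT : 2 ≤ T) (hF : F.charts = AllCharts Fl C) (i : ℤ)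
    {t : ℝ} (ht : t ∈ Ico (i : ℝ) (i + 1)) (e : K) (γ : unitInterval → S)
    (hγ : Continuous γ) (hγ' : ∀ s, γ s ∈ Out E ∧ A.kap e (C.ψ i (γ s)) ≠ 0) :
    ∃ (i' : ℤ) (t' : ℝ), t' ∈ Ico (i' : ℝ) (i' + 1) ∧
      (∀ x, A.kap e (C.ψ i' x) = A.kap e (C.ψ i x)) ∧
      F.SameLeaf (PP Fl T (γ 0, t)) (PP Fl T (γ 1, t')) := by
  have hk : Continuous fun s => lft (A.kap e (C.ψ i (γ s))) := by
    rw [continuous_iff_continuousAt]
    intro s
    exact ContinuousAt.comp (g := lft) (f := fun s => A.kap e (C.ψ i (γ s)))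
      (lft_contAt (hγ' s).2)
      (((kap_cont A e).comp ((C.ψ i).continuous.comp hγ)).continuousAt)
  obtain ⟨τ, hτc, hτ⟩ := LfE_solve (D.iso e) hk (Fe (D.iso e) (lft (A.kap e (C.ψ i (γ 0)))) t)
  set c : ℝ := Fe (D.iso e) (lft (A.kap e (C.ψ i (γ 0)))) t with hc
  have hτ0 : τ 0 = t := (Fe_mono _ _).injective (hτ 0)
  have hfix : ∀ m : ℤ, ina D m e → ∀ u, Fe (D.iso e) u (m : ℝ) = m := fun m hm u => Fe_fix _ hm u
  -- the inactive levels confine the path
  have hlow : ∀ m : ℤ, ina D m e → ∀ s s', (m : ℝ) ≤ τ s → (m : ℝ) ≤ τ s' := by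
    intro m hm s s' h
    have h1 : (m : ℝ) ≤ c := by
      rw [← hτ s, ← hfix m hm (lft (A.kap e (C.ψ i (γ s))))]
      exact (Fe_mono _ _).monotone h
    refine (Fe_mono (D.iso e) (lft (A.kap e (C.ψ i (γ s'))))).le_iff_le.1 ?_
    rw [hτ s', hfix m hm]
    exact h1
  have hconst : ∀ s, ∀ x, A.kap e (C.ψ ⌊τ s⌋ x) = A.kap e (C.ψ i x) := by
    intro s x
    rcases le_total i ⌊τ s⌋ with h | h
    · obtain ⟨n, hn⟩ := Int.le.dest h
      rw [← hn]
      refine Lf_const C e i n (fun m hm hm' => ?_) x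
      intro hina
      have h1 : (m : ℝ) ≤ τ s := by
        have h2 : m ≤ ⌊τ s⌋ := by omega
        exact Int.le_floor.1 h2
      have h3 := hlow m hina s 0 h1
      rw [hτ0] at h3
      have h4 : ((i + 1 : ℤ) : ℝ) ≤ m := by exact_mod_cast hm
      push_cast at h4
      linarith [ht.2]
    · obtain ⟨n, hn⟩ := Int.le.dest h
      rw [← hn]
      refine (Lf_const C e ⌊τ s⌋ n (fun m hm hm' => ?_) x).symm
      intro hina
      have h1 : (m : ℝ) ≤ τ 0 := by
        rw [hτ0]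
        have h2 : m ≤ i := by omega
        have h3 : (m : ℝ) ≤ i := by exact_mod_cast h2
        linarith [ht.1]
      have h3 := hlow m hina 0 s h1
      have h4 : m ≤ ⌊τ s⌋ := Int.le_floor.2 h3
      omega
  have hg : Continuous fun s => PP Fl T (γ s, τ s) := (PP_cont Fl (tp hT)).comp (hγ.prodMk hτc)
  have hleaf : F.SameLeaf (PP Fl T (γ 0, τ 0)) (PP Fl T (γ 1, τ 1)) := by
    refine F.sameLeaf_of (fun s => PP Fl T (γ s, τ s)) hg fun s => ?_
    obtain ⟨hout, hV⟩ := hγ' s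
    obtain ⟨ξ, hξ⟩ := E.flat (γ s)
    obtain ⟨k, hk'⟩ : ∃ k, k = ⌊τ s⌋ := ⟨_, rfl⟩
    have hks : ∀ x, A.kap e (C.ψ k x) = A.kap e (C.ψ i x) := by
      rw [hk']
      exact hconst s
    have hVk : A.kap e (C.ψ k (γ s)) ≠ 0 := by
      rw [hks]
      exact hV
    have hk0 : (k : ℝ) ≤ τ s := by
      rw [hk']
      exact Int.floor_le _
    have hk1 : τ s < (k : ℝ) + 1 := by
      rw [hk']
      exact Int.lt_floor_add_one _
    obtain ⟨a, hadm, hD, hval0⟩ : ∃ a, Adm D k a (some e) ∧ γ s ∈ DD C k a (some e) ∧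
        ∀ s', γ s' ∈ DD C k a (some e) → Fs C k a (some e) (γ s') (τ s') = c := by
      rcases ina_or_act D k e with h | h
      · obtain ⟨a, ha, hD⟩ := DD_cover_some C h hVk
        have hadm : Adm D k a (some e) := Or.inl ⟨ha, h⟩
        refine ⟨a, hadm, hD, fun s' hs' => ?_⟩
        rw [Fs_ge C hadm hs' (hlow k h s s' hk0)]
        show Fe (D.iso e) (lft (A.kap e (C.ψ k (γ s')))) (τ s') = c
        rw [hks]
        exact hτ s'
      · refine ⟨some e, Or.inr ⟨e, h, rfl, rfl⟩, ⟨?_, hVk⟩, fun s' _ => ?_⟩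
        · show A.kap e (C.ψ (k - 1) (γ s)) ≠ 0
          rw [← C.stepA h]
          exact hVk
        · rw [SlD_active C h]
          show Fe (D.iso e) (lft (A.kap e (C.ψ k (γ s')))) (τ s') = c
          rw [hks]
          exact hτ s'
    obtain ⟨c', hc', hsrc, hval⟩ := exI Fl D C hT k a (some e) hadm ξ
    have hU : IsOpen (ξ.source ∩ Out E ∩ DD C k a (some e)) :=
      (ξ.open_source.inter Out_open).inter (DD_open C k a (some e))
    have hmem : γ s ∈ ξ.source ∩ Out E ∩ DD C k a (some e) := ⟨⟨hξ, hout⟩, hD⟩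
    have hev : ∀ᶠ s' in 𝓝 s, γ s' ∈ ξ.source ∩ Out E ∩ DD C k a (some e) :=
      hγ.continuousAt (hU.mem_nhds hmem)
    have hI : τ s ∈ Ioo ((k : ℝ) - 1) (k + 1) := ⟨by linarith, hk1⟩
    have hev2 : ∀ᶠ s' in 𝓝 s, τ s' ∈ Ioo ((k : ℝ) - 1) (k + 1) :=
      hτc.continuousAt (isOpen_Ioo.mem_nhds hI)
    have key : ∀ s', γ s' ∈ ξ.source ∩ Out E ∩ DD C k a (some e) →
        τ s' ∈ Ioo ((k : ℝ) - 1) (k + 1) → (c' (PP Fl T (γ s', τ s'))).2 = c := by
      intro s' hs' hs''
      rw [hval (γ s', τ s') ⟨hs', hs''⟩]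
      exact hval0 s' hs'.2
    refine ⟨c', ?_, ?_, ?_⟩
    · rw [hF]
      exact Or.inl hc'
    · rw [hsrc]
      exact ⟨(γ s, τ s), ⟨hmem, hI⟩, rfl⟩
    · filter_upwards [hev, hev2] with s' hs' hs''
      exact (key _ hs' hs'').trans (key _ hmem hI).symm
  rw [hτ0] at hleaf
  exact ⟨⌊τ 1⌋, τ 1, ⟨Int.floor_le _, Int.lt_floor_add_one _⟩, hconst 1, hleaf⟩

/-- the collapse maps vanish at the ends of the letters -/
theorem kap_zero (A : Arcs E len w) (e : K) (j : J) (k : ℤ) (r : Ioo (1 : ℝ) 2) :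
    A.kap e (E.collar j ((((k + (0 : ℝ)) / len j : ℝ) : AddCircle (1 : ℝ)), r)) = 0 := by
  have hu : (0 : ℝ) ∈ Icc (0 : ℝ) 1 := ⟨le_rfl, zero_le_one⟩
  by_cases h1 : w j k = some (e, true)
  · rw [A.pos j k e 0 r h1 hu]
    simp
  · by_cases h2 : w j k = some (e, false)
    · rw [A.neg j k e 0 r h2 hu]
      simp
    · refine A.zero j k e 0 r (fun b => ?_) hu
      cases b
      · exact h2
      · exact h1

/-- a strip is not everything: every point of a strip can be joined inside the strip to a point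
near its side -/
theorem strip_path [ConnectedSpace S] [Nonempty J] (e : K) (x : S)
    (hx : A.kap e x ≠ 0) :
    ∃ x' : S, JoinedIn {z | A.kap e z ≠ 0} x x' ∧ ‖A.kap e x'‖ < 1 / 4 := by
  have hloc := E.locPath
  by_contra hno
  push Not at hno
  have hW : IsOpen {z | A.kap e z ≠ 0} := (kap_cont A e).isOpen_preimage _ isOpen_ne
  have hCo : IsOpen (pathComponentIn {z | A.kap e z ≠ 0} x) := hW.pathComponentIn x
  have hCl : IsClosed (pathComponentIn {z | A.kap e z ≠ 0} x) := by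
    refine isClosed_of_closure_subset fun z hz => ?_
    have hclosed : IsClosed {z | 1 / 4 ≤ ‖A.kap e z‖} :=
      isClosed_le continuous_const (kap_cont A e).norm
    have h1 : closure (pathComponentIn {z | A.kap e z ≠ 0} x) ⊆ {z | 1 / 4 ≤ ‖A.kap e z‖} :=
      closure_minimal (fun y hy => hno y hy) hclosed
    have hzW : z ∈ {z | A.kap e z ≠ 0} := by
      intro h0
      have h2 : 1 / 4 ≤ ‖A.kap e z‖ := h1 hz
      rw [h0, norm_zero] at h2
      norm_num at h2
    have hzC : IsOpen (pathComponentIn {z | A.kap e z ≠ 0} z) := hW.pathComponentIn z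
    have hmem : z ∈ pathComponentIn {z | A.kap e z ≠ 0} z := JoinedIn.refl hzW
    obtain ⟨y, hy1, hy2⟩ := mem_closure_iff.1 hz _ hzC hmem
    exact JoinedIn.trans hy2 (JoinedIn.symm hy1)
  have huniv := IsClopen.eq_univ ⟨hCl, hCo⟩ ⟨x, JoinedIn.refl hx⟩
  obtain ⟨j⟩ := ‹Nonempty J›
  have hmem : E.collar j (((((0 : ℤ) + (0 : ℝ)) / len j : ℝ) : AddCircle (1 : ℝ)),
      ⟨3 / 2, by norm_num, by norm_num⟩) ∈
      pathComponentIn {z | A.kap e z ≠ 0} x := by
    rw [huniv]
    exact mem_univ _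
  have h3 : A.kap e (E.collar j (((((0 : ℤ) + (0 : ℝ)) / len j : ℝ) : AddCircle (1 : ℝ)),
      ⟨3 / 2, by norm_num, by norm_num⟩)) ≠ 0 := JoinedIn.target_mem hmem
  apply h3
  exact kap_zero A e j 0 _

/-- a point of the complement of the strips can be joined to an end -/
theorem none_reach {x : S} (hx : x ∈ VV A none) :
    ∃ j z, JoinedIn (VV A none) x (E.collar j z) := A.reach x hx

/-- closed transversals over the collars -/
theorem transversal [Finite J] [Finite K] (hT : 2 ≤ T) (hL : ∀ j, 0 < len j)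
    (hF : F.charts = AllCharts Fl C) (j : J) (w : AddCircle (1 : ℝ) × Ioo (1 : ℝ) 2) :
    F.ClosedTransversal (fun s => PP Fl T (E.collar j w, T * s)) := by
  have hTr : (0 : ℝ) < T := by exact_mod_cast tp hT
  obtain ⟨y, -, hy⟩ := exists_QQ Fl (len := len) (T := T) j (hL j) w 0
  have hPQ : ∀ t, PP Fl T (E.collar j w, t) = QQ Fl len T j (y, w.2, t) := by
    intro t
    unfold QQ
    rw [← hy]
  refine F.transversal_of _ ?_ ?_ ?_
  · exact (PP_cont Fl (tp hT)).comp (continuous_const.prodMk (by fun_prop))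
  · intro s
    refine (PP_eq Fl (tp hT) _ _ _ _).2 ⟨-1, ?_, ?_⟩
    · push_cast
      ring
    · exact (C.phi_zpow_col (-1) j _).symm
  · intro s
    obtain ⟨c, hc, hsrc, hval⟩ := exII Fl D (tp hT) hL C.phi_col j (y - 1 / 2) (T * s - 1 / 2)
    refine ⟨c, ?_, ?_, 1 / (2 * T), by positivity, ?_⟩
    · rw [hF]
      exact Or.inr hc
    · rw [hsrc, hPQ]
      exact ⟨(y, w.2, T * s), ⟨⟨by simp only; linarith, by simp only; linarith⟩,
        mem_univ _, ⟨by simp only; linarith, by simp only; linarith⟩⟩, rfl⟩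
    · have key : ∀ a ∈ Ioo (s - 1 / (2 * T)) (s + 1 / (2 * T)),
          (c (PP Fl T (E.collar j w, T * a))).2 = MR D j y w.2 (T * a) := by
        intro a ha
        have h1 : (T : ℝ) * (1 / (2 * T)) = 1 / 2 := by
          field_simp
        have h2 : (T : ℝ) * (s - 1 / (2 * T)) < T * a :=
          mul_lt_mul_of_pos_left ha.1 (by positivity)
        have h3 : (T : ℝ) * a < T * (s + 1 / (2 * T)) :=
          mul_lt_mul_of_pos_left ha.2 (by positivity)
        rw [mul_sub, h1] at h2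
        rw [mul_add, h1] at h3
        rw [hPQ]
        exact hval (y, w.2, T * a) ⟨⟨by simp only; linarith, by simp only; linarith⟩,
          mem_univ _, ⟨h2, by simp only; linarith⟩⟩
      intro a ha b hb hab
      simp only [key a ha, key b hb]
      exact MR_mono D j y w.2 (mul_lt_mul_of_pos_left hab (by positivity))

include C in
/-- the retraction, with its effect on the collapse maps -/
theorem LfF_ret [Finite J] [Finite K] (hL : ∀ j, 0 < len j) : ∃ r : S → S, Continuous r ∧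
    (∀ x, (∀ j w, x = E.collar j w → 11 / 6 ≤ (w.2 : ℝ)) → r x = x) ∧
    (∀ z j w, r z = E.collar j w → 11 / 6 ≤ (w.2 : ℝ)) ∧
    (∀ z (i : ℤ) (e : K), A.kap e (C.ψ i (r z)) = A.kap e (C.ψ i z)) ∧
    ∀ j w, ∃ w', r (E.collar j w) = E.collar j w' := by
  obtain ⟨r, hr, h1, h2, h3⟩ := E.exists_retract
  refine ⟨r, hr, h1, ?_, ?_, fun j w => ?_⟩
  · intro z j w hz
    by_cases hc : ∃ j w, z = E.collar j w
    · obtain ⟨j', w', rfl⟩ := hc
      obtain ⟨w'', h4, -, h5⟩ := h3 j' w'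
      rw [h4] at hz
      obtain rfl := E.disj _ _ _ _ hz
      rw [← (E.emb j').injective hz]
      exact h5
    · push Not at hc
      rw [h2 z hc] at hz
      exact absurd hz (hc j w)
  · intro z i e
    by_cases hc : ∃ j w, z = E.collar j w
    · obtain ⟨j', w', rfl⟩ := hc
      obtain ⟨w'', h4, h5, -⟩ := h3 j' w'
      rw [h4, C.col, C.col]
      obtain ⟨θ, ρ⟩ := w'
      obtain ⟨θ', ρ'⟩ := w''
      simp only at h5
      subst h5
      exact kap_radius A hL e j' θ' ρ' ρ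
    · push Not at hc
      rw [h2 z hc]
  · obtain ⟨w', h4, -, -⟩ := h3 j w
    exact ⟨w', h4⟩

theorem LfF_out {x : S} (hx : ∀ j w, x = E.collar j w → 11 / 6 ≤ (w.2 : ℝ)) : x ∈ Out E := by
  intro j w h
  have := hx j w h
  norm_num at this ⊢
  linarith

theorem LfF_A [Finite J] [Finite K] (hT : 2 ≤ T) (hL : ∀ j, 0 < len j)
    (hF : F.charts = AllCharts Fl C) (x : S) (i : ℤ) (t : ℝ)
    (ht : t ∈ Ico (i : ℝ) (i + 1))
    (hx : ∀ j w, x = E.collar j w → 11 / 6 ≤ (w.2 : ℝ)) (hV : C.ψ i x ∈ VV A none) :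
    ∃ j w, F.SameLeaf (PP Fl T (x, t)) (PP Fl T (E.collar j w, t)) := by
  obtain ⟨r, hr, h1, h2, h3, h6⟩ := LfF_ret C hL
  obtain ⟨j, z, δ, hδ⟩ := none_reach hV
  obtain ⟨w', hw'⟩ := h6 j z
  refine ⟨j, w', ?_⟩
  have h4 := leaf_horizontal Fl C F hT hF i ht (fun s => r ((C.ψ i).symm (δ s)))
    (hr.comp ((C.ψ i).symm.continuous.comp δ.continuous)) (fun s => ⟨LfF_out (h2 _), by
      intro e
      rw [h3]
      have := hδ s e
      simpa using this⟩)
  simp only [Path.source, Path.target, Homeomorph.symm_apply_apply] at h4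
  rw [h1 x hx] at h4
  have h5 : (C.ψ i).symm (E.collar j z) = E.collar j z := by
    rw [Homeomorph.symm_apply_eq, C.col]
  rw [h5, hw'] at h4
  exact h4

/-- from the outer part (outside the collars or at radius `≥ 11/6`) to a collar -/
theorem leaf_outer [Finite J] [Finite K] [Nonempty J] [ConnectedSpace S] (hT : 2 ≤ T)
    (hL : ∀ j, 0 < len j) (hF : F.charts = AllCharts Fl C) (x : S) (t : ℝ)
    (hx : ∀ j w, x = E.collar j w → 11 / 6 ≤ (w.2 : ℝ)) :
    ∃ j w t', F.SameLeaf (PP Fl T (x, t)) (PP Fl T (E.collar j w, t')) := by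
  have ht : t ∈ Ico ((⌊t⌋ : ℤ) : ℝ) ((⌊t⌋ : ℤ) + 1) := ⟨Int.floor_le t, Int.lt_floor_add_one t⟩
  rcases VV_cover A (C.ψ ⌊t⌋ x) with hV | ⟨e, he⟩
  · obtain ⟨j, w, h⟩ := LfF_A Fl C F hT hL hF x ⌊t⌋ t ht hx hV
    exact ⟨j, w, t, h⟩
  · obtain ⟨r, hr, h1, h2, h3, -⟩ := LfF_ret C hL
    obtain ⟨x', ⟨δ, hδ⟩, hx'⟩ := strip_path e _ he
    obtain ⟨i', t', ht', hk, hs⟩ := leaf_strip Fl C F hT hF ⌊t⌋ ht e
      (fun s => r ((C.ψ ⌊t⌋).symm (δ s)))
      (hr.comp ((C.ψ ⌊t⌋).symm.continuous.comp δ.continuous)) (fun s => ⟨LfF_out (h2 _), by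
        rw [h3]
        have := hδ s
        simpa using this⟩)
    simp only [Path.source, Path.target, Homeomorph.symm_apply_apply] at hs
    rw [h1 x hx] at hs
    have h5 : A.kap e (C.ψ i' (r ((C.ψ ⌊t⌋).symm x'))) = A.kap e x' := by
      rw [hk, h3, Homeomorph.apply_symm_apply]
    have h6 : A.kap e x' ≠ 0 := by
      have := hδ 1
      simpa using this
    obtain ⟨j, w, h⟩ := LfF_A Fl C F hT hL hF _ i' t' ht' (h2 _) (by
      intro e'
      by_cases hee : e' = e
      · subst hee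
        rw [h5]
        exact hx'
      · rcases kap_disj A hee (C.ψ i' (r ((C.ψ ⌊t⌋).symm x'))) with h7 | h7
        · rw [h7, norm_zero]
          norm_num
        · rw [h5] at h7
          exact absurd h7 h6)
    exact ⟨j, w, t', Foliation.SameLeaf.trans F hs h⟩

/-- tautness -/
theorem taut [Finite J] [Finite K] [Nonempty J] [ConnectedSpace S] (hT : 2 ≤ T)
    (hL : ∀ j, 0 < len j) (hF : F.charts = AllCharts Fl C) : F.Taut := by
  have hT' : (T : ℝ) ≠ 0 := by exact_mod_cast (tp hT).ne'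
  have key : ∀ y j w t', F.SameLeaf y (PP Fl T (E.collar j w, t')) →
      ∃ l : ℝ → Y, ∃ s : ℝ, F.ClosedTransversal l ∧ F.SameLeaf y (l s) := by
    intro y j w t' h
    refine ⟨fun s => PP Fl T (E.collar j w, T * s), t' / (T),
      transversal Fl C F hT hL hF j w, ?_⟩
    have e : (T : ℝ) * (t' / (T)) = t' := by field_simp
    show F.SameLeaf y (PP Fl T (E.collar j w, T * (t' / (T))))
    rw [e]
    exact h
  intro y
  rcases dichotomy Fl (T := T) hT hL y with ⟨x, t, rfl, hx⟩ | ⟨j, z, rfl⟩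
  · obtain ⟨j, w, t', h⟩ := leaf_outer Fl C F hT hL hF x t fun j w e => absurd e (hx j w)
    exact key _ j w t' h
  · exact key _ j _ z.2.2 (Foliation.SameLeaf.refl F _)

end Pool.Agent.H.MP_1611f1_gt.G2
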