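import Pool.Agent.H.MP_1611f1_gt.G2.GenG
import Pool.Agent.H.MP_1611f1_gt.G2.FillDet
import Pool.Agent.H.MP_1611f1_gt.G.MT
import Pool.Agent.H.MP_1611f1_gt.G.Rev

/-!
Taut foliations with linear ends in mapping tori, from general arc systems and words.
-/

namespace Pool.Agent.H.MP_1611f1_gt.G2

open Topology Set Filter

/-- the mapping torus, without its ends -/
def toMTB {S : Type*} [TopologicalSpace S] {J : Type*} {M : Type*} [TopologicalSpace M]
    {Tor : G.Ended M J} {E : Surf S J} {phi : S ≃ₜ S} (Mt : G.MTorus E phi Tor) :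
    MTB E phi M where
  p := Mt.p
  p_loc := Mt.p_loc
  p_eq := Mt.p_eq
  p_surj := Mt.p_surj

/-- **the general theorem**: mapping tori with ends detect the covectors `(- s j * y j, y j)` -/
theorem detected {S : Type*} [TopologicalSpace S] [ConnectedSpace S] {J K : Type*}
    [Finite J] [Nonempty J] [Finite K] {E : Surf S J} {phi : S ≃ₜ S} {len : J → ℕ}
    {w : J → ℤ → Option (K × Bool)} {T : ℕ} {s : J → ℝ} (hT : 2 ≤ T) (hL : ∀ j, 0 < len j)
    (hw : ∀ j k, w j (k + len j) = w j k) {D : Dat len w T s} {A : Arcs E len w}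
    (C : Chain D A phi) {M : Type*} [TopologicalSpace M] {Tor : G.Ended M J}
    (Mt : G.MTorus E phi Tor) (ε : ℝ) (hε : ε = 1 ∨ ε = -1) (x y : J → ℝ)
    (hy : ∀ j, 0 < ε * y j) (hx : ∀ j, x j = -s j * y j) : G.Detected Tor x y := by
  have hT' : (0 : ℝ) < T := by exact_mod_cast tp hT
  obtain ⟨F, hF⟩ := exists_foliation (toMTB Mt) C hT hL hw
  have hTaut : F.Taut := taut (toMTB Mt) C F hT hL hF
  have hlin : G.Linear Tor F (fun j => -s j * T) (fun _ => T) := by
    intro j z hz c hc hs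
    rw [hF] at hc
    have hLr : (0 : ℝ) < len j := by exact_mod_cast hL j
    let R : ℝ × Ioo (1 : ℝ) 2 × ℝ → ℝ × Ioo (1 : ℝ) 2 × ℝ := fun w =>
      (len j * w.1, w.2.1, T * w.2.2)
    have hR : Continuous R := by
      show Continuous fun w : ℝ × Ioo (1 : ℝ) 2 × ℝ =>
        ((len j : ℝ) * w.1, w.2.1, (T : ℝ) * w.2.2)
      fun_prop
    have hQ : ∀ w, Tor.cov j w = QQ (toMTB Mt) len T j (R w) := by
      intro w
      show Tor.tor j (_, w.2.1, _) = Mt.p (E.collar j
        (((len j * w.1 / len j : ℝ) : AddCircle (1 : ℝ)), w.2.1), (T : ℝ) * w.2.2 / T)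
      have h1 : (len j : ℝ) * w.1 / len j = w.1 := by field_simp
      have h2 : (T : ℝ) * w.2.2 / T = w.2.2 := by field_simp
      rw [h1, h2, Mt.tor]
    rw [hQ] at hs
    have h2 := collar_all (toMTB Mt) C hT hL hw hc j hs
    have h3 := OrdEq.comp_cont (R := R) (z₀ := z) hR.continuousAt h2
    have hev : ∀ᶠ w : ℝ × Ioo (1 : ℝ) 2 × ℝ in 𝓝 z, (w.2.1 : ℝ) < 4 / 3 := by
      have h4 : Continuous fun w : ℝ × Ioo (1 : ℝ) 2 × ℝ => (w.2.1 : ℝ) := by fun_prop
      exact h4.continuousAt.eventually_lt_const hz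
    refine h3.congr (Eventually.of_forall fun w => ?_) (hev.mono fun w hw => ?_)
    · show (c (Tor.cov j w)).2 = (c (QQ (toMTB Mt) len T j (R w))).2
      rw [hQ]
    · show -s j * T * w.1 + T * w.2.2 = MR D j (len j * w.1) w.2.1 (T * w.2.2)
      rw [MR_inner _ _ _ _ hw.le]
      field_simp
      ring
  refine G.Detected.sign hε ⟨F, hTaut, hlin⟩ x y fun j => ⟨y j / T, ?_, ?_, ?_⟩
  · have h1 : ε * (y j / T) = ε * y j / T := by ring
    rw [h1]
    exact div_pos (hy j) hT'
  · rw [hx]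
    field_simp
  · field_simp

/-- **the general theorem for Dehn fillings** -/
theorem fill {S : Type*} [TopologicalSpace S] [ConnectedSpace S] {J K : Type*}
    [Finite J] [Nonempty J] [Finite K] {E : Surf S J} {phi : S ≃ₜ S} {len : J → ℕ}
    {w : J → ℤ → Option (K × Bool)} {T : ℕ} {s : J → ℝ} (hT : 2 ≤ T) (hL : ∀ j, 0 < len j)
    (hw : ∀ j k, w j (k + len j) = w j k) {D : Dat len w T s} {A : Arcs E len w}
    (C : Chain D A phi) {al be ga de : J → ℤ} {Y : Type*} [TopologicalSpace Y]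
    (Fi : Filling E phi al be ga de Y) (hde : ∀ j, de j ≠ 0)
    (hga : ∀ j, (ga j : ℝ) = -s j * de j) : ∃ F : Foliation Y, F.Taut := by
  refine fill_taut C.phi_col Fi (fun j => -s j) (fun _ => 1) (fun Tor Mt => ?_) fun j => ?_
  · exact detected hT hL hw C Mt 1 (Or.inl rfl) _ _ (fun j => by norm_num) fun j => by ring
  · have h1 : (de j : ℝ) ≠ 0 := by exact_mod_cast hde j
    refine ⟨1 / de j, by positivity, ?_, by field_simp⟩
    rw [hga]
    field_simp

end Pool.Agent.H.MP_1611f1_gt.G2
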