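import Pool.Agent.H.MP_1611f1_gt.G2.GenDefs

/-!
Constructors of chains and of the one-dimensional data.
-/

namespace Pool.Agent.H.MP_1611f1_gt.G2

open Topology Set Filter

/-- the product `x (a + n) * ... * x (a + 2) * x (a + 1)` -/
def prodDown {Γ : Type*} [Group Γ] (x : ℤ → Γ) (a : ℤ) : ℕ → Γ
  | 0 => 1
  | n + 1 => x (a + n + 1) * prodDown x a n

theorem prodDown_zero {Γ : Type*} [Group Γ] (x : ℤ → Γ) (a : ℤ) : prodDown x a 0 = 1 := rfl

theorem prodDown_succ {Γ : Type*} [Group Γ] (x : ℤ → Γ) (a : ℤ) (n : ℕ) :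
    prodDown x a (n + 1) = x (a + n + 1) * prodDown x a n := rfl

/-- starting at `a = -1`: the product `x (n-1) * ... * x 1 * x 0` as a product of a list -/
theorem prodDown_list {Γ : Type*} [Group Γ] (x : ℤ → Γ) (n : ℕ) :
    prodDown x (-1) n = ((List.range n).reverse.map fun k : ℕ => x (k : ℤ)).prod := by
  induction n with
  | zero => simp [prodDown]
  | succ n ih =>
    rw [prodDown_succ, ih, List.range_succ, List.reverse_append, List.map_append,
      List.prod_append]
    have h : (-1 : ℤ) + n + 1 = n := by ring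
    simp [h]

/-- two-sided products -/
theorem exists_prod {Γ : Type*} [Group Γ] (x : ℤ → Γ) :
    ∃ ψ : ℤ → Γ, ψ 0 = 1 ∧ ∀ i, ψ i = x i * ψ (i - 1) := by
  let P : ℕ → Γ := fun n => Nat.rec 1 (fun n g => x (n + 1) * g) n
  let Q : ℕ → Γ := fun n => Nat.rec 1 (fun n g => (x (-n))⁻¹ * g) n
  have hP0 : P 0 = 1 := rfl
  have hQ0 : Q 0 = 1 := rfl
  have hP : ∀ n : ℕ, P (n + 1) = x (n + 1) * P n := fun n => rfl
  have hQ : ∀ n : ℕ, Q (n + 1) = (x (-n))⁻¹ * Q n := fun n => rfl
  let ψ : ℤ → Γ := fun i => if 0 ≤ i then P i.toNat else Q (-i).toNat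
  have h1 : ∀ n : ℕ, ψ n = P n := by
    intro n
    show (if (0 : ℤ) ≤ n then P (n : ℤ).toNat else Q (-(n : ℤ)).toNat) = P n
    rw [if_pos (Int.natCast_nonneg n), Int.toNat_natCast]
  have h2 : ∀ n : ℕ, ψ (-n) = Q n := by
    intro n
    rcases Nat.eq_zero_or_pos n with rfl | hn
    · have := h1 0
      simp only [Nat.cast_zero, neg_zero] at this ⊢
      rw [this, hP0, hQ0]
    · show (if (0 : ℤ) ≤ -n then P (-(n : ℤ)).toNat else Q (-(-(n : ℤ))).toNat) = Q n
      rw [if_neg (by omega), neg_neg, Int.toNat_natCast]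
  refine ⟨ψ, ?_, fun i => ?_⟩
  · have := h1 0
    simpa [hP0] using this
  · rcases le_or_gt i 0 with hi | hi
    · obtain ⟨n, hn⟩ : ∃ n : ℕ, i = -n := ⟨(-i).toNat, by omega⟩
      subst hn
      have e : (-(n : ℤ)) - 1 = -((n + 1 : ℕ) : ℤ) := by push_cast; ring
      rw [e, h2, h2, hQ, mul_inv_cancel_left]
    · obtain ⟨n, hn⟩ : ∃ n : ℕ, i = (n + 1 : ℕ) := ⟨(i - 1).toNat, by omega⟩
      subst hn
      have e : ((n + 1 : ℕ) : ℤ) - 1 = n := by push_cast; ring
      rw [e, h1, h1, hP]
      push_cast
      rfl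

/-- the two-sided product is determined by one value -/
theorem prod_unique {Γ : Type*} [Group Γ] {x ψ χ : ℤ → Γ} (hψ : ∀ i, ψ i = x i * ψ (i - 1))
    (hχ : ∀ i, χ i = x i * χ (i - 1)) {a : ℤ} (h : ψ a = χ a) (i : ℤ) : ψ i = χ i := by
  have hup : ∀ n : ℕ, ψ (a + n) = χ (a + n) := by
    intro n
    induction n with
    | zero => simpa using h
    | succ n ih =>
      have e : a + ((n + 1 : ℕ) : ℤ) - 1 = a + n := by push_cast; ring
      rw [hψ, hχ, e, ih]
  have hdown : ∀ n : ℕ, ψ (a - n) = χ (a - n) := by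
    intro n
    induction n with
    | zero => simpa using h
    | succ n ih =>
      have e : a - ((n + 1 : ℕ) : ℤ) = a - n - 1 := by push_cast; ring
      have h1 := hψ (a - n)
      have h2 := hχ (a - n)
      rw [h1, h2] at ih
      rw [e]
      exact mul_left_cancel ih
  rcases le_total a i with hi | hi
  · have := hup (i - a).toNat
    rwa [Int.toNat_of_nonneg (by omega), add_sub_cancel] at this
  · have := hdown (a - i).toNat
    rwa [Int.toNat_of_nonneg (by omega), sub_sub_cancel] at this

theorem prod_down {Γ : Type*} [Group Γ] {x ψ : ℤ → Γ} (hψ : ∀ i, ψ i = x i * ψ (i - 1))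
    (a : ℤ) (n : ℕ) : ψ (a + n) = prodDown x a n * ψ a := by
  induction n with
  | zero => simp [prodDown]
  | succ n ih =>
    have e : a + ((n + 1 : ℕ) : ℤ) = a + n + 1 := by push_cast; ring
    have e2 : a + (n : ℤ) + 1 - 1 = a + n := by ring
    rw [e, hψ, e2, ih, prodDown_succ, mul_assoc]

theorem prod_per {Γ : Type*} [Group Γ] {x ψ : ℤ → Γ} (hψ : ∀ i, ψ i = x i * ψ (i - 1)) {T : ℕ}
    (hx : ∀ i, x (i + T) = x i) {a : ℤ} (ha : ψ a = 1) (i : ℤ) :
    ψ (i + T) = ψ i * prodDown x a T := by
  refine prod_unique (x := x) (ψ := fun i => ψ (i + T)) (χ := fun i => ψ i * prodDown x a T)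
    (fun i => ?_) (fun i => ?_) (a := a) ?_ i
  · show ψ (i + T) = x i * ψ (i - 1 + T)
    have e : i - 1 + T = i + T - 1 := by ring
    rw [e, ← hx i]
    exact hψ (i + T)
  · show ψ i * prodDown x a T = x i * (ψ (i - 1) * prodDown x a T)
    rw [← mul_assoc, ← hψ]
  · show ψ (a + T) = ψ a * prodDown x a T
    rw [prod_down hψ, ha, mul_one, one_mul]

section

variable {S : Type*} [TopologicalSpace S] {J K : Type*} {E : Surf S J} {len : J → ℕ}
  {w : J → ℤ → Option (K × Bool)} {T : ℕ} {s : J → ℝ}

/-- **Chains from factors**: `x i` is the homeomorphism at the time `i` (periodic with the period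
`T`), fixing the collars and preserving the arc `e` unless `iso e i = i`. The monodromy is
`x (a + T) * ... * x (a + 2) * x (a + 1)` (the factors at later times are further LEFT, that is,
they are applied later). -/
theorem exists_chain (D : Dat len w T s) (A : Arcs E len w) (x : ℤ → (S ≃ₜ S))
    (hx : ∀ i, x (i + T) = x i) (hcol : ∀ i j z, x i (E.collar j z) = E.collar j z)
    (hstep : ∀ (i : ℤ) (e : K), D.iso e i = i ∨ ∀ y, A.kap e (x i y) = A.kap e y) (a : ℤ) :
    Nonempty (Chain D A (prodDown x a T)) := by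
  obtain ⟨χ, -, hχ⟩ := exists_prod x
  let ψ : ℤ → (S ≃ₜ S) := fun i => χ i * (χ a)⁻¹
  have hψ : ∀ i, ψ i = x i * ψ (i - 1) := by
    intro i
    show χ i * (χ a)⁻¹ = x i * (χ (i - 1) * (χ a)⁻¹)
    rw [← mul_assoc, ← hχ]
  have ha : ψ a = 1 := mul_inv_cancel _
  have hstep' : ∀ i y, ψ i y = x i (ψ (i - 1) y) := by
    intro i y
    rw [hψ i]
    rfl
  have hfix : ∀ i j z, ψ i (E.collar j z) = E.collar j z ↔
      ψ (i - 1) (E.collar j z) = E.collar j z := by
    intro i j z
    rw [hstep']
    constructor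
    · intro h
      exact (x i).injective (h.trans (hcol i j z).symm)
    · intro h
      rw [h, hcol]
  refine ⟨⟨ψ, prod_per hψ hx ha, fun i j z => ?_, fun i e => ?_⟩⟩
  · have hup : ∀ n : ℕ, ψ (a + n) (E.collar j z) = E.collar j z := by
      intro n
      induction n with
      | zero =>
        rw [Nat.cast_zero, add_zero, ha]
        rfl
      | succ n ih =>
        have e : a + ((n + 1 : ℕ) : ℤ) - 1 = a + n := by push_cast; ring
        rw [hfix, e]
        exact ih
    have hdown : ∀ n : ℕ, ψ (a - n) (E.collar j z) = E.collar j z := by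
      intro n
      induction n with
      | zero =>
        rw [Nat.cast_zero, sub_zero, ha]
        rfl
      | succ n ih =>
        have e : a - ((n + 1 : ℕ) : ℤ) = a - n - 1 := by push_cast; ring
        rw [e, ← hfix]
        exact ih
    rcases le_total a i with hi | hi
    · have := hup (i - a).toNat
      rwa [Int.toNat_of_nonneg (by omega), add_sub_cancel] at this
    · have := hdown (a - i).toNat
      rwa [Int.toNat_of_nonneg (by omega), sub_sub_cancel] at this
  · rcases hstep i e with h | h
    · exact Or.inl h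
    · right
      intro y
      rw [hstep' i y, h]

/-- the isomorphism of a letter -/
def lett (iso : K → ℝ ≃o ℝ) (o : Option (K × Bool)) : ℝ ≃o ℝ :=
  match o with
  | none => 1
  | some (e, true) => iso e
  | some (e, false) => (iso e)⁻¹

theorem lett_none (iso : K → ℝ ≃o ℝ) : lett iso none = 1 := rfl

theorem lett_true (iso : K → ℝ ≃o ℝ) (e : K) : lett iso (some (e, true)) = iso e := rfl

theorem lett_false (iso : K → ℝ ≃o ℝ) (e : K) : lett iso (some (e, false)) = (iso e).symm := rfl

theorem lett_per (iso : K → ℝ ≃o ℝ) (hiso : ∀ e t, iso e (t + T) = iso e t + T)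
    (o : Option (K × Bool)) (t : ℝ) : lett iso o (t + T) = lett iso o t + T := by
  rcases o with _ | ⟨e, b⟩
  · rfl
  · cases b
    · rw [lett_false]
      apply (iso e).injective
      rw [OrderIso.apply_symm_apply, hiso, OrderIso.apply_symm_apply]
    · rw [lett_true]
      exact hiso e t

theorem prodDown_per (x : ℤ → ℝ ≃o ℝ) (hx : ∀ i t, x i (t + T) = x i t + T) (a : ℤ) (n : ℕ)
    (t : ℝ) : prodDown x a n (t + T) = prodDown x a n t + T := by
  induction n with
  | zero => rfl
  | succ n ih =>
    rw [prodDown_succ, RelIso.mul_apply, RelIso.mul_apply, ih, hx]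

/-- **The one-dimensional data from the holonomies around the ends**: `th j` conjugates the
holonomy once around the end `j` (the letter `0` is applied first) to the translation by
`s j * T`. -/
theorem exists_dat (iso : K → ℝ ≃o ℝ) (hiso : ∀ e t, iso e (t + T) = iso e t + T)
    (hw : ∀ j k, w j (k + len j) = w j k) (th : J → ℝ → ℝ) (hmono : ∀ j, StrictMono (th j))
    (hcont : ∀ j, Continuous (th j)) (hth : ∀ j t, th j (t + T) = th j t + T)
    (hs : ∀ j t, th j (prodDown (fun i => lett iso (w j i)) (-1) (len j) t) =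
      th j t + s j * T) :
    ∃ D : Dat len w T s, D.iso = iso := by
  choose ψ h0 hψ using fun j => exists_prod fun i => lett iso (w j (i - 1))
  have hψ' : ∀ j k, ψ j (k + 1) = lett iso (w j k) * ψ j k := by
    intro j k
    have := hψ j (k + 1)
    simpa using this
  have hper1 : ∀ j i, lett iso (w j (i + len j - 1)) = lett iso (w j (i - 1)) := by
    intro j i
    have e : i + (len j : ℤ) - 1 = i - 1 + len j := by ring
    rw [e, hw]
  have hpd : ∀ j (n : ℕ), prodDown (fun i => lett iso (w j (i - 1))) 0 n =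
      prodDown (fun i => lett iso (w j i)) (-1) n := by
    intro j n
    induction n with
    | zero => rfl
    | succ n ih =>
      rw [prodDown_succ, prodDown_succ, ih]
      have e : (0 : ℤ) + n + 1 - 1 = -1 + n + 1 := by ring
      rw [e]
  have hlen : ∀ j k, ψ j (k + len j) =
      ψ j k * prodDown (fun i => lett iso (w j i)) (-1) (len j) := by
    intro j k
    rw [← hpd]
    exact prod_per (hψ j) (hper1 j) (h0 j) k
  have hψT : ∀ j k t, ψ j k (t + T) = ψ j k t + T := by
    intro j k
    induction k using Int.induction_on with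
    | zero =>
      intro t
      rw [h0]
      rfl
    | succ n ih =>
      intro t
      rw [hψ', RelIso.mul_apply, RelIso.mul_apply, ih, lett_per iso hiso]
    | pred n ih =>
      intro t
      have h1 := hψ' j (-(n : ℤ) - 1)
      rw [sub_add_cancel] at h1
      apply (lett iso (w j (-(n : ℤ) - 1))).injective
      rw [lett_per iso hiso, ← RelIso.mul_apply, ← RelIso.mul_apply, ← h1]
      exact ih t
  have hψTs : ∀ j k t, (ψ j k).symm (t + T) = (ψ j k).symm t + T := by
    intro j k t
    apply (ψ j k).injective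
    rw [OrderIso.apply_symm_apply, hψT, OrderIso.apply_symm_apply]
  have hstep : ∀ j k t, (ψ j (k + 1)).symm (lett iso (w j k) t) = (ψ j k).symm t := by
    intro j k t
    apply (ψ j (k + 1)).injective
    rw [OrderIso.apply_symm_apply, hψ', RelIso.mul_apply, OrderIso.apply_symm_apply]
  refine ⟨⟨iso, hiso, fun j k t => th j ((ψ j k).symm t), fun j k => ?_, fun j k => ?_,
    fun j k t => ?_, fun j k e h t => ?_, fun j k e h t => ?_, fun j k h t => ?_,
    fun j k t => ?_⟩, rfl⟩
  · exact (hmono j).comp (ψ j k).symm.strictMono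
  · exact (hcont j).comp (ψ j k).symm.continuous
  · show th j ((ψ j k).symm (t + T)) = th j ((ψ j k).symm t) + T
    rw [hψTs, hth]
  · show th j ((ψ j (k + 1)).symm (iso e t)) = th j ((ψ j k).symm t)
    have h1 := hstep j k t
    rw [h, lett_true] at h1
    rw [h1]
  · show th j ((ψ j (k + 1)).symm ((iso e).symm t)) = th j ((ψ j k).symm t)
    have h1 := hstep j k t
    rw [h, lett_false] at h1
    rw [h1]
  · show th j ((ψ j (k + 1)).symm t) = th j ((ψ j k).symm t)
    have h1 := hstep j k t
    rw [h, lett_none] at h1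
    exact congrArg (th j) h1
  · show th j ((ψ j (k + len j)).symm t) = th j ((ψ j k).symm t) - s j * T
    have h1 := hs j ((ψ j (k + len j)).symm t)
    have h2 : prodDown (fun i => lett iso (w j i)) (-1) (len j) ((ψ j (k + len j)).symm t) =
        (ψ j k).symm t := by
      apply (ψ j k).injective
      rw [OrderIso.apply_symm_apply, ← RelIso.mul_apply, ← hlen, OrderIso.apply_symm_apply]
    rw [h2] at h1
    linarith

end

end Pool.Agent.H.MP_1611f1_gt.G2
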