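import Mathlib

/-!
Piecewise linear functions with breakpoints at the integers.
-/

namespace Pool.Agent.H.MP_1611f1_gt

open Set Filter Topology

/-- the piecewise linear function with the values `S n` at the integers -/
noncomputable def plf (S : ℤ → ℝ) (x : ℝ) : ℝ := S ⌊x⌋ + (S (⌊x⌋ + 1) - S ⌊x⌋) * Int.fract x

theorem plf_add (S : ℤ → ℝ) (n : ℤ) (u : ℝ) (hu : u ∈ Icc (0 : ℝ) 1) :
    plf S (n + u) = S n + (S (n + 1) - S n) * u := by
  rcases lt_or_eq_of_le hu.2 with h | h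
  · have h1 : ⌊(n : ℝ) + u⌋ = n := by
      rw [Int.floor_eq_iff]; constructor <;> linarith [hu.1]
    have h2 : Int.fract ((n : ℝ) + u) = u := by
      rw [Int.fract, h1]; ring
    rw [plf, h1, h2]
  · subst h
    have h1 : ⌊(n : ℝ) + 1⌋ = n + 1 := by
      rw [Int.floor_eq_iff]; push_cast; constructor <;> linarith
    have h2 : Int.fract ((n : ℝ) + 1) = 0 := by
      rw [Int.fract, h1]; push_cast; ring
    rw [plf, h1, h2]; ring

theorem plf_int (S : ℤ → ℝ) (n : ℤ) : plf S n = S n := by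
  have := plf_add S n 0 ⟨le_rfl, zero_le_one⟩
  simpa using this

theorem plf_strictMono {S : ℤ → ℝ} (hS : ∀ n, S n < S (n + 1)) : StrictMono (plf S) := by
  have hm : StrictMono S := strictMono_int_of_lt_succ hS
  intro x y hxy
  have hfl : ⌊x⌋ ≤ ⌊y⌋ := Int.floor_mono hxy.le
  rcases eq_or_lt_of_le hfl with h | h
  · have h1 : Int.fract x < Int.fract y := by
      rw [Int.fract, Int.fract, h]; linarith
    rw [plf, plf, h]
    have := hS ⌊y⌋
    have : 0 < S (⌊y⌋ + 1) - S ⌊y⌋ := by linarith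
    nlinarith
  · have h1 : plf S x < S (⌊x⌋ + 1) := by
      rw [plf]
      have h2 := hS ⌊x⌋
      have h3 := Int.fract_lt_one x
      nlinarith
    have h2 : S ⌊y⌋ ≤ plf S y := by
      rw [plf]
      have h2 := hS ⌊y⌋
      have h3 := Int.fract_nonneg y
      nlinarith
    have h3 : S (⌊x⌋ + 1) ≤ S ⌊y⌋ := hm.monotone (by omega)
    linarith

theorem plf_surj {S : ℤ → ℝ} (hS : ∀ n, S n < S (n + 1)) {m : ℤ} (hm : 0 < m) {La : ℝ}
    (hper : ∀ n, S (n + m) = S n + La) : Function.Surjective (plf S) := by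
  have hmo : StrictMono S := strictMono_int_of_lt_succ hS
  have hLa : 0 < La := by
    have h1 := hper 0
    have h2 := hmo (show (0 : ℤ) < 0 + m by omega)
    linarith
  have hk : ∀ k : ℤ, S (m * k) = S 0 + La * k := by
    intro k
    induction k using Int.induction_on with
    | zero => simp
    | succ i ih =>
      rw [show m * ((i : ℤ) + 1) = m * i + m by ring, hper, ih]; push_cast; ring
    | pred i ih =>
      have h1 := hper (m * (-(i : ℤ) - 1))
      rw [show m * (-(i : ℤ) - 1) + m = m * (-(i : ℤ)) by ring, ih] at h1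
      push_cast at h1 ⊢
      linarith
  intro y
  obtain ⟨n, hn1, hn2⟩ : ∃ n : ℤ, S n ≤ y ∧ y < S (n + 1) := by
    obtain ⟨ub, h1, h2⟩ := Int.exists_greatest_of_bdd (P := fun n : ℤ => S n ≤ y)
      ⟨m * ⌈(y - S 0) / La⌉, fun z hz => by
        refine hmo.le_iff_le.1 ?_
        rw [hk]
        have h3 := Int.le_ceil ((y - S 0) / La)
        have h4 : y - S 0 ≤ La * ⌈(y - S 0) / La⌉ := by
          rw [div_le_iff₀ hLa] at h3; linarith
        linarith⟩
      ⟨m * ⌊(y - S 0) / La⌋, by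
        show S _ ≤ y
        rw [hk]
        have h3 := Int.floor_le ((y - S 0) / La)
        rw [le_div_iff₀ hLa] at h3
        linarith⟩
    refine ⟨ub, h1, ?_⟩
    by_contra h
    have := h2 (ub + 1) (not_lt.1 h)
    omega
  have hd : 0 < S (n + 1) - S n := by linarith [hS n]
  refine ⟨n + (y - S n) / (S (n + 1) - S n), ?_⟩
  rw [plf_add S n _ ⟨div_nonneg (by linarith) hd.le, (div_le_one hd).2 (by linarith)⟩]
  field_simp
  ring

/-- the piecewise linear order isomorphism -/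
noncomputable def plIso (S : ℤ → ℝ) (hS : ∀ n, S n < S (n + 1)) (m : ℤ) (hm : 0 < m) (La : ℝ)
    (hper : ∀ n, S (n + m) = S n + La) : ℝ ≃o ℝ :=
  StrictMono.orderIsoOfSurjective _ (plf_strictMono hS) (plf_surj hS hm hper)

theorem plIso_apply {S : ℤ → ℝ} {hS : ∀ n, S n < S (n + 1)} {m : ℤ} {hm : 0 < m} {La : ℝ}
    {hper : ∀ n, S (n + m) = S n + La} (x : ℝ) : plIso S hS m hm La hper x = plf S x := rfl

theorem plf_shift {S : ℤ → ℝ} {m : ℤ} {La : ℝ} (hper : ∀ n, S (n + m) = S n + La) (x : ℝ) :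
    plf S (x + m) = plf S x + La := by
  rw [plf, plf, Int.floor_add_intCast, Int.fract_add_intCast, hper,
    show ⌊x⌋ + m + 1 = (⌊x⌋ + 1) + m by ring, hper]
  ring

theorem plf_affine {S : ℤ → ℝ} {m lo hi : ℤ} {a b : ℝ}
    (h : ∀ n, lo ≤ n → n ≤ hi → S (n + m) = a * S n + b) {x : ℝ} (hx : x ∈ Icc (lo : ℝ) hi) :
    plf S (x + m) = a * plf S x + b := by
  rcases eq_or_lt_of_le hx.2 with h1 | h1
  · subst h1
    have h2 : (hi : ℝ) + m = ((hi + m : ℤ) : ℝ) := by push_cast; ring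
    have h3 : lo ≤ hi := by exact_mod_cast hx.1
    rw [h2, plf_int, plf_int, h hi h3 le_rfl]
  · have h2 : lo ≤ ⌊x⌋ := Int.le_floor.2 hx.1
    have h3 : ⌊x⌋ < hi := Int.floor_lt.2 h1
    rw [plf, plf, Int.floor_add_intCast, Int.fract_add_intCast, h _ h2 h3.le,
      show ⌊x⌋ + m + 1 = (⌊x⌋ + 1) + m by ring, h _ (by omega) (by omega)]
    ring

end Pool.Agent.H.MP_1611f1_gt
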