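import Pool.Agent.H.MP_1611f1_gt.G2.PlA

/-!
The piecewise linear rotation `Q` and its invariant measure.
-/

namespace Pool.Agent.H.MP_1611f1_gt

open Set Filter Topology

/-- geometric sums -/
noncomputable def gs (r : ℝ) (m : ℕ) : ℝ := ∑ i ∈ Finset.range m, r ^ i

theorem gs_zero (r : ℝ) : gs r 0 = 0 := by simp [gs]

theorem gs_succ (r : ℝ) (m : ℕ) : gs r (m + 1) = gs r m + r ^ m := Finset.sum_range_succ _ _

theorem gs_succ' (r : ℝ) (m : ℕ) : gs r (m + 1) = 1 + r * gs r m := by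
  rw [gs, Finset.sum_range_succ', gs, Finset.mul_sum, pow_zero, add_comm]
  congr 1
  exact Finset.sum_congr rfl fun i _ => by ring

theorem gs_nonneg {r : ℝ} (hr : 0 ≤ r) (m : ℕ) : 0 ≤ gs r m :=
  Finset.sum_nonneg fun _ _ => pow_nonneg hr _

/-- the constant `c = r + ⋯ + r^(N-1)` -/
noncomputable def plc (N : ℕ) (r : ℝ) : ℝ := r * gs r (N - 1)

/-- the period of the measure -/
noncomputable def plLa (N : ℕ) (r : ℝ) : ℝ := (1 + r) * (1 + plc N r)

theorem gs_N {N : ℕ} (hN : 2 ≤ N) (r : ℝ) : gs r N = 1 + plc N r := by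
  obtain ⟨m, rfl⟩ : ∃ m, N = m + 1 := ⟨N - 1, by omega⟩
  rw [gs_succ', plc, Nat.add_sub_cancel]

theorem gs_N1 {N : ℕ} (hN : 2 ≤ N) (r : ℝ) : gs r (N + 1) = plLa N r - plc N r := by
  rw [gs_succ', gs_N hN, plLa]; ring

theorem plc_pos {N : ℕ} (hN : 2 ≤ N) {r : ℝ} (hr : 0 < r) : 0 < plc N r := by
  obtain ⟨m, rfl⟩ : ∃ m, N = m + 2 := ⟨N - 2, by omega⟩
  rw [plc, show m + 2 - 1 = m + 1 by omega, gs_succ']
  have := gs_nonneg hr.le m
  positivity

/-- the values on one period -/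
noncomputable def plS0 (N : ℕ) (r : ℝ) (k : ℕ) : ℝ :=
  if k ≤ N then gs r k else plLa N r - r * gs r (2 * N - k)

/-- the values at the integers -/
noncomputable def plS (N : ℕ) (r : ℝ) (n : ℤ) : ℝ :=
  plLa N r * ((n / (2 * N : ℤ) : ℤ) : ℝ) + plS0 N r (n % (2 * N : ℤ)).toNat

theorem plS_mul {N : ℕ} (hN : 2 ≤ N) (r : ℝ) (n k : ℤ) :
    plS N r (n + 2 * N * k) = plS N r n + plLa N r * k := by
  have h : (2 * (N : ℤ)) ≠ 0 := by positivity
  rw [plS, plS, Int.add_mul_ediv_left _ _ h, Int.add_mul_emod_self_left]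
  push_cast; ring

theorem plS_per {N : ℕ} (hN : 2 ≤ N) (r : ℝ) (n : ℤ) :
    plS N r (n + 2 * N) = plS N r n + plLa N r := by
  have := plS_mul hN r n 1
  simpa using this

theorem plS_zero {N : ℕ} (_hN : 2 ≤ N) (r : ℝ) : plS N r 0 = 0 := by
  simp [plS, plS0, gs_zero]

theorem plS_eq {N : ℕ} (hN : 2 ≤ N) (r : ℝ) (q : ℤ) (k : ℕ) (hk : k ≤ 2 * N) :
    plS N r (k + 2 * N * q) = plLa N r * q + plS0 N r k := by
  rw [plS_mul hN]
  rcases eq_or_lt_of_le hk with h | h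
  · subst h
    have h1 : ((2 * N : ℕ) : ℤ) = 0 + 2 * N := by push_cast; ring
    rw [h1, plS_per hN, plS_zero hN, plS0, if_neg (by omega), Nat.sub_self, gs_zero]
    ring
  · have h1 : ((k : ℤ)) / (2 * N) = 0 := Int.ediv_eq_zero_of_lt (by positivity) (by exact_mod_cast h)
    have h2 : ((k : ℤ)) % (2 * N) = k := Int.emod_eq_of_lt (by positivity) (by exact_mod_cast h)
    rw [plS, h1, h2, Int.toNat_natCast]
    push_cast; ring

theorem plS_pos {N : ℕ} (hN : 2 ≤ N) (r : ℝ) (k : ℕ) (hk : k ≤ N + 1) :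
    plS N r k = gs r k := by
  have h := plS_eq hN r 0 k (by omega)
  rw [mul_zero, add_zero, Int.cast_zero, mul_zero, zero_add] at h
  rw [h, plS0]
  rcases Nat.lt_or_ge N k with h1 | h1
  · have h2 : k = N + 1 := by omega
    subst h2
    rw [if_neg (by omega), show 2 * N - (N + 1) = N - 1 by omega, gs_N1 hN]
    rfl
  · rw [if_pos h1]

theorem plS_neg {N : ℕ} (hN : 2 ≤ N) (r : ℝ) (k : ℕ) (hk : k ≤ N) :
    plS N r (-k) = -(r * gs r k) := by
  have h := plS_eq hN r (-1) (2 * N - k) (by omega)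
  have h1 : (((2 * N - k : ℕ) : ℤ) + 2 * N * (-1)) = -k := by
    rw [Nat.cast_sub (by omega)]; push_cast; ring
  rw [h1] at h
  rw [h, plS0]
  rcases eq_or_lt_of_le hk with h2 | h2
  · subst h2
    rw [if_pos (by omega), show 2 * k - k = k by omega, gs_N hN, plLa]
    push_cast; ring
  · rw [if_neg (by omega), show 2 * N - (2 * N - k) = k by omega]
    push_cast; ring

theorem plS_lt {N : ℕ} (hN : 2 ≤ N) {r : ℝ} (hr : 0 < r) (n : ℤ) :
    plS N r n < plS N r (n + 1) := by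
  have h0 : (2 * (N : ℤ)) ≠ 0 := by positivity
  have hp : (0 : ℤ) < 2 * N := by positivity
  obtain ⟨k, hk, hn⟩ : ∃ k : ℕ, k < 2 * N ∧ n = k + 2 * N * (n / (2 * N)) := by
    refine ⟨(n % (2 * N)).toNat, ?_, ?_⟩
    · have := Int.emod_lt_of_pos n hp
      have := Int.emod_nonneg n h0
      omega
    · rw [Int.toNat_of_nonneg (Int.emod_nonneg n h0)]
      exact (Int.emod_add_mul_ediv n (2 * N)).symm
  rw [hn, show (k : ℤ) + 2 * N * (n / (2 * N)) + 1 = ((k + 1 : ℕ) : ℤ) + 2 * N * (n / (2 * N)) by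
    push_cast; ring, plS_eq hN r _ k hk.le, plS_eq hN r _ (k + 1) hk]
  have hstep : plS0 N r k < plS0 N r (k + 1) := by
    rcases lt_trichotomy k N with h | h | h
    · rw [plS0, plS0, if_pos h.le, if_pos (by omega), gs_succ]
      have := pow_pos hr k
      linarith
    · subst h
      have h1 : plS0 k r (k + 1) = gs r (k + 1) := by
        rw [plS0, if_neg (by omega), show 2 * k - (k + 1) = k - 1 by omega, gs_N1 hN]
        rfl
      rw [h1, plS0, if_pos le_rfl, gs_succ]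
      have := pow_pos hr k
      linarith
    · rw [plS0, plS0, if_neg (by omega), if_neg (by omega)]
      obtain ⟨m, hm⟩ : ∃ m, 2 * N - k = m + 1 := ⟨2 * N - k - 1, by omega⟩
      rw [show 2 * N - (k + 1) = m by omega, hm, gs_succ]
      have := mul_pos hr (pow_pos hr m)
      linarith
  linarith

/-- the first linear relation -/
theorem plS_R1 {N : ℕ} (hN : 2 ≤ N) (r : ℝ) (n : ℤ) (h0 : 0 ≤ n) (h1 : n ≤ N) :
    plS N r (n + 1) = r * plS N r n + 1 := by
  obtain ⟨k, rfl⟩ := Int.eq_ofNat_of_zero_le h0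
  have hk : k ≤ N := by exact_mod_cast h1
  rw [plS_pos hN r k (by omega), show ((k : ℤ) + 1) = ((k + 1 : ℕ) : ℤ) by push_cast; ring,
    plS_pos hN r (k + 1) (by omega), gs_succ']
  ring

/-- the second linear relation -/
theorem plS_R2 {N : ℕ} (hN : 2 ≤ N) (r : ℝ) (n : ℤ) (h0 : 1 - N ≤ n) (h1 : n ≤ 1) :
    plS N r (n + (-1 : ℤ)) = r * plS N r n + -r := by
  rcases eq_or_lt_of_le h1 with h | h
  · subst h
    have := plS_pos hN r 1 (by omega)
    rw [Nat.cast_one] at this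
    rw [show (1 : ℤ) + -1 = 0 by norm_num, plS_zero hN, this, gs_succ, gs_zero]
    ring
  · obtain ⟨k, hk⟩ := Int.eq_ofNat_of_zero_le (show 0 ≤ -n by omega)
    have hn : n = -(k : ℤ) := by omega
    subst hn
    rw [show -(k : ℤ) + (-1 : ℤ) = -((k + 1 : ℕ) : ℤ) by push_cast; ring,
      plS_neg hN r (k + 1) (by omega), plS_neg hN r k (by omega), gs_succ']
    ring

end Pool.Agent.H.MP_1611f1_gt
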