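import Pool.Agent.H.MP_1611f1_gt.G2.PlB

/-!
The piecewise linear homeomorphism `Q` with `Q (Q t - 1) = t + 1 - 2 N` and its measure `th`.
-/

namespace Pool.Agent.H.MP_1611f1_gt

open Set Filter Topology

theorem PlC_iter {f : ℝ → ℝ} {P P' : ℝ} (h : ∀ t, f (t + P) = f t + P') (k : ℤ) (t : ℝ) :
    f (t + P * k) = f t + P' * k := by
  induction k using Int.induction_on with
  | zero => simp
  | succ i ih =>
    have := h (t + P * i)
    push_cast at ih ⊢
    rw [show t + P * ((i : ℝ) + 1) = t + P * i + P by ring, this, ih]; ring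
  | pred i ih =>
    have h1 := h (t + P * (-(i : ℝ) - 1))
    push_cast at ih ⊢
    rw [show t + P * (-(i : ℝ) - 1) + P = t + P * (-(i : ℝ)) by ring, ih] at h1
    linarith

/-- the measure `th` on the line -/
noncomputable def plth {N : ℕ} (hN : 2 ≤ N) {r : ℝ} (hr : 0 < r) : ℝ ≃o ℝ :=
  plIso (plS N r) (plS_lt hN hr) (2 * N) (by positivity) (plLa N r) (plS_per hN r)

theorem plth_apply {N : ℕ} (hN : 2 ≤ N) {r : ℝ} (hr : 0 < r) (x : ℝ) :
    plth hN hr x = plf (plS N r) x := rfl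

theorem plth_per {N : ℕ} (hN : 2 ≤ N) {r : ℝ} (hr : 0 < r) (x : ℝ) :
    plth hN hr (x + 2 * N) = plth hN hr x + plLa N r := by
  have := plf_shift (plS_per hN r) x
  push_cast at this
  exact this

theorem plth_R1 {N : ℕ} (hN : 2 ≤ N) {r : ℝ} (hr : 0 < r) {x : ℝ} (h0 : 0 ≤ x) (h1 : x ≤ N) :
    plth hN hr (x + 1) = r * plth hN hr x + 1 := by
  have := plf_affine (S := plS N r) (m := 1) (lo := 0) (hi := N) (a := r) (b := 1)
    (fun n h2 h3 => plS_R1 hN r n h2 h3) (x := x) ⟨by exact_mod_cast h0, by exact_mod_cast h1⟩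
  push_cast at this
  exact this

theorem plth_R2 {N : ℕ} (hN : 2 ≤ N) {r : ℝ} (hr : 0 < r) {x : ℝ} (h0 : 1 - N ≤ x) (h1 : x ≤ 1) :
    plth hN hr (x - 1) = r * plth hN hr x - r := by
  have := plf_affine (S := plS N r) (m := -1) (lo := 1 - N) (hi := 1) (a := r) (b := -r)
    (fun n h2 h3 => plS_R2 hN r n h2 h3) (x := x) ⟨by push_cast; exact h0, by push_cast; exact h1⟩
  push_cast at this
  rw [← sub_eq_add_neg, ← sub_eq_add_neg] at this
  exact this

theorem plth_zero {N : ℕ} (hN : 2 ≤ N) {r : ℝ} (hr : 0 < r) : plth hN hr 0 = 0 := by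
  have := plf_int (plS N r) 0
  rw [Int.cast_zero, plS_zero hN] at this
  exact this

theorem plth_nat {N : ℕ} (hN : 2 ≤ N) {r : ℝ} (hr : 0 < r) (k : ℕ) (hk : k ≤ N + 1) :
    plth hN hr k = gs r k := by
  have := plf_int (plS N r) k
  rw [plS_pos hN r k hk, Int.cast_natCast] at this
  exact this

theorem plth_neg {N : ℕ} (hN : 2 ≤ N) {r : ℝ} (hr : 0 < r) (k : ℕ) (hk : k ≤ N) :
    plth hN hr (-k) = -(r * gs r k) := by
  have := plf_int (plS N r) (-k)
  rw [plS_neg hN r k hk, Int.cast_neg, Int.cast_natCast] at this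
  exact this

/-- the homeomorphism `Q` -/
noncomputable def plQ {N : ℕ} (hN : 2 ≤ N) {r : ℝ} (hr : 0 < r) : ℝ ≃o ℝ :=
  ((plth hN hr).trans (OrderIso.addRight (-plc N r))).trans (plth hN hr).symm

theorem plQ_th {N : ℕ} (hN : 2 ≤ N) {r : ℝ} (hr : 0 < r) (x : ℝ) :
    plth hN hr (plQ hN hr x) = plth hN hr x - plc N r := by
  rw [plQ, OrderIso.trans_apply, OrderIso.trans_apply, OrderIso.apply_symm_apply,
    OrderIso.addRight_apply, sub_eq_add_neg]

theorem plQ_eq {N : ℕ} (hN : 2 ≤ N) {r : ℝ} (hr : 0 < r) {x y : ℝ}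
    (h : plth hN hr y = plth hN hr x - plc N r) : plQ hN hr x = y :=
  (plth hN hr).injective ((plQ_th hN hr x).trans h.symm)

theorem plQ_per {N : ℕ} (hN : 2 ≤ N) {r : ℝ} (hr : 0 < r) (x : ℝ) :
    plQ hN hr (x + 2 * N) = plQ hN hr x + 2 * N := by
  apply plQ_eq
  rw [plth_per, plth_per, plQ_th]; ring

theorem plQ_zero {N : ℕ} (hN : 2 ≤ N) {r : ℝ} (hr : 0 < r) : plQ hN hr 0 = 1 - N := by
  apply plQ_eq
  have := plth_neg hN hr (N - 1) (by omega)
  rw [Nat.cast_sub (by omega), Nat.cast_one, neg_sub] at this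
  rw [this, plth_zero, plc]; ring

theorem plQ_N {N : ℕ} (hN : 2 ≤ N) {r : ℝ} (hr : 0 < r) : plQ hN hr N = 1 := by
  apply plQ_eq
  have h1 := plth_nat hN hr N (by omega)
  have h2 := plth_nat hN hr 1 (by omega)
  rw [Nat.cast_one, gs_succ, gs_zero] at h2
  rw [h1, h2, gs_N hN]; ring

theorem plQ_key0 {N : ℕ} (hN : 2 ≤ N) {r : ℝ} (hr : 0 < r) {s : ℝ} (h0 : 0 ≤ s) (h1 : s ≤ N) :
    plQ hN hr (plQ hN hr s - 1) = s + 1 - 2 * N := by
  have h2 : 1 - (N : ℝ) ≤ plQ hN hr s := by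
    rw [← plQ_zero hN hr]; exact (plQ hN hr).monotone h0
  have h3 : plQ hN hr s ≤ 1 := by
    rw [← plQ_N hN hr]; exact (plQ hN hr).monotone h1
  apply plQ_eq
  have h4 := plth_per hN hr (s + 1 - 2 * N)
  rw [sub_add_cancel, plth_R1 hN hr h0 h1] at h4
  rw [plth_R2 hN hr h2 h3, plQ_th]
  rw [plLa] at h4
  linarith

theorem plQ_key1 {N : ℕ} (hN : 2 ≤ N) {r : ℝ} (hr : 0 < r) {s : ℝ} (h0 : (N : ℝ) ≤ s)
    (h1 : s ≤ 2 * N) : plQ hN hr (plQ hN hr s - 1) = s + 1 - 2 * N := by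
  have h2 : 1 ≤ plQ hN hr s := by
    rw [← plQ_N hN hr]; exact (plQ hN hr).monotone h0
  have h3 : plQ hN hr s ≤ 1 + N := by
    have h5 : plQ hN hr (2 * N) = 1 + N := by
      have := plQ_per hN hr 0
      rw [zero_add, plQ_zero] at this
      rw [this]; ring
    rw [← h5]; exact (plQ hN hr).monotone h1
  apply plQ_eq
  have h4 := plth_per hN hr (s - 2 * N)
  rw [sub_add_cancel] at h4
  have h5 := plth_R2 hN hr (x := s + 1 - 2 * N) (by linarith) (by linarith)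
  rw [show s + 1 - 2 * (N : ℝ) - 1 = s - 2 * N by ring] at h5
  have h6 := plth_R1 hN hr (x := plQ hN hr s - 1) (by linarith) (by linarith)
  rw [sub_add_cancel, plQ_th] at h6
  have h7 : r * plth hN hr (s + 1 - 2 * N) = r * (plth hN hr (plQ hN hr s - 1) - plc N r) := by
    rw [plLa] at h4
    linarith
  exact mul_left_cancel₀ hr.ne' h7

/-- the key identity -/
theorem plQ_key {N : ℕ} (hN : 2 ≤ N) {r : ℝ} (hr : 0 < r) (t : ℝ) :
    plQ hN hr (plQ hN hr t - 1) = t + 1 - 2 * N := by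
  have hp : (0 : ℝ) < 2 * N := by positivity
  set k : ℤ := ⌊t / (2 * N)⌋ with hk
  have h1 := Int.floor_le (t / (2 * N))
  have h2 := Int.lt_floor_add_one (t / (2 * N))
  rw [← hk, le_div_iff₀ hp] at h1
  rw [← hk, div_lt_iff₀ hp] at h2
  obtain ⟨s, hs⟩ : ∃ s, s = t - 2 * N * k := ⟨_, rfl⟩
  have ht : t = s + 2 * N * k := by rw [hs]; ring
  have h3 : 0 ≤ s := by linarith
  have h4 : s ≤ 2 * N := by linarith
  rw [ht, PlC_iter (f := plQ hN hr) (plQ_per hN hr),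
    show plQ hN hr s + 2 * (N : ℝ) * k - 1 = (plQ hN hr s - 1) + 2 * N * k by ring,
    PlC_iter (f := plQ hN hr) (plQ_per hN hr)]
  rcases le_total s N with h5 | h5
  · rw [plQ_key0 hN hr h3 h5]; ring
  · rw [plQ_key1 hN hr h5 h4]; ring

theorem plth_half {N : ℕ} (hN : 2 ≤ N) {r : ℝ} (hr : 0 < r) : plth hN hr (1 / 2) = 1 / 2 := by
  have h := plf_add (plS N r) 0 (1 / 2) ⟨by norm_num, by norm_num⟩
  have h1 := plS_pos hN r 1 (by omega)
  rw [Nat.cast_one, gs_succ, gs_zero] at h1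
  rw [zero_add, h1, plS_zero hN, Int.cast_zero, zero_add] at h
  rw [plth_apply, h]; ring

theorem plth_neg_half {N : ℕ} (hN : 2 ≤ N) {r : ℝ} (hr : 0 < r) :
    plth hN hr (-(1 / 2)) = -(r / 2) := by
  have h := plth_R2 hN hr (x := 1 / 2) (by
    have : (2 : ℝ) ≤ N := by exact_mod_cast hN
    linarith) (by norm_num)
  rw [plth_half, show (1 / 2 : ℝ) - 1 = -(1 / 2) by norm_num] at h
  rw [h]; ring

theorem plth_five {N : ℕ} (hN : 2 ≤ N) {r : ℝ} (hr : 0 < r) :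
    plth hN hr (5 / 2) = 1 + r + r ^ 2 / 2 := by
  have hN' : (2 : ℝ) ≤ N := by exact_mod_cast hN
  have h := plth_R1 hN hr (x := 1 / 2) (by norm_num) (by linarith)
  have h' := plth_R1 hN hr (x := 3 / 2) (by norm_num) (by linarith)
  rw [plth_half, show (1 / 2 : ℝ) + 1 = 3 / 2 by norm_num] at h
  rw [h, show (3 / 2 : ℝ) + 1 = 5 / 2 by norm_num] at h'
  rw [h']; ring

/-- the fixed points -/
theorem plQ_fix {N : ℕ} (hN : 2 ≤ N) {r : ℝ} (hr : 0 < r) (hc : plc N r < (1 + r) / 2) (d : ℤ)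
    (h2 : 2 ≤ d) (h3 : d ≤ 2 * N - 2) :
    ∃ x : ℝ, |x| < 1 / 2 ∧ plQ hN hr x = x + 1 - d := by
  have hd2 : (2 : ℝ) ≤ d := by exact_mod_cast h2
  have hd3 : (d : ℝ) ≤ 2 * N - 2 := by exact_mod_cast h3
  have hcont : Continuous fun x : ℝ => x - plQ hN hr x :=
    continuous_id.sub (plQ hN hr).continuous
  have hup : -(1 / 2) < plQ hN hr (1 / 2) := by
    rw [← (plth hN hr).lt_iff_lt, plQ_th, plth_half, plth_neg_half]
    linarith
  have hlo : plQ hN hr (-(1 / 2)) < 5 / 2 - 2 * N := by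
    have h4 := plth_per hN hr (5 / 2 - 2 * N)
    rw [sub_add_cancel, plth_five, plLa] at h4
    rw [← (plth hN hr).lt_iff_lt, plQ_th, plth_neg_half]
    nlinarith
  rcases le_total d N with hdN | hdN
  · have hdN' : (d : ℝ) ≤ N := by exact_mod_cast hdN
    have hiv := intermediate_value_Icc' (f := fun x : ℝ => x - plQ hN hr x)
      (show (0 : ℝ) ≤ 1 / 2 by norm_num) hcont.continuousOn
    obtain ⟨x, hx, hx2⟩ := hiv (show (d : ℝ) - 1 ∈ Icc _ _ from
      ⟨by show (1 / 2 : ℝ) - plQ hN hr (1 / 2) ≤ _; linarith,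
        by show _ ≤ (0 : ℝ) - plQ hN hr 0; rw [plQ_zero]; linarith⟩)
    have hx3 : x - plQ hN hr x = d - 1 := hx2
    refine ⟨x, ?_, by linarith⟩
    rw [abs_of_nonneg hx.1]
    refine lt_of_le_of_ne hx.2 ?_
    rintro rfl
    linarith
  · have hdN' : (N : ℝ) ≤ d := by exact_mod_cast hdN
    have hiv := intermediate_value_Icc' (f := fun x : ℝ => x - plQ hN hr x)
      (show -(1 / 2 : ℝ) ≤ 0 by norm_num) hcont.continuousOn
    obtain ⟨x, hx, hx2⟩ := hiv (show (d : ℝ) - 1 ∈ Icc _ _ from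
      ⟨by show (0 : ℝ) - plQ hN hr 0 ≤ _; rw [plQ_zero]; linarith,
        by show _ ≤ (-(1 / 2) : ℝ) - plQ hN hr (-(1 / 2)); linarith⟩)
    have hx3 : x - plQ hN hr x = d - 1 := hx2
    refine ⟨x, ?_, by linarith⟩
    rw [abs_of_nonpos hx.2]
    have : x ≠ -(1 / 2) := by
      rintro rfl
      linarith
    have := lt_of_le_of_ne hx.1 this.symm
    linarith

end Pool.Agent.H.MP_1611f1_gt
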