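import Pool.Agent.H.MP_1611f1_gt.G2.PlC

/-!
The homeomorphisms `A p` attached to the sides of a polygon with `2 N` sides, with their
fixed points at the integers and their measures `th p`.
-/

namespace Pool.Agent.H.MP_1611f1_gt

open Set Filter Topology

theorem PlD_cont (N : ℕ) : ContinuousOn (fun r : ℝ => 2 * N * plc N r / plLa N r) (Icc 0 1) := by
  have h1 : Continuous fun r : ℝ => plc N r := by
    unfold plc gs
    fun_prop
  have h2 : Continuous fun r : ℝ => plLa N r := by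
    unfold plLa
    fun_prop
  refine ContinuousOn.div (by fun_prop) h2.continuousOn fun r hr => ?_
  have h3 : 0 ≤ plc N r := mul_nonneg hr.1 (gs_nonneg hr.1 _)
  have h4 : 0 < plLa N r := mul_pos (by linarith [hr.1]) (by linarith)
  exact h4.ne'

/-- the parameter -/
theorem exists_plr {N : ℕ} (hN : 2 ≤ N) {c : ℝ} (hc : 0 < c) (hc1 : c < N - 1) :
    ∃ r : ℝ, 0 < r ∧ 0 < plLa N r ∧ 2 * N * plc N r / plLa N r = c ∧
      (c ≤ (N - 1) / 2 → plc N r < (1 + r) / 2) := by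
  have hN0 : (0 : ℝ) < N := by
    have : (2 : ℝ) ≤ N := by exact_mod_cast hN
    linarith
  have h0 : 2 * N * plc N 0 / plLa N 0 = 0 := by simp [plc]
  have h1 : 2 * N * plc N 1 / plLa N 1 = N - 1 := by
    have h2 : plc N 1 = N - 1 := by
      simp [plc, gs, Nat.cast_sub (show 1 ≤ N by omega)]
    have h3 : plLa N 1 = 2 * N := by
      rw [plLa, h2]; ring
    rw [h2, h3]
    field_simp
  obtain ⟨r, hr, hr2⟩ := intermediate_value_Icc (zero_le_one' ℝ) (PlD_cont N)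
    (show c ∈ Icc (2 * N * plc N 0 / plLa N 0) (2 * N * plc N 1 / plLa N 1) from
      ⟨by rw [h0]; exact hc.le, by rw [h1]; exact hc1.le⟩)
  have hr3 : 2 * N * plc N r / plLa N r = c := hr2
  have hr0 : 0 < r := by
    refine lt_of_le_of_ne hr.1 ?_
    rintro rfl
    rw [h0] at hr3
    exact hc.ne hr3
  have hc0 := plc_pos hN hr0
  have hLa : 0 < plLa N r := mul_pos (by linarith) (by linarith)
  refine ⟨r, hr0, hLa, hr3, fun hc3 => ?_⟩
  by_contra hcon
  rw [not_lt] at hcon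
  rw [div_eq_iff hLa.ne', plLa] at hr3
  have h5 : c * ((1 + r) * (1 + plc N r)) ≤ (N - 1) / 2 * ((1 + r) * (1 + plc N r)) :=
    mul_le_mul_of_nonneg_right hc3 (by positivity)
  rw [← hr3] at h5
  have hr1 := hr.2
  have h6 : (1 + r) * (1 + plc N r) ≤ 4 * plc N r := by nlinarith
  nlinarith

/-- the homeomorphisms attached to the sides -/
theorem exists_pl {N : ℕ} (hN : 2 ≤ N) (d : ℤ → ℤ) (hd2 : ∀ p, 2 ≤ d p)
    (hd3 : ∀ p, d p ≤ 2 * N - 2) (hdper : ∀ p, d (p + 2 * N) = d p)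
    (hdinv : ∀ p, d (p + d p) = 2 * N - d p) {c : ℝ} (hc : 0 < c)
    (hc2 : c ≤ (N - 1) / 2 ∨ ((∀ p, d p = N) ∧ c < N - 1)) :
    ∃ (A : ℤ → (ℝ ≃o ℝ)) (th : ℤ → ℝ → ℝ), (∀ p, StrictMono (th p)) ∧ (∀ p, Continuous (th p)) ∧
      (∀ p t, th p (t + 2 * N) = th p t + 2 * N) ∧ (∀ p t, th (p + 2 * N) t = th p t - 2 * N) ∧
      (∀ p t, A p (t + 2 * N) = A p t + 2 * N) ∧ (∀ p, A (p + 2 * N) = A p) ∧
      (∀ p, A (p + d p) = (A p).symm) ∧ (∀ p : ℤ, A p p = p) ∧
      (∀ p t, th (p + d p - 1) (A p t) = th p t - c) := by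
  have hN2 : (2 : ℝ) ≤ N := by exact_mod_cast hN
  have hc1 : c < N - 1 := by
    rcases hc2 with h | h
    · linarith
    · exact h.2
  obtain ⟨r, hr, hLa, hrc, hr2⟩ := exists_plr hN hc hc1
  set Q := plQ hN hr with hQ
  set T := plth hN hr with hT
  have hfix : ∀ e : ℤ, ∃ x : ℝ, (∃ p, d p = e) → |x| < 1 / 2 ∧ Q x = x + 1 - e := by
    intro e
    rcases hc2 with h | h
    · by_cases hp : 2 ≤ e ∧ e ≤ 2 * N - 2
      · obtain ⟨x, h1, h2⟩ := plQ_fix hN hr (hr2 h) e hp.1 hp.2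
        exact ⟨x, fun _ => ⟨h1, h2⟩⟩
      · refine ⟨0, fun h => absurd ?_ hp⟩
        obtain ⟨p, rfl⟩ := h
        exact ⟨hd2 p, hd3 p⟩
    · refine ⟨0, fun ⟨p, hp⟩ => ⟨by norm_num, ?_⟩⟩
      rw [hQ, plQ_zero, ← hp, h.1 p]; push_cast; ring
  -- the shifts depend only on the value of `d`
  choose ξ hξ' using hfix
  have hξ : ∀ p, |ξ (d p)| < 1 / 2 ∧ Q (ξ (d p)) = ξ (d p) + 1 - d p :=
    fun p => hξ' (d p) ⟨p, rfl⟩
  set tt : ℤ → ℝ := fun p => p + ξ (d p) with htt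
  have htt1 : ∀ p, tt p < tt (p + 1) := by
    intro p
    have h1 := abs_lt.1 (hξ p).1
    have h2 := abs_lt.1 (hξ (p + 1)).1
    rw [htt]; push_cast; linarith
  have htt2 : ∀ p, tt (p + 2 * N) = tt p + 2 * N := by
    intro p
    simp only [htt, hdper]; push_cast; ring
  set ζ : ℝ ≃o ℝ := plIso tt htt1 (2 * N) (by positivity) (2 * N) htt2 with hζ
  have hζint : ∀ p : ℤ, ζ p = tt p := fun p => plf_int tt p
  have hζper : ∀ t, ζ (t + 2 * N) = ζ t + 2 * N := by
    intro t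
    have := plf_shift htt2 t
    push_cast at this
    exact this
  have hζsper : ∀ t, ζ.symm (t + 2 * N) = ζ.symm t + 2 * N := by
    intro t
    apply ζ.injective
    rw [hζper, OrderIso.apply_symm_apply, OrderIso.apply_symm_apply]
  let A : ℤ → (ℝ ≃o ℝ) := fun p =>
    (((ζ.trans (OrderIso.addRight (-(p : ℝ)))).trans Q).trans
      (OrderIso.addRight ((p + d p - 1 : ℤ) : ℝ))).trans ζ.symm
  have hA : ∀ p t, A p t = ζ.symm (Q (ζ t - p) + (p + d p - 1 : ℤ)) := by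
    intro p t
    show ζ.symm (Q (ζ t + -(p : ℝ)) + ((p + d p - 1 : ℤ) : ℝ)) = _
    rw [← sub_eq_add_neg]
  have hζA : ∀ p t, ζ (A p t) = Q (ζ t - p) + (p + d p - 1 : ℤ) := by
    intro p t
    rw [hA, OrderIso.apply_symm_apply]
  refine ⟨A, fun p t => 2 * N / plLa N r * T (ζ t - p), ?_, ?_, ?_, ?_, ?_, ?_, ?_, ?_, ?_⟩
  · intro p x y hxy
    have h1 : T (ζ x - p) < T (ζ y - p) := T.strictMono (by
      have := ζ.strictMono hxy
      linarith)
    exact mul_lt_mul_of_pos_left h1 (by positivity)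
  · intro p
    exact continuous_const.mul (T.continuous.comp (ζ.continuous.sub continuous_const))
  · intro p t
    show 2 * N / plLa N r * T (ζ (t + 2 * N) - p) = 2 * N / plLa N r * T (ζ t - p) + 2 * N
    rw [hζper, show ζ t + 2 * N - p = (ζ t - p) + 2 * N by ring, hT, plth_per]
    field_simp
  · intro p t
    show 2 * N / plLa N r * T (ζ t - (p + 2 * N : ℤ)) = 2 * N / plLa N r * T (ζ t - p) - 2 * N
    have h := plth_per hN hr (ζ t - (p + 2 * N : ℤ))
    rw [show ζ t - ((p + 2 * N : ℤ) : ℝ) + 2 * N = ζ t - p by push_cast; ring] at h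
    rw [hT, h]
    field_simp
    ring
  · intro p t
    apply ζ.injective
    rw [hζA, hζper, hζper, hζA, show ζ t + 2 * N - p = (ζ t - p) + 2 * N by ring, hQ, plQ_per]
    ring
  · intro p
    ext t
    apply ζ.injective
    rw [hζA, hζA, hdper]
    have h := plQ_per hN hr (ζ t - (p + 2 * N : ℤ))
    rw [show ζ t - ((p + 2 * N : ℤ) : ℝ) + 2 * N = ζ t - p by push_cast; ring] at h
    rw [hQ, h]; push_cast; ring
  · intro p
    ext t
    rw [← (A p).injective.eq_iff, OrderIso.apply_symm_apply]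
    apply ζ.injective
    rw [hζA, hζA, hdinv]
    obtain ⟨w, hw⟩ : ∃ w, w = ζ t - (p + d p : ℤ) := ⟨_, rfl⟩
    rw [← hw]
    have h := plQ_key hN hr w
    have h2 := plQ_per hN hr (Q w - 1)
    rw [← hQ] at h h2
    rw [show Q w + ((p + d p + (2 * N - d p) - 1 : ℤ) : ℝ) - p = (Q w - 1) + 2 * N by
      push_cast; ring, h2, h, hw]
    push_cast; ring
  · intro p
    apply ζ.injective
    rw [hζA, hζint, htt]
    show Q ((p : ℝ) + ξ (d p) - p) + _ = _
    rw [add_sub_cancel_left, (hξ p).2]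
    push_cast; ring
  · intro p t
    show 2 * N / plLa N r * T (ζ (A p t) - ((p + d p - 1 : ℤ) : ℝ)) =
      2 * N / plLa N r * T (ζ t - p) - c
    rw [hζA, add_sub_cancel_right, hQ, hT, plQ_th, ← hrc]
    field_simp

end Pool.Agent.H.MP_1611f1_gt
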